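import Pool.Agent.NH66.Cantor.Defs

/-! The hierarchical parity code. -/

set_option autoImplicit false

open Finset Filter Topology

namespace Pool.Agent.NH66.Cantor

/-- number of data blocks of level `k` in a block of level `k+1` -/
def nn (k : ℕ) : ℕ := 2 ^ (k + 6) + 1

/-- length of a block of level `k` -/
def LL : ℕ → ℕ
  | 0 => 2
  | k + 1 => (nn k + 2) * LL k

/-- the messages of level `k` -/
def M : ℕ → Type
  | 0 => ZMod 2
  | k + 1 => Fin (nn k) → M k

noncomputable instance instM : ∀ k, AddCommGroup (M k)
  | 0 => inferInstanceAs (AddCommGroup (ZMod 2))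
  | k + 1 => by
    letI := instM k
    exact inferInstanceAs (AddCommGroup (Fin (nn k) → M k))

noncomputable instance instDec : ∀ k, DecidableEq (M k)
  | 0 => inferInstanceAs (DecidableEq (ZMod 2))
  | k + 1 => by
    letI := instDec k
    exact inferInstanceAs (DecidableEq (Fin (nn k) → M k))

noncomputable instance instFin : ∀ k, Fintype (M k)
  | 0 => inferInstanceAs (Fintype (ZMod 2))
  | k + 1 => by
    letI := instFin k
    letI := instDec k
    exact inferInstanceAs (Fintype (Fin (nn k) → M k))

instance instNe (k : ℕ) : Nonempty (M k) := ⟨0⟩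

/-- the small letter -/
def la : ℕ := 2
/-- the middle letter -/
def lb : ℕ := 2 ^ 17
/-- the large letter (separator) -/
def lc : ℕ := 2 ^ 18

lemma la_lt_lb : la < lb := by norm_num [la, lb]
lemma lb_lt_lc : lb < lc := by norm_num [lb, lc]

/-- sum of the components (the parity block) -/
noncomputable def par {k : ℕ} (w : M (k + 1)) : M k := ∑ i : Fin (nn k), (w : Fin (nn k) → M k) i

/-- a component of a message -/
def comp {k : ℕ} (w : M (k + 1)) (i : Fin (nn k)) : M k := (w : Fin (nn k) → M k) i

/-- the message with the given components -/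
def mk {k : ℕ} (f : Fin (nn k) → M k) : M (k + 1) := f

@[simp] lemma comp_mk {k : ℕ} (f : Fin (nn k) → M k) (i : Fin (nn k)) : comp (mk f) i = f i := rfl

lemma par_eq {k : ℕ} (w : M (k + 1)) : par w = ∑ i, comp w i := rfl

lemma M_ext {k : ℕ} {w w' : M (k + 1)} (h : ∀ i, comp w i = comp w' i) : w = w' := funext h

/-- the block number `t` of a message of level `k + 1` (only used for `t ≠ nn k`) -/
noncomputable def sub {k : ℕ} (w : M (k + 1)) (t : ℕ) : M k :=
  if h : t < nn k then comp w ⟨t, h⟩ else par w

/-- the code word of a message -/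
noncomputable def encf : (k : ℕ) → M k → ℕ → ℕ
  | 0, m, n => if (m : ZMod 2) = 0 then (if n = 0 then la else lb) else (if n = 0 then lb else la)
  | k + 1, w, n => if n / LL k = nn k then lc else encf k (sub w (n / LL k)) (n % LL k)

/-- the code word of a message as a list -/
noncomputable def word (k : ℕ) (m : M k) : List ℕ := win (encf k m) 0 (LL k)

lemma nn_pos (k : ℕ) : 0 < nn k := by unfold nn; positivity

lemma LL_pos (k : ℕ) : 0 < LL k := by
  induction k with
  | zero => simp [LL]
  | succ k ih => rw [LL]; positivity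

lemma LL_succ (k : ℕ) : LL (k + 1) = (nn k + 2) * LL k := rfl

@[simp] lemma word_length (k : ℕ) (m : M k) : (word k m).length = LL k := by simp [word]

lemma encf_succ (k : ℕ) (w : M (k + 1)) (n : ℕ) :
    encf (k + 1) w n = if n / LL k = nn k then lc else encf k (sub w (n / LL k)) (n % LL k) := rfl

lemma encf_block (k : ℕ) (w : M (k + 1)) (t r : ℕ) (hr : r < LL k) :
    encf (k + 1) w (t * LL k + r) = if t = nn k then lc else encf k (sub w t) r := by
  rw [encf_succ]
  have h1 : (t * LL k + r) / LL k = t := by
    rw [mul_comm, Nat.mul_add_div (LL_pos k), Nat.div_eq_of_lt hr, add_zero]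
  have h2 : (t * LL k + r) % LL k = r := by
    rw [mul_comm, Nat.mul_add_mod, Nat.mod_eq_of_lt hr]
  rw [h1, h2]

lemma win_block (k : ℕ) (w : M (k + 1)) (t : ℕ) :
    win (encf (k + 1) w) (t * LL k) (LL k) =
      if t = nn k then List.replicate (LL k) lc else word k (sub w t) := by
  split_ifs with h
  · apply List.ext_getElem (by simp)
    intro i h1 h2
    rw [win_getElem, encf_block k w t i (by simpa using h1), if_pos h]
    simp
  · unfold word
    rw [win_eq_iff]
    intro i hi
    rw [encf_block k w t i hi, if_neg h, zero_add]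

lemma encf_letters (k : ℕ) (m : M k) (n : ℕ) :
    encf k m n = la ∨ encf k m n = lb ∨ encf k m n = lc := by
  induction k generalizing n with
  | zero =>
    unfold encf
    split_ifs <;> simp
  | succ k ih =>
    rw [encf_succ]
    split_ifs
    · simp
    · exact ih _ _

lemma encf_pat (k : ℕ) (m m' : M k) (n : ℕ) : encf k m n = lc ↔ encf k m' n = lc := by
  induction k generalizing n with
  | zero =>
    have h1 : ∀ m : M 0, encf 0 m n ≠ lc := by
      intro m
      unfold encf
      have := la_lt_lb
      have := lb_lt_lc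
      split_ifs <;> omega
    simp [h1]
  | succ k ih =>
    rw [encf_succ, encf_succ]
    split_ifs
    · simp
    · exact ih _ _ _

lemma encf_first (k : ℕ) (m : M k) : encf k m 0 ≠ lc := by
  induction k with
  | zero =>
    unfold encf
    have := la_lt_lb
    have := lb_lt_lc
    split_ifs <;> omega
  | succ k ih =>
    rw [encf_succ, Nat.zero_div, if_neg (by have := nn_pos k; omega), Nat.zero_mod]
    exact ih _

lemma encf_last (k : ℕ) (m : M k) : encf k m (LL k - 1) ≠ lc := by
  induction k with
  | zero =>
    unfold encf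
    have := la_lt_lb
    have := lb_lt_lc
    split_ifs <;> omega
  | succ k ih =>
    have h1 : LL (k + 1) - 1 = (nn k + 1) * LL k + (LL k - 1) := by
      rw [LL_succ]
      have := LL_pos k
      have h2 : (nn k + 2) * LL k = (nn k + 1) * LL k + LL k := by ring
      omega
    rw [h1, encf_block k m _ _ (by have := LL_pos k; omega), if_neg (by omega)]
    exact ih _

lemma add_self (k : ℕ) (m : M k) : m + m = 0 := by
  induction k with
  | zero => exact CharTwo.add_self_eq_zero (R := ZMod 2) m
  | succ k ih => exact funext (fun i => ih (comp m i))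

lemma word_injective (k : ℕ) {m m' : M k} (h : word k m = word k m') : m = m' := by
  induction k with
  | zero =>
    unfold word at h
    rw [win_eq_iff] at h
    have h0 := h 0 (by simp [LL])
    simp only [encf, zero_add, if_true] at h0
    have h1 := la_lt_lb
    by_cases hm : (m : ZMod 2) = 0 <;> by_cases hm' : (m' : ZMod 2) = 0
    · exact hm.trans hm'.symm
    · rw [if_pos hm, if_neg hm'] at h0; omega
    · rw [if_neg hm, if_pos hm'] at h0; omega
    · have h2 : ∀ z : ZMod 2, z ≠ 0 → z = 1 := by decide
      exact (h2 m hm).trans (h2 m' hm').symm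
  | succ k ih =>
    apply M_ext
    intro i
    apply ih
    unfold word at h ⊢
    rw [win_eq_iff] at h ⊢
    intro r hr
    have h1 := h (i * LL k + r) (by
      rw [LL_succ]
      have := i.2
      calc (i : ℕ) * LL k + r < (i + 1) * LL k := by rw [Nat.succ_mul]; omega
        _ ≤ (nn k + 2) * LL k := Nat.mul_le_mul_right _ (by omega))
    rw [zero_add, encf_block k m i r hr, encf_block k m' i r hr, if_neg (by have := i.2; omega),
      if_neg (by have := i.2; omega)] at h1
    have h2 : ∀ w : M (k + 1), sub w (i : ℕ) = comp w i := by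
      intro w
      unfold sub
      rw [dif_pos i.2]
    rw [h2, h2] at h1
    rw [zero_add]
    exact h1

lemma letter_pos (k : ℕ) (m : M k) (n : ℕ) : 0 < encf k m n := by
  rcases encf_letters k m n with h | h | h <;> rw [h] <;> norm_num [la, lb, lc]

/-- two messages of level `k + 1` that differ have two different blocks -/
lemma two_blocks {k : ℕ} {w w' : M (k + 1)} (h : w' ≠ w) :
    ∃ i j, i < j ∧ j < nn k + 2 ∧ i ≠ nn k ∧ j ≠ nn k ∧ sub w' i ≠ sub w i ∧
      sub w' j ≠ sub w j := by
  have hsub : ∀ (w : M (k + 1)) (i : Fin (nn k)), sub w (i : ℕ) = comp w i := by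
    intro w i
    unfold sub
    rw [dif_pos i.2]
  obtain ⟨i, hi⟩ : ∃ i, comp w' i ≠ comp w i := by
    by_contra hcon
    push Not at hcon
    exact h (M_ext hcon)
  by_cases h2 : ∃ j, j ≠ i ∧ comp w' j ≠ comp w j
  · obtain ⟨j, hji, hj⟩ := h2
    rcases lt_or_gt_of_ne hji with hlt | hlt
    · refine ⟨j, i, hlt, by omega, by omega, by omega, ?_, ?_⟩
      · rw [hsub, hsub]; exact hj
      · rw [hsub, hsub]; exact hi
    · refine ⟨i, j, hlt, by omega, by omega, by omega, ?_, ?_⟩
      · rw [hsub, hsub]; exact hi
      · rw [hsub, hsub]; exact hj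
  · push Not at h2
    refine ⟨i, nn k + 1, by omega, by omega, by omega, by omega, ?_, ?_⟩
    · rw [hsub, hsub]; exact hi
    · have hp : ∀ w : M (k + 1), sub w (nn k + 1) = par w := by
        intro w
        unfold sub
        rw [dif_neg (by omega)]
      rw [hp, hp, par_eq, par_eq]
      intro hs
      apply hi
      rw [← Finset.add_sum_erase _ _ (Finset.mem_univ i),
        ← Finset.add_sum_erase _ (fun j => comp w j) (Finset.mem_univ i)] at hs
      have h3 : ∑ x ∈ univ.erase i, comp w' x = ∑ x ∈ univ.erase i, comp w x := by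
        apply Finset.sum_congr rfl
        intro j hj
        exact h2 j (Finset.ne_of_mem_erase hj)
      rw [h3] at hs
      exact add_right_cancel hs

lemma Pr_append_and (V W : List ℕ) (A B : Set (List ℕ)) :
    Pr (V ++ W) {E | E.take V.length ∈ A ∧ E.drop V.length ∈ B} = Pr V A * Pr W B := by
  have h0 : Pr V A * Pr W B = Ex V (fun E => Pr W B * A.indicator (fun _ => (1 : ℝ)) E) := by
    rw [Ex_smul, mul_comm]
    rfl
  rw [h0]
  unfold Pr
  rw [Ex_append]
  apply Ex_congr
  intro E hE
  have h1 : ∀ F : List ℕ, (E ++ F).take V.length = E := by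
    intro F
    rw [← hE.length_eq]
    simp
  have h2 : ∀ F : List ℕ, (E ++ F).drop V.length = F := by
    intro F
    rw [← hE.length_eq]
    simp
  by_cases h : E ∈ A
  · rw [ind_mem h, mul_one]
    apply Ex_congr
    intro F _
    by_cases hF : F ∈ B
    · rw [ind_mem hF, ind_mem]
      exact ⟨by rw [h1]; exact h, by rw [h2]; exact hF⟩
    · rw [ind_notMem hF, ind_notMem]
      rintro ⟨_, h4⟩
      rw [h2] at h4
      exact hF h4
  · rw [ind_notMem h, mul_zero, Ex_congr (g' := fun _ => 0), Ex_zero]
    intro F _
    rw [ind_notMem]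
    rintro ⟨h3, _⟩
    rw [h1] at h3
    exact h h3

/-- slices of the blocks -/
def slice (L i : ℕ) (E : List ℕ) : List ℕ := (E.drop (i * L)).take L

lemma slice_take {L i s : ℕ} (h : i < s) (E : List ℕ) :
    slice L i (E.take (s * L)) = slice L i E := by
  unfold slice
  rw [List.drop_take, List.take_take, min_eq_left]
  have : (i + 1) * L ≤ s * L := Nat.mul_le_mul_right _ h
  rw [Nat.succ_mul] at this
  omega

lemma at_least {L : ℕ} {ε : ℝ} (hε : 0 ≤ ε) (f : ℕ → ℕ) (B : ℕ → Set (List ℕ)) (s : ℕ)
    (hf : ∀ n, 0 < f n) (h : ∀ i < s, Pr (win f (i * L) L) (B i) ≤ ε) :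
    Pr (win f 0 (s * L)) {E | ∃ i < s, slice L i E ∈ B i} ≤ s * ε ∧
    Pr (win f 0 (s * L)) {E | ∃ i j, i < j ∧ j < s ∧ slice L i E ∈ B i ∧ slice L j E ∈ B j} ≤
      (s : ℝ) ^ 2 / 2 * ε ^ 2 := by
  have hpos : ∀ j L, ∀ v ∈ win f j L, 0 < v := by
    intro j L v hv
    obtain ⟨i, _, rfl⟩ := mem_win hv
    exact hf _
  induction s with
  | zero =>
    constructor
    · have : {E : List ℕ | ∃ i < 0, slice L i E ∈ B i} = ∅ := by
        ext E
        simp
      rw [this, Pr_empty]
      simp
    · have : {E : List ℕ | ∃ i j, i < j ∧ j < 0 ∧ slice L i E ∈ B i ∧ slice L j E ∈ B j} = ∅ := by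
        ext E
        simp
      rw [this, Pr_empty]
      simp
  | succ s ih =>
    obtain ⟨ih1, ih2⟩ := ih (fun i hi => h i (by omega))
    have hs := h s (by omega)
    have hw : win f 0 ((s + 1) * L) = win f 0 (s * L) ++ win f (s * L) L := by
      rw [Nat.succ_mul, win_append, zero_add]
    have hlast : ∀ E : List ℕ, Below E (win f 0 (s * L) ++ win f (s * L) L) →
        slice L s E = E.drop (s * L) := by
      intro E hE
      unfold slice
      apply List.take_of_length_le
      rw [List.length_drop, hE.length_eq]
      simp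
    have hA1 : Pr (win f 0 (s * L) ++ win f (s * L) L)
        {E | E.take (s * L) ∈ {E | ∃ i < s, slice L i E ∈ B i}} ≤ s * ε := by
      have := Pr_take (win f 0 (s * L)) (win f (s * L) L) (hpos _ _)
        {E | ∃ i < s, slice L i E ∈ B i}
      rw [win_length] at this
      rw [this]
      exact ih1
    have hA2 : Pr (win f 0 (s * L) ++ win f (s * L) L)
        {E | E.take (s * L) ∈ {E | ∃ i j, i < j ∧ j < s ∧ slice L i E ∈ B i ∧
          slice L j E ∈ B j}} ≤ (s : ℝ) ^ 2 / 2 * ε ^ 2 := by
      have := Pr_take (win f 0 (s * L)) (win f (s * L) L) (hpos _ _)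
        {E | ∃ i j, i < j ∧ j < s ∧ slice L i E ∈ B i ∧ slice L j E ∈ B j}
      rw [win_length] at this
      rw [this]
      exact ih2
    have hB : Pr (win f 0 (s * L) ++ win f (s * L) L) {E | E.drop (s * L) ∈ B s} ≤ ε := by
      have := Pr_drop (win f 0 (s * L)) (win f (s * L) L) (hpos _ _) (B s)
      rw [win_length] at this
      rw [this]
      exact hs
    have hAB : Pr (win f 0 (s * L) ++ win f (s * L) L)
        {E | E.take (s * L) ∈ {E | ∃ i < s, slice L i E ∈ B i} ∧ E.drop (s * L) ∈ B s} ≤
        s * ε * ε := by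
      have := Pr_append_and (win f 0 (s * L)) (win f (s * L) L)
        {E | ∃ i < s, slice L i E ∈ B i} (B s)
      rw [win_length] at this
      rw [this]
      exact mul_le_mul ih1 hs (Pr_nonneg _ _) (by positivity)
    rw [hw]
    constructor
    · refine le_trans (Pr_mono (B := {E | E.take (s * L) ∈ {E | ∃ i < s, slice L i E ∈ B i}} ∪
        {E | E.drop (s * L) ∈ B s}) ?_) ((Pr_union_le _ _ _).trans ?_)
      · rintro E hE ⟨i, hi, hiB⟩
        rcases Nat.lt_succ_iff_lt_or_eq.mp hi with hi' | rfl
        · left
          refine ⟨i, hi', ?_⟩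
          rw [slice_take hi']
          exact hiB
        · right
          rw [hlast E hE] at hiB
          exact hiB
      · push_cast
        linarith
    · refine le_trans (Pr_mono (B := {E | E.take (s * L) ∈ {E | ∃ i j, i < j ∧ j < s ∧
        slice L i E ∈ B i ∧ slice L j E ∈ B j}} ∪
        {E | E.take (s * L) ∈ {E | ∃ i < s, slice L i E ∈ B i} ∧ E.drop (s * L) ∈ B s}) ?_)
        ((Pr_union_le _ _ _).trans ?_)
      · rintro E hE ⟨i, j, hij, hj, hiB, hjB⟩
        rcases Nat.lt_succ_iff_lt_or_eq.mp hj with hj' | rfl
        · left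
          refine ⟨i, j, hij, hj', ?_, ?_⟩
          · rw [slice_take (by omega)]
            exact hiB
          · rw [slice_take hj']
            exact hjB
        · right
          refine ⟨⟨i, hij, ?_⟩, ?_⟩
          · rw [slice_take hij]
            exact hiB
          · rw [hlast E hE] at hjB
            exact hjB
      · push_cast
        nlinarith [sq_nonneg ε]

/-- the digit words below the code word of `m` that are also below another code word -/
def err (k : ℕ) (m : M k) : Set (List ℕ) := {E | ∃ m', m' ≠ m ∧ Below E (word k m')}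

lemma below_slice {f : ℕ → ℕ} {s L i : ℕ} (hi : i < s) {E : List ℕ}
    (h : Below E (win f 0 (s * L))) : Below (slice L i E) (win f (i * L) L) := by
  rw [below_win_iff] at h ⊢
  obtain ⟨h1, h2⟩ := h
  have h3 : (i + 1) * L ≤ s * L := Nat.mul_le_mul_right _ hi
  rw [Nat.succ_mul] at h3
  have h4 : (slice L i E).length = L := by
    unfold slice
    rw [List.length_take, List.length_drop, h1]
    omega
  refine ⟨h4, fun r hr => ?_⟩
  have h5 : (slice L i E)[r] = E[i * L + r]'(by rw [h1]; omega) := by
    simp [slice]
  rw [h5]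
  have := h2 (i * L + r) (by rw [h1]; omega)
  simpa using this

theorem err_le (k : ℕ) (m : M k) : Pr (word k m) (err k m) ≤ (1 / 4 : ℝ) ^ (k + 8) := by
  induction k with
  | zero =>
    -- at the position of the letter `lb` the digit is smaller than `la`
    have h2 : ∀ z : ZMod 2, z ≠ 0 → z = 1 := by decide
    by_cases hm : (m : ZMod 2) = 0
    · have hw : word 0 m = [la, lb] := by
        unfold word
        show [encf 0 m 0, encf 0 m 1] = _
        simp [encf, hm]
      have h := Pr_run_le (b := la) (c := lb) (la_lt_lb.le) (by norm_num [lb]) (word 0 m)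
        (by rw [hw]; intro v hv; simp at hv; rcases hv with rfl | rfl <;> norm_num [la, lb])
        (fun s => s = 1) (by
          intro s hs hs1
          subst hs1
          simp [hw])
      refine le_trans (Pr_mono ?_) (h.trans ?_)
      · rintro E hE ⟨m', hm', hE'⟩ s hs rfl
        have hm'' : (m' : ZMod 2) ≠ 0 := fun h0 => hm' (h0.trans hm.symm)
        have hw' : word 0 m' = [lb, la] := by
          unfold word
          show [encf 0 m' 0, encf 0 m' 1] = _
          simp [encf, hm'']
        rw [hw'] at hE'
        unfold Below at hE'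
        rw [List.forall₂_iff_get] at hE'
        have := hE'.2 1 hs (by simp)
        simpa using this
      · rw [word_length]
        have : ((range (LL 0)).filter (fun s => s = 1)).card = 1 := by
          simp [LL, Finset.filter_eq']
        rw [this]
        norm_num [la, lb]
    · have hw : word 0 m = [lb, la] := by
        unfold word
        show [encf 0 m 0, encf 0 m 1] = _
        simp [encf, hm]
      have h := Pr_run_le (b := la) (c := lb) (la_lt_lb.le) (by norm_num [lb]) (word 0 m)
        (by rw [hw]; intro v hv; simp at hv; rcases hv with rfl | rfl <;> norm_num [la, lb])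
        (fun s => s = 0) (by
          intro s hs hs1
          subst hs1
          simp [hw])
      refine le_trans (Pr_mono ?_) (h.trans ?_)
      · rintro E hE ⟨m', hm', hE'⟩ s hs rfl
        have hm'' : (m' : ZMod 2) = 0 := by
          by_contra h0
          exact hm' ((h2 _ h0).trans (h2 _ hm).symm)
        have hw' : word 0 m' = [la, lb] := by
          unfold word
          show [encf 0 m' 0, encf 0 m' 1] = _
          simp [encf, hm'']
        rw [hw'] at hE'
        unfold Below at hE'
        rw [List.forall₂_iff_get] at hE'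
        have := hE'.2 0 hs (by simp)
        simpa using this
      · rw [word_length]
        have : ((range (LL 0)).filter (fun s => s = 0)).card = 1 := by
          simp [LL, Finset.filter_eq']
        rw [this]
        norm_num [la, lb]
  | succ k ih =>
    set ε : ℝ := (1 / 4 : ℝ) ^ (k + 8) with hε
    have hε0 : 0 ≤ ε := by positivity
    set B : ℕ → Set (List ℕ) := fun t => if t = nn k then ∅ else err k (sub m t) with hB
    have h1 := (at_least (L := LL k) hε0 (encf (k + 1) m) B (nn k + 2) (letter_pos _ _) (by
      intro i hi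
      rw [win_block]
      by_cases h : i = nn k
      · simp only [hB, if_pos h]
        rw [Pr_empty]
        exact hε0
      · simp only [hB, if_neg h]
        exact ih _)).2
    have h2 : Pr (word (k + 1) m) (err (k + 1) m) ≤ Pr (win (encf (k + 1) m) 0 ((nn k + 2) * LL k))
        {E | ∃ i j, i < j ∧ j < nn k + 2 ∧ slice (LL k) i E ∈ B i ∧ slice (LL k) j E ∈ B j} := by
      apply Pr_mono
      rintro E hE ⟨m', hm', hE'⟩
      obtain ⟨i, j, hij, hj, hi0, hj0, h3, h4⟩ := two_blocks hm'
      have h5 : Below E (win (encf (k + 1) m') 0 ((nn k + 2) * LL k)) := hE'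
      refine ⟨i, j, hij, hj, ?_, ?_⟩
      · simp only [hB, if_neg hi0]
        refine ⟨sub m' i, h3, ?_⟩
        have := below_slice (by omega : i < nn k + 2) h5
        rwa [win_block, if_neg hi0] at this
      · simp only [hB, if_neg hj0]
        refine ⟨sub m' j, h4, ?_⟩
        have := below_slice hj h5
        rwa [win_block, if_neg hj0] at this
    refine h2.trans (h1.trans ?_)
    have h3 : ((nn k + 2 : ℕ) : ℝ) ≤ 2 ^ (k + 7) := by
      have : nn k + 2 ≤ 2 ^ (k + 7) := by
        unfold nn
        have : 4 ≤ 2 ^ (k + 6) := by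
          calc 4 = 2 ^ 2 := by norm_num
            _ ≤ 2 ^ (k + 6) := Nat.pow_le_pow_right (by norm_num) (by omega)
        have e : 2 ^ (k + 7) = 2 ^ (k + 6) * 2 := by rw [← pow_succ]
        omega
      exact_mod_cast this
    have h4 : ((nn k + 2 : ℕ) : ℝ) ^ 2 ≤ (2 ^ (k + 7)) ^ 2 :=
      pow_le_pow_left₀ (Nat.cast_nonneg _) h3 2
    calc ((nn k + 2 : ℕ) : ℝ) ^ 2 / 2 * ε ^ 2 ≤ (2 ^ (k + 7)) ^ 2 / 2 * ε ^ 2 := by
          apply mul_le_mul_of_nonneg_right _ (by positivity)
          linarith
      _ ≤ (1 / 4 : ℝ) ^ (k + 1 + 8) := by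
          rw [hε]
          have h5 : ((2 : ℝ) ^ (k + 7)) ^ 2 = 4 ^ (k + 7) := by
            rw [← pow_mul, mul_comm, pow_mul]
            norm_num
          have h6 : (1 / 4 : ℝ) ^ (k + 8) = 1 / (4 ^ (k + 7) * 4) := by
            rw [one_div_pow, pow_succ]
          have h7 : (1 / 4 : ℝ) ^ (k + 1 + 8) = 1 / (4 ^ (k + 7) * 16) := by
            rw [show k + 1 + 8 = (k + 7) + 2 by ring, one_div_pow, pow_add]
            norm_num
          rw [h5, h6, h7]
          have h8 : (0 : ℝ) < 4 ^ (k + 7) := by positivity
          have h9 : (4 : ℝ) ^ (k + 7) / 2 * (1 / (4 ^ (k + 7) * 4)) ^ 2 = 1 / (4 ^ (k + 7) * 32) := by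
            field_simp
            norm_num
          rw [h9]
          apply one_div_le_one_div_of_le (by positivity)
          linarith

end Pool.Agent.NH66.Cantor
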