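import Pool.Agent.NH66.Cantor.Tail

/-! Self-decoding basic sequences: normality implies distribution normality. -/

set_option autoImplicit false

open Finset Filter Topology

namespace Pool.Agent.NH66.Cantor

open Classical in
/-- The sequence `q` is self-decoding: apart from a set of positions of small upper density, a
random digit word below the window at the position `j` is, with large probability, only below
windows whose central part is the same as that of the window at `j`. -/
def SelfDecoding (q : ℕ → ℕ) : Prop :=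
  ∀ δ : ℝ, 0 < δ → ∀ ℓ : ℕ, ∃ L o : ℕ, o + ℓ ≤ L ∧ ∃ X : Set ℕ,
    (∀ᶠ n : ℕ in atTop, (((Icc 1 n).filter (· ∈ X)).card : ℝ) ≤ δ * n) ∧
    ∀ j, 1 ≤ j → j ∉ X → Pr (win q j L) {E | ∃ j', 1 ≤ j' ∧ j' ∉ X ∧ Below E (win q j' L) ∧
      win q (j' + o) ℓ ≠ win q (j + o) ℓ} ≤ δ

lemma win_pos {q : ℕ → ℕ} (hq : ∀ n, 1 ≤ n → 2 ≤ q n) {j : ℕ} (hj : 1 ≤ j) (L : ℕ) :
    ∀ v ∈ win q j L, 0 < v := by
  intro v hv
  obtain ⟨i, _, rfl⟩ := mem_win hv
  have := hq (j + i) (by omega)
  omega

lemma win_prod_ge {q : ℕ → ℕ} (hq : ∀ n, 1 ≤ n → 2 ≤ q n) {j : ℕ} (hj : 1 ≤ j) (L : ℕ) :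
    2 ^ L ≤ (win q j L).prod := by
  induction L generalizing j with
  | zero => simp
  | succ L ih =>
    rw [win_succ, List.prod_cons, pow_succ, mul_comm]
    exact Nat.mul_le_mul (hq j hj) (ih (by omega))

lemma Pr_mid {q : ℕ → ℕ} (hq : ∀ n, 1 ≤ n → 2 ≤ q n) {j : ℕ} (hj : 1 ≤ j) {o ℓ L : ℕ}
    (h : o + ℓ ≤ L) (B : Set (List ℕ)) :
    Pr (win q j L) {E | (E.drop o).take ℓ ∈ B} = Pr (win q (j + o) ℓ) B := by
  obtain ⟨r, rfl⟩ := Nat.exists_eq_add_of_le h
  have h1 : win q j (o + ℓ + r) = win q j o ++ win q (j + o) (ℓ + r) := by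
    rw [add_assoc, win_append]
  have h2 := Pr_drop (win q j o) (win q (j + o) (ℓ + r)) (win_pos hq hj o)
    {F | F.take ℓ ∈ B}
  rw [win_length] at h2
  rw [h1]
  have h3 := Pr_take (win q (j + o) ℓ) (win q (j + o + ℓ) r) (win_pos hq (by omega) r) B
  rw [win_length, ← win_append] at h3
  rw [← h3]
  exact h2

open Classical in
/-- the finite set of all words of length `L` with letters below `C` -/
noncomputable def words (C L : ℕ) : Finset (List ℕ) :=
  (Finset.univ : Finset (Fin L → Fin C)).image (fun f => List.ofFn (fun i => (f i : ℕ)))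

lemma mem_words {C L : ℕ} {E : List ℕ} (h : E.length = L) (hE : ∀ e ∈ E, e < C) :
    E ∈ words C L := by
  classical
  unfold words
  rw [Finset.mem_image]
  subst h
  refine ⟨fun i => ⟨E[i], hE _ (List.getElem_mem _)⟩, Finset.mem_univ _, ?_⟩
  apply List.ext_getElem (by simp)
  intro i h1 h2
  simp

lemma length_of_mem_words {C L : ℕ} {E : List ℕ} (h : E ∈ words C L) : E.length = L := by
  classical
  unfold words at h
  rw [Finset.mem_image] at h
  obtain ⟨f, _, rfl⟩ := h
  simp

lemma below_lt {E V : List ℕ} {C : ℕ} (h : Below E V) (hV : ∀ v ∈ V, v ≤ C) : ∀ e ∈ E, e < C := by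
  induction h with
  | nil => intro e he; simp at he
  | cons hab _ ih =>
    intro e he
    rw [List.mem_cons] at he
    rcases he with rfl | he
    · exact lt_of_lt_of_le hab (hV _ List.mem_cons_self)
    · exact ih (fun v hv => hV v (List.mem_cons_of_mem _ hv)) e he

lemma Qn_mono {q : ℕ → ℕ} (D : List ℕ) : Monotone (Qn q D) := by
  intro m n hmn
  rw [Qn_eq, Qn_eq]
  apply Finset.sum_le_sum_of_subset_of_nonneg
  · exact Finset.Icc_subset_Icc_right hmn
  · intro i _ _
    exact Pr_nonneg _ _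

lemma Qn_le {q : ℕ → ℕ} (hq : ∀ n, 1 ≤ n → 2 ≤ q n) (D : List ℕ) (n : ℕ) : Qn q D n ≤ n := by
  rw [Qn_eq]
  calc ∑ j ∈ Icc 1 n, Pr (win q j D.length) {D} ≤ ∑ j ∈ Icc 1 n, (1 : ℝ) := by
        apply Finset.sum_le_sum
        intro j hj
        exact Pr_le_one (win_pos hq (Finset.mem_Icc.mp hj).1 _) _
    _ = n := by simp

lemma Nn_ge {q : ℕ → ℕ} (hq : ∀ n, 1 ≤ n → 2 ≤ q n) {d : ℕ → ℕ}
    (hN : ∀ D : List ℕ, Tendsto (Qn q D) atTop atTop →
      Tendsto (fun n => (Nn d D n : ℝ) / Qn q D n) atTop (𝓝 1)) (D : List ℕ) {ε : ℝ}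
    (hε : 0 < ε) : ∀ᶠ n : ℕ in atTop, Qn q D n - ε * n ≤ Nn d D n := by
  by_cases h : Tendsto (Qn q D) atTop atTop
  · have h1 := hN D h
    have h2 : ∀ᶠ n in atTop, 1 - ε < (Nn d D n : ℝ) / Qn q D n :=
      h1.eventually (lt_mem_nhds (by linarith))
    filter_upwards [h2, h.eventually_gt_atTop 0] with n hn hn0
    rw [lt_div_iff₀ hn0] at hn
    have h3 := Qn_le hq D n
    nlinarith
  · have h1 : ∃ K, ∀ n, Qn q D n ≤ K := by
      by_contra hcon
      push Not at hcon
      apply h
      apply tendsto_atTop_atTop_of_monotone (Qn_mono D)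
      intro b
      obtain ⟨n, hn⟩ := hcon b
      exact ⟨n, hn.le⟩
    obtain ⟨K, hK⟩ := h1
    have h2 : Tendsto (fun n : ℕ => ε * (n : ℝ)) atTop atTop :=
      tendsto_natCast_atTop_atTop.const_mul_atTop hε
    filter_upwards [h2.eventually_ge_atTop K] with n hn
    have := hK n
    have h3 : (0 : ℝ) ≤ Nn d D n := Nat.cast_nonneg _
    linarith

theorem lower_bound {q : ℕ → ℕ} {C : ℕ} (hq : ∀ n, 1 ≤ n → 2 ≤ q n) (hC : ∀ n, q n ≤ C)
    (hdec : SelfDecoding q) {x : ℝ} {d : ℕ → ℕ} (h : IsExpansion q x d)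
    (hN : ∀ D : List ℕ, Tendsto (Qn q D) atTop atTop →
      Tendsto (fun n => (Nn d D n : ℝ) / Qn q D n) atTop (𝓝 1)) {α β : ℝ} (hα : 0 ≤ α)
    (hβ : β ≤ 1) [DecidablePred fun m : ℕ => tail q x d m ∈ Set.Ico α β] {ε : ℝ} (hε : 0 < ε) :
    ∀ᶠ n : ℕ in atTop, (β - α - ε) * n ≤
      (((Icc 1 n).filter (fun m => tail q x d m ∈ Set.Ico α β)).card : ℝ) := by
  classical
  obtain ⟨ℓ, hℓ⟩ : ∃ ℓ : ℕ, 2 / (2 : ℝ) ^ ℓ ≤ ε / 8 := by
    obtain ⟨ℓ, hℓ⟩ := exists_pow_lt_of_lt_one (show 0 < ε / 16 by positivity)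
      (show (1 / 2 : ℝ) < 1 by norm_num)
    refine ⟨ℓ, ?_⟩
    rw [one_div, inv_pow] at hℓ
    rw [div_eq_mul_inv]
    linarith
  obtain ⟨L, o, hoL, X, hX, hXp⟩ := hdec (ε / 8) (by positivity) ℓ
  set S : Set (List ℕ) := {E | ∀ j, 1 ≤ j → j ∉ X → Below E (win q j L) →
    CylIn α β (win q (j + o) ℓ) ((E.drop o).take ℓ)} with hS
  -- (i)
  have hi : ∀ j, 1 ≤ j → j ∉ X → β - α - ε / 4 ≤ Pr (win q j L) S := by
    intro j hj hjX
    have h1 := Pr_cyl_ge (win q (j + o) ℓ) (win_pos hq (by omega) ℓ) α β hα hβ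
    have h2 : (2 : ℝ) / (win q (j + o) ℓ).prod ≤ 2 / (2 : ℝ) ^ ℓ := by
      apply div_le_div_of_nonneg_left (by norm_num) (by positivity)
      exact_mod_cast win_prod_ge hq (show 1 ≤ j + o by omega) ℓ
    have h3 := Pr_mid hq hj hoL {F | CylIn α β (win q (j + o) ℓ) F}
    have h4 : Pr (win q j L) {E | (E.drop o).take ℓ ∈ {F | CylIn α β (win q (j + o) ℓ) F}} ≤
        Pr (win q j L) (S ∪ {E | ∃ j', 1 ≤ j' ∧ j' ∉ X ∧ Below E (win q j' L) ∧
          win q (j' + o) ℓ ≠ win q (j + o) ℓ}) := by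
      apply Pr_mono
      intro E hE hA
      by_cases hbad : ∃ j', 1 ≤ j' ∧ j' ∉ X ∧ Below E (win q j' L) ∧
          win q (j' + o) ℓ ≠ win q (j + o) ℓ
      · right; exact hbad
      · left
        intro j' hj' hj'X hb
        push Not at hbad
        rw [hbad j' hj' hj'X hb]
        exact hA
    have h5 := Pr_union_le (win q j L) S {E | ∃ j', 1 ≤ j' ∧ j' ∉ X ∧ Below E (win q j' L) ∧
          win q (j' + o) ℓ ≠ win q (j + o) ℓ}
    have h6 := hXp j hj hjX
    linarith
  -- (ii)
  set W := (words C L).filter (· ∈ S) with hW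
  have hQ : ∀ n : ℕ, ∑ j ∈ Icc 1 n, Pr (win q j L) S ≤ ∑ E ∈ W, Qn q E n := by
    intro n
    have h1 : ∑ E ∈ W, Qn q E n = ∑ j ∈ Icc 1 n, ∑ E ∈ W, Pr (win q j L) {E} := by
      rw [Finset.sum_comm]
      apply Finset.sum_congr rfl
      intro E hE
      rw [Qn_eq, length_of_mem_words (Finset.mem_filter.mp hE).1]
    rw [h1]
    apply Finset.sum_le_sum
    intro j _
    refine le_trans ?_ (Pr_exists_le (win q j L) W (fun E => {E}))
    apply Pr_mono
    intro E hE hES
    refine ⟨E, ?_, rfl⟩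
    rw [hW, Finset.mem_filter]
    refine ⟨mem_words (by rw [hE.length_eq, win_length]) ?_, hES⟩
    apply below_lt hE
    intro v hv
    obtain ⟨i, _, rfl⟩ := mem_win hv
    exact hC _
  have hN2 : ∀ n : ℕ, ∑ E ∈ W, Nn d E n ≤
      ((Icc 1 n).filter (fun i => win d (i + 1) L ∈ S)).card := by
    intro n
    have h1 : ∀ E ∈ W, Nn d E n = ((Icc 1 n).filter (fun i => win d (i + 1) L = E)).card := by
      intro E hE
      rw [Nn_eq, length_of_mem_words (Finset.mem_filter.mp hE).1]
    rw [Finset.sum_congr rfl h1, ← Finset.card_biUnion]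
    · apply Finset.card_le_card
      intro i hi
      rw [Finset.mem_biUnion] at hi
      obtain ⟨E, hE, hi⟩ := hi
      rw [Finset.mem_filter] at hi ⊢
      refine ⟨hi.1, ?_⟩
      rw [hi.2]
      exact (Finset.mem_filter.mp hE).2
    · intro E _ F _ hEF
      rw [Function.onFun, Finset.disjoint_left]
      intro i hi hi'
      rw [Finset.mem_filter] at hi hi'
      exact hEF (hi.2.symm.trans hi'.2)
  -- (iii)
  set ε' := ε / (8 * (W.card + 1)) with hε'
  have hε'0 : 0 < ε' := by positivity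
  have hev : ∀ᶠ n : ℕ in atTop, ∀ E ∈ W, Qn q E n - ε' * n ≤ Nn d E n := by
    rw [Filter.eventually_all_finset]
    intro E _
    exact Nn_ge hq hN E hε'0
  -- (iv)
  have hcount : ∀ n : ℕ, (((Icc 1 n).filter (fun i => win d (i + 1) L ∈ S)).card : ℝ) ≤
      (((Icc 1 n).filter (fun m => tail q x d m ∈ Set.Ico α β)).card : ℝ) + o +
        (((Icc 1 (n + 1)).filter (· ∈ X)).card : ℝ) := by
    intro n
    have h1 : ((Icc 1 n).filter (fun i => win d (i + 1) L ∈ S)).card ≤
        ((Icc 1 n).filter (fun i => tail q x d (i + o) ∈ Set.Ico α β)).card +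
        ((Icc 1 n).filter (fun i => i + 1 ∈ X)).card := by
      rw [← Finset.card_union_add_card_inter]
      refine le_trans ?_ (Nat.le_add_right _ _)
      apply Finset.card_le_card
      intro i hi
      rw [Finset.mem_filter] at hi
      rw [Finset.mem_union, Finset.mem_filter, Finset.mem_filter]
      by_cases hiX : i + 1 ∈ X
      · right; exact ⟨hi.1, hiX⟩
      · left
        refine ⟨hi.1, ?_⟩
        have h2 := hi.2 (i + 1) (by omega) hiX (by
          rw [below_win_iff]
          refine ⟨by simp, fun k hk => ?_⟩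
          rw [win_getElem]
          exact h.1 _ (by omega))
        obtain ⟨r, hr⟩ := Nat.exists_eq_add_of_le hoL
        have h3 : ((win d (i + 1) L).drop o).take ℓ = win d (i + 1 + o) ℓ := by
          rw [hr, add_assoc, win_drop, win_take _ _ _ _ (Nat.le_add_right _ _)]
        rw [h3, show i + 1 + o = (i + o) + 1 by ring] at h2
        exact tail_mem_of_cylIn hq h (i + o) ℓ h2
    have h2 : ((Icc 1 n).filter (fun i => i + 1 ∈ X)).card ≤
        ((Icc 1 (n + 1)).filter (· ∈ X)).card := by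
      apply Finset.card_le_card_of_injOn (fun i => i + 1)
      · intro i hi
        simp only [Finset.coe_filter, Finset.mem_Icc, Set.mem_ofPred_eq] at hi ⊢
        exact ⟨⟨by omega, by omega⟩, hi.2⟩
      · intro a _ b _ hab
        simpa using hab
    have h3 : ((Icc 1 n).filter (fun i => tail q x d (i + o) ∈ Set.Ico α β)).card ≤
        ((Icc 1 n).filter (fun m => tail q x d m ∈ Set.Ico α β)).card + o := by
      calc ((Icc 1 n).filter (fun i => tail q x d (i + o) ∈ Set.Ico α β)).card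
          ≤ ((Icc 1 n).filter (fun m => tail q x d m ∈ Set.Ico α β) ∪ Ioc n (n + o)).card := by
            apply Finset.card_le_card_of_injOn (fun i => i + o)
            · intro i hi
              simp only [Finset.coe_filter, Finset.mem_Icc, Set.mem_ofPred_eq, Finset.coe_union,
                Finset.coe_Ioc, Set.mem_union, Set.mem_Ioc] at hi ⊢
              by_cases hio : i + o ≤ n
              · left; exact ⟨⟨by omega, hio⟩, hi.2⟩
              · right; omega
            · intro a _ b _ hab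
              simpa using hab
        _ ≤ _ := by
            refine (Finset.card_union_le _ _).trans ?_
            rw [Nat.card_Ioc]
            omega
    have h4 : ((Icc 1 n).filter (fun i => win d (i + 1) L ∈ S)).card ≤
        ((Icc 1 n).filter (fun m => tail q x d m ∈ Set.Ico α β)).card + o +
        ((Icc 1 (n + 1)).filter (· ∈ X)).card := by omega
    exact_mod_cast h4
  -- (v)
  have hX1 : ∀ᶠ n : ℕ in atTop, (((Icc 1 (n + 1)).filter (· ∈ X)).card : ℝ) ≤
      ε / 8 * (n + 1) := by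
    have := (tendsto_add_atTop_nat 1).eventually hX
    filter_upwards [this] with n hn
    push_cast at hn
    exact hn
  have hlarge : ∀ᶠ n : ℕ in atTop, (o : ℝ) + 1 ≤ ε / 8 * n := by
    have h2 : Tendsto (fun n : ℕ => ε / 8 * (n : ℝ)) atTop atTop :=
      tendsto_natCast_atTop_atTop.const_mul_atTop (by positivity)
    exact h2.eventually_ge_atTop _
  filter_upwards [hX, hX1, hlarge, hev] with n hn1 hn2 hn3 hn4
  by_cases hpos : β - α - ε / 4 ≤ 0
  · have : (β - α - ε) * n ≤ 0 := by
      apply mul_nonpos_of_nonpos_of_nonneg _ (Nat.cast_nonneg n)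
      linarith
    exact this.trans (Nat.cast_nonneg _)
  push Not at hpos
  have hle1 : β - α - ε / 4 ≤ 1 := by linarith
  have h1 : (β - α - ε / 4) * (n - ε / 8 * n) ≤ ∑ j ∈ Icc 1 n, Pr (win q j L) S := by
    have h2 : ∑ j ∈ (Icc 1 n).filter (fun j => ¬ j ∈ X), (β - α - ε / 4) ≤
        ∑ j ∈ Icc 1 n, Pr (win q j L) S := by
      refine le_trans (Finset.sum_le_sum (g := fun j => Pr (win q j L) S) ?_) ?_
      · intro j hj
        rw [Finset.mem_filter] at hj
        exact hi j (Finset.mem_Icc.mp hj.1).1 hj.2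
      · apply Finset.sum_le_sum_of_subset_of_nonneg (Finset.filter_subset _ _)
        intro i _ _
        exact Pr_nonneg _ _
    refine le_trans ?_ h2
    rw [Finset.sum_const, nsmul_eq_mul, mul_comm]
    apply mul_le_mul_of_nonneg_right _ hpos.le
    have h3 : (((Icc 1 n).filter (· ∈ X)).card : ℝ) + ((Icc 1 n).filter (fun j => ¬ j ∈ X)).card =
        n := by
      have := Finset.card_filter_add_card_filter_not (s := Icc 1 n) (fun j => j ∈ X)
      rw [Nat.card_Icc] at this
      have h4 : n + 1 - 1 = n := by omega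
      rw [h4] at this
      exact_mod_cast this
    linarith
  have h2 := hQ n
  have h3 : ∑ E ∈ W, Qn q E n - W.card * (ε' * n) ≤ ((∑ E ∈ W, Nn d E n : ℕ) : ℝ) := by
    push_cast
    rw [sub_le_iff_le_add]
    calc ∑ E ∈ W, Qn q E n ≤ ∑ E ∈ W, ((Nn d E n : ℝ) + ε' * n) := by
          apply Finset.sum_le_sum
          intro E hE
          have := hn4 E hE
          linarith
      _ = _ := by
          rw [Finset.sum_add_distrib, Finset.sum_const, nsmul_eq_mul]
  have h4 : ((∑ E ∈ W, Nn d E n : ℕ) : ℝ) ≤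
      (((Icc 1 n).filter (fun i => win d (i + 1) L ∈ S)).card : ℝ) := by
    exact_mod_cast hN2 n
  have h5 := hcount n
  have h6 : (W.card : ℝ) * (ε' * n) ≤ ε / 8 * n := by
    rw [← mul_assoc]
    apply mul_le_mul_of_nonneg_right _ (Nat.cast_nonneg n)
    rw [hε', mul_div_assoc', div_le_div_iff₀ (by positivity) (by norm_num)]
    nlinarith [Nat.cast_nonneg (α := ℝ) W.card]
  have hn0 : (0 : ℝ) ≤ n := Nat.cast_nonneg n
  nlinarith

theorem transfer {q : ℕ → ℕ} {C : ℕ} (hq : ∀ n, 1 ≤ n → 2 ≤ q n) (hC : ∀ n, q n ≤ C)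
    (hdec : SelfDecoding q) : NormalSet q ⊆ DistNormalSet q := by
  classical
  rintro x ⟨hx, d, hd, hN⟩
  refine ⟨hx, fun α β hα hαβ hβ => ?_⟩
  have hfr : ∀ m, Int.fract ((qprod q m : ℝ) * x) = tail q x d m := fun m => fract_eq hq hd m
  have hset : ∀ (α β : ℝ) (n : ℕ), ((Icc 1 n).filter
      (fun m => Int.fract ((qprod q m : ℝ) * x) ∈ Set.Ico α β)) =
      ((Icc 1 n).filter (fun m => tail q x d m ∈ Set.Ico α β)) := by
    intro α β n
    apply Finset.filter_congr
    intro m _
    rw [hfr m]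
  have hgoal : Tendsto (fun n : ℕ => (((Icc 1 n).filter
      (fun m => tail q x d m ∈ Set.Ico α β)).card : ℝ) / n) atTop (𝓝 (β - α)) := by
    rw [Metric.tendsto_atTop']
    intro ε hε
    have h1 := lower_bound hq hC hdec hd hN (α := α) (β := β) hα hβ (half_pos hε)
    have h2 := lower_bound hq hC hdec hd hN (α := 0) (β := α) le_rfl (by linarith)
      (show 0 < ε / 4 by positivity)
    have h3 := lower_bound hq hC hdec hd hN (α := β) (β := 1) (by linarith) le_rfl
      (show 0 < ε / 4 by positivity)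
    have h4 := (h1.and (h2.and (h3.and (eventually_gt_atTop 0)))).exists_forall_of_atTop
    obtain ⟨N, hN'⟩ := h4
    refine ⟨N, fun n hn => ?_⟩
    obtain ⟨g1, g2, g3, g4⟩ := hN' n hn.le
    have hn0 : (0 : ℝ) < n := by exact_mod_cast g4
    have hsum : ((Icc 1 n).filter (fun m => tail q x d m ∈ Set.Ico 0 α)).card +
        ((Icc 1 n).filter (fun m => tail q x d m ∈ Set.Ico α β)).card +
        ((Icc 1 n).filter (fun m => tail q x d m ∈ Set.Ico β 1)).card ≤ n := by
      rw [← Finset.card_union_of_disjoint, ← Finset.card_union_of_disjoint]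
      · calc _ ≤ (Icc 1 n).card := by
              apply Finset.card_le_card
              intro i hi
              simp only [Finset.mem_union, Finset.mem_filter] at hi
              rcases hi with (hi | hi) | hi <;> exact hi.1
          _ = n := by simp
      · rw [Finset.disjoint_left]
        intro i hi hi'
        simp only [Finset.mem_union, Finset.mem_filter, Set.mem_Ico] at hi hi'
        rcases hi with hi | hi
        · linarith [hi.2.2, hi'.2.1]
        · linarith [hi.2.2, hi'.2.1]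
      · rw [Finset.disjoint_left]
        intro i hi hi'
        simp only [Finset.mem_filter, Set.mem_Ico] at hi hi'
        linarith [hi.2.2, hi'.2.1]
    have hsum' : (((Icc 1 n).filter (fun m => tail q x d m ∈ Set.Ico 0 α)).card : ℝ) +
        ((Icc 1 n).filter (fun m => tail q x d m ∈ Set.Ico α β)).card +
        ((Icc 1 n).filter (fun m => tail q x d m ∈ Set.Ico β 1)).card ≤ n := by
      exact_mod_cast hsum
    rw [Real.dist_eq, abs_lt]
    constructor
    · rw [lt_sub_iff_add_lt, lt_div_iff₀ hn0]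
      nlinarith
    · rw [sub_lt_iff_lt_add, div_lt_iff₀ hn0]
      nlinarith
  refine Tendsto.congr ?_ hgoal
  intro n
  congr 2
  rw [← hset α β n]

end Pool.Agent.NH66.Cantor
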