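import Pool.Agent.NH66.Cantor.Seq
import Pool.Agent.NH66.Cantor.Transfer

/-! The sequence is self-decoding. -/

set_option autoImplicit false

open Finset Filter Topology

namespace Pool.Agent.NH66.Cantor

/-- the pattern of the separators in the blocks of level `k + 1`, extended periodically -/
def Pat (k n : ℕ) : Prop := encf (k + 1) 0 (n % LL (k + 1)) = lc

lemma div_mod_LL (k n : ℕ) : (n % LL (k + 1)) / LL k = (n / LL k) % (nn k + 2) := by
  rw [LL_succ, mul_comm, Nat.mod_mul_right_div_self]

lemma mod_mod_LL (k n : ℕ) : (n % LL (k + 1)) % LL k = n % LL k := by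
  rw [LL_succ, Nat.mod_mod_of_dvd]
  exact Dvd.intro_left _ rfl

lemma pat_sep {k n : ℕ} (h : (n / LL k) % (nn k + 2) = nn k) : Pat k n := by
  unfold Pat
  rw [encf_succ, div_mod_LL, if_pos h]

lemma pat_first {k n : ℕ} (h0 : n % LL k = 0) (h : (n / LL k) % (nn k + 2) ≠ nn k) : ¬ Pat k n := by
  unfold Pat
  rw [encf_succ, div_mod_LL, if_neg h, mod_mod_LL, h0]
  exact encf_first _ _

lemma pat_last {k n : ℕ} (h0 : n % LL k = LL k - 1) (h : (n / LL k) % (nn k + 2) ≠ nn k) :
    ¬ Pat k n := by
  unfold Pat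
  rw [encf_succ, div_mod_LL, if_neg h, mod_mod_LL, h0]
  exact encf_last _ _

lemma exists_phase {k r r' : ℕ} (hr : r < LL (k + 1)) (hr' : r' < LL (k + 1)) (hne : r ≠ r') :
    ∃ t < LL (k + 1), Pat k (r + t) ∧ ¬ Pat k (r' + t) := by
  set L := LL (k + 1) with hL
  set l := LL k with hl
  have hlpos : 0 < l := LL_pos k
  have hLl : L = (nn k + 2) * l := LL_succ k
  set T := nn k * l + L - r with hT
  have hrT : r + T = (nn k + (nn k + 2)) * l := by
    have : r ≤ nn k * l + L := by omega
    rw [hT, Nat.add_sub_cancel' this, hLl]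
    ring
  have hper : ∀ a t, Pat k (a + t % L) ↔ Pat k (a + t) := by
    intro a t
    unfold Pat
    rw [← hL, Nat.add_mod_mod]
  have hP : ∀ i < l, Pat k (r + (T + i)) := by
    intro i hi
    apply pat_sep
    rw [← add_assoc, hrT, ← hl, mul_comm, Nat.mul_add_div hlpos, Nat.div_eq_of_lt hi, add_zero,
      Nat.add_mod_right, Nat.mod_eq_of_lt (by omega)]
  obtain ⟨i, hi, hni⟩ : ∃ i < l, ¬ Pat k (r' + (T + i)) := by
    set y := r' + T with hy
    have hyne : ¬ ((y / l) % (nn k + 2) = nn k ∧ y % l = 0) := by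
      rintro ⟨h1, h2⟩
      -- then `y ≡ nn k * l` modulo `L`
      have h3 : y % L = nn k * l := by
        have h4 : (y % L) / l = nn k := by rw [hL, hl, div_mod_LL, ← hl]; exact h1
        have h5 : (y % L) % l = 0 := by rw [hL, hl, mod_mod_LL, ← hl]; exact h2
        have := Nat.div_add_mod (y % L) l
        rw [h4, h5, add_zero, mul_comm] at this
        exact this.symm
      have h6 : (r + T) % L = nn k * l := by
        rw [hrT, hLl, Nat.add_mul]
        rw [Nat.add_mod_right]
        apply Nat.mod_eq_of_lt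
        exact (Nat.mul_lt_mul_right hlpos).mpr (by omega)
      apply hne
      have h7 : (r + T) ≡ (r' + T) [MOD L] := by
        show (r + T) % L = (r' + T) % L
        rw [h6, ← hy, h3]
      have h8 : r ≡ r' [MOD L] := Nat.ModEq.add_right_cancel' T h7
      have h9 : r % L = r' % L := h8
      rwa [Nat.mod_eq_of_lt hr, Nat.mod_eq_of_lt hr'] at h9
    by_cases hy0 : y % l = 0
    · refine ⟨0, hlpos, ?_⟩
      rw [add_zero]
      exact pat_first hy0 (fun h => hyne ⟨h, hy0⟩)
    · have hdm := Nat.div_add_mod y l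
      set z := (y / l + 1) * l with hz
      have hzy : y < z := by
        rw [hz, Nat.succ_mul, mul_comm]
        have := Nat.mod_lt y hlpos
        omega
      have hzl : z < y + l := by
        rw [hz, Nat.succ_mul, mul_comm]
        omega
      have hzdiv : z / l = y / l + 1 := by rw [hz, Nat.mul_div_cancel _ hlpos]
      have hzmod : z % l = 0 := by rw [hz, Nat.mul_mod_left]
      by_cases hzn : (z / l) % (nn k + 2) = nn k
      · refine ⟨z - 1 - y, by omega, ?_⟩
        have h1 : r' + (T + (z - 1 - y)) = z - 1 := by omega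
        rw [h1]
        have h2 : z - 1 = l * (y / l) + (l - 1) := by
          rw [hz, Nat.succ_mul, mul_comm]
          omega
        have h3 : (z - 1) / l = y / l := by
          rw [h2, Nat.mul_add_div hlpos, Nat.div_eq_of_lt (show l - 1 < l by omega), add_zero]
        have h4 : (z - 1) % l = l - 1 := by
          rw [h2, Nat.mul_add_mod, Nat.mod_eq_of_lt (show l - 1 < l by omega)]
        apply pat_last h4
        rw [← hl, h3]
        intro h5
        rw [hzdiv, Nat.add_mod, h5] at hzn
        have h6 : 1 % (nn k + 2) = 1 := Nat.mod_eq_of_lt (by have := nn_pos k; omega)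
        rw [h6, Nat.mod_eq_of_lt (by omega)] at hzn
        omega
      · refine ⟨z - y, by omega, ?_⟩
        have h1 : r' + (T + (z - y)) = z := by omega
        rw [h1]
        exact pat_first hzmod hzn
  refine ⟨(T + i) % L, Nat.mod_lt _ (LL_pos _), ?_, ?_⟩
  · rw [hper]
    exact hP i hi
  · rw [hper]
    exact hni

/-- the exceptional positions: the window meets a separator cell -/
def Exc (v : ∀ k, M k) (k H : ℕ) : Set ℕ :=
  {j | ∃ h ≤ H, QQ v ((j / LL k + h) * LL k) = lc}

lemma code_of_not_exc {v : ∀ k, M k} {k H j : ℕ} (hj : j ∉ Exc v k H) {h : ℕ} (hh : h ≤ H) :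
    ∃ m : M k, ∀ r < LL k, QQ v ((j / LL k + h) * LL k + r) = encf k m r := by
  rcases cellAt_QQ v k (j / LL k + h) with h1 | h1
  · exfalso
    apply hj
    refine ⟨h, hh, ?_⟩
    have := h1 0 (LL_pos k)
    rwa [add_zero] at this
  · exact h1

lemma card_mod_ge (L H t : ℕ) (ht : t < L) :
    H ≤ ((range (H * L)).filter (fun s => s % L = t)).card := by
  calc H = (range H).card := (Finset.card_range H).symm
    _ ≤ _ := by
      apply Finset.card_le_card_of_injOn (fun h => h * L + t)
      · intro h hh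
        simp only [Finset.coe_range, Set.mem_Iio] at hh
        simp only [Finset.coe_filter, Finset.mem_range, Set.mem_ofPred_eq]
        constructor
        · calc h * L + t < (h + 1) * L := by rw [Nat.succ_mul]; omega
            _ ≤ H * L := Nat.mul_le_mul_right _ hh
        · rw [mul_comm, Nat.mul_add_mod, Nat.mod_eq_of_lt ht]
      · intro a _ b _ hab
        have h1 : a * L + t = b * L + t := hab
        have h2 : a * L = b * L := by omega
        exact Nat.eq_of_mul_eq_mul_right (by omega) h2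

lemma QQ_pat {v : ∀ k, M k} {k H j : ℕ} (hj : j ∉ Exc v (k + 1) H) {s : ℕ}
    (hs : s < H * LL (k + 1)) : QQ v (j + s) = lc ↔ Pat k (j % LL (k + 1) + s) := by
  set L := LL (k + 1) with hL
  have hLpos : 0 < L := LL_pos _
  set h := (j % L + s) / L with hh
  have hhH : h ≤ H := by
    rw [hh]
    have h1 : j % L + s < L * (H + 1) := by
      have := Nat.mod_lt j hLpos
      rw [mul_add, mul_one, mul_comm L H]
      omega
    have h2 := Nat.div_lt_of_lt_mul h1
    omega
  obtain ⟨m, hm⟩ := code_of_not_exc hj hhH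
  have h1 : j + s = (j / L + h) * L + (j % L + s) % L := by
    have h2 := Nat.div_add_mod j L
    have h3 := Nat.div_add_mod (j % L + s) L
    rw [← hh] at h3
    calc j + s = L * (j / L) + (j % L + s) := by omega
      _ = L * (j / L) + (L * h + (j % L + s) % L) := by rw [h3]
      _ = _ := by ring
  rw [h1, hm _ (Nat.mod_lt _ hLpos)]
  unfold Pat
  rw [← hL]
  exact encf_pat _ _ _ _

theorem decode (v : ∀ k, M k) (k H ℓ : ℕ) (hH : 3 ≤ H) (hℓ : ℓ ≤ LL (k + 1)) (j : ℕ)
    (hj1 : 1 ≤ j) (hj : j ∉ Exc v (k + 1) H) :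
    Pr (win (QQ v) j (H * LL (k + 1))) {E | ∃ j', 1 ≤ j' ∧ j' ∉ Exc v (k + 1) H ∧
      Below E (win (QQ v) j' (H * LL (k + 1))) ∧
      win (QQ v) (j' + LL (k + 1)) ℓ ≠ win (QQ v) (j + LL (k + 1)) ℓ} ≤
    LL (k + 1) * (1 / 2) ^ H + 2 * (1 / 4) ^ (k + 9) := by
  classical
  set L := LL (k + 1) with hL
  have hLpos : 0 < L := LL_pos _
  set q := QQ v with hq
  have hq2 : ∀ n, 1 ≤ n → 2 ≤ q n := fun n _ => QQ_two_le v n
  set X := Exc v (k + 1) H with hX
  set r := j % L with hr
  have hrL : r < L := Nat.mod_lt _ hLpos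
  -- wrong phase
  have hphase : ∀ r' < L, r' ≠ r → Pr (win q j (H * L)) {E | ∃ j', j' ∉ X ∧ j' % L = r' ∧
      Below E (win q j' (H * L))} ≤ (1 / 2 : ℝ) ^ H := by
    intro r' hr' hne
    obtain ⟨t, htL, ht1, ht2⟩ := exists_phase (k := k) hrL hr' hne.symm
    have hrun := Pr_run_le (b := lb) (c := lc) lb_lt_lc.le (by norm_num [lc]) (win q j (H * L))
      (win_pos hq2 hj1 _) (fun s => s % L = t) (by
        intro s hs hst
        rw [win_length] at hs
        rw [win_getElem]
        rw [hq, QQ_pat hj (by rw [← hL]; exact hs), ← hL, ← hr]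
        unfold Pat at ht1 ⊢
        rw [← hL] at ht1 ⊢
        rw [← hst, Nat.add_mod_mod] at ht1
        exact ht1)
    refine le_trans (Pr_mono ?_) (hrun.trans ?_)
    · rintro E hE ⟨j', hj'X, hj'r, hE'⟩ s hs hst
      rw [below_win_iff] at hE'
      have h1 := hE'.2 s hs
      have hsH : s < H * L := by rw [← hE'.1]; exact hs
      have h2 : q (j' + s) ≠ lc := by
        rw [hq, ne_eq, QQ_pat hj'X (by rw [← hL]; exact hsH), ← hL, hj'r]
        unfold Pat at ht2 ⊢
        rw [← hL] at ht2 ⊢
        rw [← hst, Nat.add_mod_mod] at ht2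
        exact ht2
      have h3 := la_lt_lb
      rcases QQ_letters v (j' + s) with h | h | h
      · rw [hq, h] at h1; omega
      · rw [hq, h] at h1; exact h1
      · exact absurd h h2
    · rw [win_length]
      have h1 : ((lb : ℝ) / lc) = 1 / 2 := by norm_num [lb, lc]
      rw [h1]
      exact pow_le_pow_of_le_one (by norm_num) (by norm_num) (card_mod_ge L H t htL)
  -- right phase
  obtain ⟨m1, hm1⟩ := code_of_not_exc hj (show 1 ≤ H by omega)
  obtain ⟨m2, hm2⟩ := code_of_not_exc hj (show 2 ≤ H by omega)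
  rw [← hq, ← hL] at hm1 hm2
  set o1 := L - r with ho1
  have hjo1 : j + o1 = (j / L + 1) * L := by
    have := Nat.div_add_mod j L
    rw [Nat.succ_mul, mul_comm (j / L)]
    omega
  have hjo2 : j + (o1 + L) = (j / L + 2) * L := by
    have h2 : (j / L + 2) * L = (j / L + 1) * L + L := by ring
    omega
  have hword : ∀ (a t : ℕ) (m : M (k + 1)), (∀ r < L, q (t * L + r) = encf (k + 1) m r) →
      a = t * L → win q a L = word (k + 1) m := by
    intro a t m hm ha
    unfold word
    rw [← hL, win_eq_iff]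
    intro i hi
    rw [ha, hm i hi, zero_add]
  have hw1 : win q (j + o1) L = word (k + 1) m1 := hword _ _ m1 hm1 hjo1
  have hw2 : win q (j + (o1 + L)) L = word (k + 1) m2 := hword _ _ m2 hm2 hjo2
  have hHL : 3 * L ≤ H * L := Nat.mul_le_mul_right _ hH
  have hright : Pr (win q j (H * L)) {E | ∃ j', j' ∉ X ∧ j' % L = r ∧
      Below E (win q j' (H * L)) ∧ win q (j' + L) ℓ ≠ win q (j + L) ℓ} ≤
      2 * (1 / 4 : ℝ) ^ (k + 9) := by
    have hA := Pr_mid hq2 hj1 (o := o1) (ℓ := L) (L := H * L) (by omega) (err (k + 1) m1)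
    have hB := Pr_mid hq2 hj1 (o := o1 + L) (ℓ := L) (L := H * L) (by omega) (err (k + 1) m2)
    rw [hw1] at hA
    rw [hw2] at hB
    have hA' := err_le (k + 1) m1
    have hB' := err_le (k + 1) m2
    rw [← hA] at hA'
    rw [← hB] at hB'
    have hU := Pr_union_le (win q j (H * L)) {E | (E.drop o1).take L ∈ err (k + 1) m1}
      {E | (E.drop (o1 + L)).take L ∈ err (k + 1) m2}
    refine le_trans (Pr_mono ?_) (hU.trans ?_)
    · rintro E hE ⟨j', hj'X, hj'r, hE', hne⟩
      obtain ⟨m1', hm1'⟩ := code_of_not_exc hj'X (show 1 ≤ H by omega)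
      obtain ⟨m2', hm2'⟩ := code_of_not_exc hj'X (show 2 ≤ H by omega)
      rw [← hq, ← hL] at hm1' hm2'
      have hjo1' : j' + o1 = (j' / L + 1) * L := by
        have := Nat.div_add_mod j' L
        rw [Nat.succ_mul, mul_comm (j' / L)]
        omega
      have hjo2' : j' + (o1 + L) = (j' / L + 2) * L := by
        have h2 : (j' / L + 2) * L = (j' / L + 1) * L + L := by ring
        omega
      have hw1' : win q (j' + o1) L = word (k + 1) m1' := hword _ _ m1' hm1' hjo1'
      have hw2' : win q (j' + (o1 + L)) L = word (k + 1) m2' := hword _ _ m2' hm2' hjo2'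
      have hslice : ∀ o, o + L ≤ H * L → Below ((E.drop o).take L) (win q (j' + o) L) := by
        intro o ho
        rw [below_win_iff] at hE' ⊢
        have hlen : ((E.drop o).take L).length = L := by
          rw [List.length_take, List.length_drop, hE'.1]
          omega
        refine ⟨hlen, fun i hi => ?_⟩
        have h5 : ((E.drop o).take L)[i] = E[o + i]'(by rw [hE'.1]; omega) := by
          simp
        rw [h5, add_assoc]
        exact hE'.2 (o + i) (by rw [hE'.1]; omega)
      by_cases hc1 : m1' = m1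
      · by_cases hc2 : m2' = m2
        · exfalso
          apply hne
          rw [win_eq_iff]
          intro i hi
          subst hc1
          subst hc2
          by_cases hir : r + i < L
          · have e1 : j + L + i = (j / L + 1) * L + (r + i) := by
              have := Nat.div_add_mod j L
              rw [Nat.succ_mul, mul_comm (j / L)]
              omega
            have e2 : j' + L + i = (j' / L + 1) * L + (r + i) := by
              have := Nat.div_add_mod j' L
              rw [Nat.succ_mul, mul_comm (j' / L)]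
              omega
            rw [e1, e2, hm1 _ hir, hm1' _ hir]
          · have h7 : r + i - L < L := by omega
            have e1 : j + L + i = (j / L + 2) * L + (r + i - L) := by
              have := Nat.div_add_mod j L
              have h2 : (j / L + 2) * L = L * (j / L) + L + L := by ring
              omega
            have e2 : j' + L + i = (j' / L + 2) * L + (r + i - L) := by
              have := Nat.div_add_mod j' L
              have h2 : (j' / L + 2) * L = L * (j' / L) + L + L := by ring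
              omega
            rw [e1, e2, hm2 _ h7, hm2' _ h7]
        · right
          refine ⟨m2', hc2, ?_⟩
          have := hslice (o1 + L) (by omega)
          rwa [hw2'] at this
      · left
        refine ⟨m1', hc1, ?_⟩
        have := hslice o1 (by omega)
        rwa [hw1'] at this
    · have e : (1 / 4 : ℝ) ^ (k + 1 + 8) = (1 / 4 : ℝ) ^ (k + 9) := by
        rw [show k + 1 + 8 = k + 9 by ring]
      rw [e] at hA' hB'
      linarith
  -- combination
  have hU1 := Pr_exists_le (win q j (H * L)) ((range L).erase r) (fun r' =>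
    {E | ∃ j', j' ∉ X ∧ j' % L = r' ∧ Below E (win q j' (H * L))})
  have hU2 := Pr_union_le (win q j (H * L)) {E | ∃ r' ∈ (range L).erase r,
    E ∈ {E | ∃ j', j' ∉ X ∧ j' % L = r' ∧ Below E (win q j' (H * L))}}
    {E | ∃ j', j' ∉ X ∧ j' % L = r ∧
      Below E (win q j' (H * L)) ∧ win q (j' + L) ℓ ≠ win q (j + L) ℓ}
  have hU3 : ∑ r' ∈ (range L).erase r, Pr (win q j (H * L))
      {E | ∃ j', j' ∉ X ∧ j' % L = r' ∧ Below E (win q j' (H * L))} ≤ L * (1 / 2 : ℝ) ^ H := by
    calc _ ≤ ∑ r' ∈ (range L).erase r, (1 / 2 : ℝ) ^ H := by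
          apply Finset.sum_le_sum
          intro r' hr'
          rw [Finset.mem_erase, Finset.mem_range] at hr'
          exact hphase r' hr'.2 hr'.1
      _ ≤ L * (1 / 2 : ℝ) ^ H := by
          rw [Finset.sum_const, nsmul_eq_mul]
          apply mul_le_mul_of_nonneg_right _ (by positivity)
          have := Finset.card_erase_le (s := range L) (a := r)
          rw [Finset.card_range] at this
          exact_mod_cast this
  refine le_trans (Pr_mono ?_) (hU2.trans (add_le_add (hU1.trans hU3) hright))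
  rintro E hE ⟨j', hj'1, hj'X, hE', hne⟩
  by_cases hph : j' % L = r
  · right
    exact ⟨j', hj'X, hph, hE', hne⟩
  · left
    refine ⟨j' % L, ?_, j', hj'X, rfl, hE'⟩
    rw [Finset.mem_erase, Finset.mem_range]
    exact ⟨hph, Nat.mod_lt _ hLpos⟩

lemma exc_card (v : ∀ k, M k) (k H n : ℕ) [DecidablePred (· ∈ Exc v k H)] :
    (((Icc 1 n).filter (· ∈ Exc v k H)).card : ℝ) ≤
      (H + 1) * (1 / 2 ^ (k + 5)) * (n + (H + 1) * LL k) := by
  classical
  have hLpos : 0 < LL k := LL_pos k
  have h1 : ((Icc 1 n).filter (· ∈ Exc v k H)).card ≤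
      ∑ h ∈ range (H + 1), ((Icc 1 n).filter
        (fun j => QQ v ((j / LL k + h) * LL k) = lc)).card := by
    refine le_trans (Finset.card_le_card ?_) Finset.card_biUnion_le
    intro j hj
    rw [Finset.mem_filter] at hj
    obtain ⟨hj1, h, hh, hjh⟩ := hj
    rw [Finset.mem_biUnion]
    exact ⟨h, Finset.mem_range.mpr (by omega), Finset.mem_filter.mpr ⟨hj1, hjh⟩⟩
  have h2 : ∀ h ∈ range (H + 1), ((Icc 1 n).filter
        (fun j => QQ v ((j / LL k + h) * LL k) = lc)).card ≤
        LL k * sepc k (QQ v) (n / LL k + H + 1) := by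
    intro h hh
    rw [Finset.mem_range] at hh
    have h3 : ((Icc 1 n).filter (fun j => QQ v ((j / LL k + h) * LL k) = lc)) ⊆
        ((range (n / LL k + H + 1)).filter (fun t => QQ v (t * LL k) = lc)).biUnion
          (fun t => (range (LL k)).image (fun r => (t - h) * LL k + r)) := by
      intro j hj
      rw [Finset.mem_filter, Finset.mem_Icc] at hj
      rw [Finset.mem_biUnion]
      refine ⟨j / LL k + h, ?_, ?_⟩
      · rw [Finset.mem_filter, Finset.mem_range]
        refine ⟨?_, hj.2⟩
        have := Nat.div_le_div_right (c := LL k) hj.1.2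
        omega
      · rw [Finset.mem_image]
        refine ⟨j % LL k, Finset.mem_range.mpr (Nat.mod_lt _ hLpos), ?_⟩
        rw [Nat.add_sub_cancel, mul_comm]
        exact Nat.div_add_mod j (LL k)
    refine (Finset.card_le_card h3).trans (Finset.card_biUnion_le.trans ?_)
    calc ∑ t ∈ (range (n / LL k + H + 1)).filter (fun t => QQ v (t * LL k) = lc),
        ((range (LL k)).image (fun r => (t - h) * LL k + r)).card
        ≤ ∑ t ∈ (range (n / LL k + H + 1)).filter (fun t => QQ v (t * LL k) = lc), LL k := by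
          apply Finset.sum_le_sum
          intro t _
          exact Finset.card_image_le.trans (by rw [Finset.card_range])
      _ = LL k * sepc k (QQ v) (n / LL k + H + 1) := by
          rw [Finset.sum_const, smul_eq_mul, mul_comm]
          rfl
  have h3 : ((Icc 1 n).filter (· ∈ Exc v k H)).card ≤
      (H + 1) * (LL k * sepc k (QQ v) (n / LL k + H + 1)) := by
    refine h1.trans ((Finset.sum_le_sum h2).trans ?_)
    rw [Finset.sum_const, Finset.card_range, smul_eq_mul]
  have h4 := sepc_QQ v k (n / LL k + H + 1)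
  have h5 : ((n / LL k : ℕ) : ℝ) * LL k ≤ n := by
    exact_mod_cast Nat.div_mul_le_self n (LL k)
  have hLr : (0 : ℝ) < LL k := by exact_mod_cast hLpos
  calc (((Icc 1 n).filter (· ∈ Exc v k H)).card : ℝ)
      ≤ (H + 1) * (LL k * (sepc k (QQ v) (n / LL k + H + 1) : ℝ)) := by exact_mod_cast h3
    _ ≤ (H + 1) * (LL k * (1 / 2 ^ (k + 5) * ((n / LL k + H + 1 : ℕ) : ℝ))) := by
        apply mul_le_mul_of_nonneg_left _ (by positivity)
        exact mul_le_mul_of_nonneg_left h4 hLr.le
    _ = (H + 1) * (1 / 2 ^ (k + 5)) * (((n / LL k : ℕ) : ℝ) * LL k + (H + 1) * LL k) := by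
        push_cast
        ring
    _ ≤ _ := by
        apply mul_le_mul_of_nonneg_left _ (by positivity)
        linarith

lemma LL_le (k : ℕ) : LL k ≤ 2 ^ ((k + 7) ^ 2) := by
  induction k with
  | zero => norm_num [LL]
  | succ k ih =>
    rw [LL_succ]
    have h1 : nn k + 2 ≤ 2 ^ (k + 7) := by
      unfold nn
      have : 4 ≤ 2 ^ (k + 6) := by
        calc 4 = 2 ^ 2 := by norm_num
          _ ≤ 2 ^ (k + 6) := Nat.pow_le_pow_right (by norm_num) (by omega)
      have e : 2 ^ (k + 7) = 2 ^ (k + 6) * 2 := by rw [← pow_succ]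
      omega
    calc (nn k + 2) * LL k ≤ 2 ^ (k + 7) * 2 ^ ((k + 7) ^ 2) := Nat.mul_le_mul h1 ih
      _ = 2 ^ ((k + 7) + (k + 7) ^ 2) := (pow_add 2 _ _).symm
      _ ≤ 2 ^ ((k + 1 + 7) ^ 2) := Nat.pow_le_pow_right (by norm_num) (by nlinarith)

theorem selfDecoding (v : ∀ k, M k) : SelfDecoding (QQ v) := by
  classical
  intro δ hδ ℓ
  -- `H k = (k+8)^2 + k`
  have ht1 : Tendsto (fun k : ℕ => (LL (k + 1) : ℝ) * (1 / 2) ^ ((k + 8) ^ 2 + k) +
      2 * (1 / 4) ^ (k + 9)) atTop (𝓝 0) := by
    have h1 : Tendsto (fun k : ℕ => (1 / 2 : ℝ) ^ k + 2 * ((1 / 4 : ℝ) ^ 9 * (1 / 4) ^ k)) atTop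
        (𝓝 (0 + 2 * ((1 / 4 : ℝ) ^ 9 * 0))) := by
      apply Tendsto.add
      · exact tendsto_pow_atTop_nhds_zero_of_lt_one (by norm_num) (by norm_num)
      · apply Tendsto.const_mul
        apply Tendsto.const_mul
        exact tendsto_pow_atTop_nhds_zero_of_lt_one (by norm_num) (by norm_num)
    rw [mul_zero, mul_zero, add_zero] at h1
    refine squeeze_zero (fun k => by positivity) (fun k => ?_) h1
    apply add_le_add
    · have h2 : (LL (k + 1) : ℝ) ≤ 2 ^ ((k + 8) ^ 2) := by
        have := LL_le (k + 1)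
        rw [show k + 1 + 7 = k + 8 by ring] at this
        exact_mod_cast this
      calc (LL (k + 1) : ℝ) * (1 / 2) ^ ((k + 8) ^ 2 + k)
          ≤ 2 ^ ((k + 8) ^ 2) * (1 / 2) ^ ((k + 8) ^ 2 + k) := by
            apply mul_le_mul_of_nonneg_right h2 (by positivity)
        _ = (1 / 2) ^ k := by
            rw [pow_add, ← mul_assoc, ← mul_pow]
            norm_num
    · rw [pow_add, mul_comm ((1 / 4 : ℝ) ^ 9)]
  have ht2 : Tendsto (fun k : ℕ => ((((k + 8) ^ 2 + k : ℕ) : ℝ) + 1) * (1 / 2 ^ (k + 1 + 5)) * 2)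
      atTop (𝓝 0) := by
    have h1 : Tendsto (fun k : ℕ => 128 * ((k : ℝ) ^ 2 / 2 ^ k)) atTop (𝓝 (128 * 0)) :=
      (tendsto_pow_const_div_const_pow_of_one_lt 2 (by norm_num : (1 : ℝ) < 2)).const_mul 128
    rw [mul_zero] at h1
    refine squeeze_zero' (Eventually.of_forall (fun k => by positivity)) ?_ h1
    filter_upwards [eventually_ge_atTop 8] with k hk
    have hk' : (8 : ℝ) ≤ k := by exact_mod_cast hk
    push_cast
    rw [show k + 1 + 5 = k + 6 by ring, pow_add]
    have h2 : (0 : ℝ) < 2 ^ k := by positivity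
    rw [mul_one_div, div_mul_eq_mul_div, mul_div_assoc', div_le_div_iff₀ (by positivity) h2]
    have h3 : (((k : ℝ) + 8) ^ 2 + k + 1) * 2 ≤ 128 * (k : ℝ) ^ 2 * 2 ^ 6 := by nlinarith
    calc (((k : ℝ) + 8) ^ 2 + k + 1) * 2 * 2 ^ k ≤ 128 * (k : ℝ) ^ 2 * 2 ^ 6 * 2 ^ k :=
          mul_le_mul_of_nonneg_right h3 h2.le
      _ = _ := by ring
  obtain ⟨k, hk1, hk2, hk3, hk4⟩ := ((ht1.eventually (gt_mem_nhds hδ)).and
    ((ht2.eventually (gt_mem_nhds hδ)).and ((eventually_ge_atTop ℓ).and
      (eventually_ge_atTop 3)))).exists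
  set H := (k + 8) ^ 2 + k with hH
  have hH3 : 3 ≤ H := by omega
  have hℓL : ℓ ≤ LL (k + 1) := by
    have := lt_LL (k + 1)
    omega
  refine ⟨H * LL (k + 1), LL (k + 1), ?_, Exc v (k + 1) H, ?_, ?_⟩
  · calc LL (k + 1) + ℓ ≤ 3 * LL (k + 1) := by omega
      _ ≤ H * LL (k + 1) := Nat.mul_le_mul_right _ hH3
  · filter_upwards [eventually_ge_atTop ((H + 1) * LL (k + 1))] with n hn
    refine (exc_card v (k + 1) H n).trans ?_
    have h1 : ((H : ℝ) + 1) * LL (k + 1) ≤ n := by exact_mod_cast hn
    calc ((H : ℝ) + 1) * (1 / 2 ^ (k + 1 + 5)) * (n + (H + 1) * LL (k + 1))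
        ≤ ((H : ℝ) + 1) * (1 / 2 ^ (k + 1 + 5)) * (n + n) := by
          apply mul_le_mul_of_nonneg_left _ (by positivity)
          linarith
      _ = ((H : ℝ) + 1) * (1 / 2 ^ (k + 1 + 5)) * 2 * n := by ring
      _ ≤ δ * n := mul_le_mul_of_nonneg_right hk2.le (Nat.cast_nonneg n)
  · intro j hj1 hj
    exact (decode v k H ℓ hH3 hℓL j hj1 hj).trans hk1.le

theorem normal_subset (v : ∀ k, M k) : NormalSet (QQ v) ⊆ DistNormalSet (QQ v) :=
  transfer (C := lc) (fun n _ => QQ_two_le v n) (QQ_le v) (selfDecoding v)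

end Pool.Agent.NH66.Cantor
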