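import Pool.Agent.NH66.Cantor.Ex

/-! Cantor series expansions: normality and distribution normality. -/

set_option autoImplicit false

open Finset Filter Topology

namespace Pool.Agent.NH66.Cantor

/-- `q₁ q₂ ⋯ qₙ` -/
def qprod (q : ℕ → ℕ) (n : ℕ) : ℕ := ∏ i ∈ Icc 1 n, q i

/-- `(dₙ)` is the sequence of digits of `x` in the Cantor series expansion for the basic sequence
`(qₙ)`, `n ≥ 1`: `x = ∑ dₙ / (q₁ ⋯ qₙ)`, `0 ≤ dₙ ≤ qₙ - 1`, `dₙ ≠ qₙ - 1` infinitely often -/
def IsExpansion (q : ℕ → ℕ) (x : ℝ) (d : ℕ → ℕ) : Prop :=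
  (∀ n, 1 ≤ n → d n < q n) ∧ (∃ᶠ n in atTop, d n ≠ q n - 1) ∧
    HasSum (fun n : ℕ => (d (n + 1) : ℝ) / qprod q (n + 1)) x

open Classical in
/-- `Qₙ(D) = ∑_{j ≤ n} I_{Q,j}(D) / (q_j ⋯ q_{j+ℓ-1})` -/
noncomputable def Qn (q : ℕ → ℕ) (D : List ℕ) (n : ℕ) : ℝ :=
  ∑ j ∈ Icc 1 n, if (∀ i (h : i < D.length), D[i] < q (j + i)) then
    1 / ∏ i ∈ range D.length, (q (j + i) : ℝ) else 0

open Classical in
/-- the number of `i ≤ n` such that the block `D` occurs at the positions `i+1, …, i+ℓ` -/
noncomputable def Nn (d : ℕ → ℕ) (D : List ℕ) (n : ℕ) : ℕ :=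
  ((Icc 1 n).filter (fun i => ∀ j (h : j < D.length), d (i + 1 + j) = D[j])).card

/-- `N(Q)`: the set of `Q`-normal numbers in `[0,1)` -/
def NormalSet (q : ℕ → ℕ) : Set ℝ :=
  {x | x ∈ Set.Ico (0 : ℝ) 1 ∧ ∃ d, IsExpansion q x d ∧
    ∀ D : List ℕ, Tendsto (Qn q D) atTop atTop →
      Tendsto (fun n => (Nn d D n : ℝ) / Qn q D n) atTop (𝓝 1)}

open Classical in
/-- `DN(Q)`: the set of `Q`-distribution normal numbers in `[0,1)`: the sequence
`q₁ ⋯ qₙ x mod 1` is uniformly distributed -/
def DistNormalSet (q : ℕ → ℕ) : Set ℝ :=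
  {x | x ∈ Set.Ico (0 : ℝ) 1 ∧ ∀ α β : ℝ, 0 ≤ α → α < β → β ≤ 1 →
    Tendsto (fun n : ℕ => (((Icc 1 n).filter
      (fun m => Int.fract ((qprod q m : ℝ) * x) ∈ Set.Ico α β)).card : ℝ) / n) atTop (𝓝 (β - α))}

/-- the window of length `L` of the sequence `q` at the position `j` -/
def win {α : Type*} (q : ℕ → α) (j L : ℕ) : List α := (List.range L).map (fun i => q (j + i))

section win
variable {α : Type*}

@[simp] lemma win_length (q : ℕ → α) (j L : ℕ) : (win q j L).length = L := by simp [win]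

@[simp] lemma win_zero (q : ℕ → α) (j : ℕ) : win q j 0 = [] := rfl

lemma win_succ (q : ℕ → α) (j L : ℕ) : win q j (L + 1) = q j :: win q (j + 1) L := by
  unfold win
  rw [List.range_succ_eq_map, List.map_cons, List.map_map]
  congr 1
  apply List.map_congr_left
  intro i _
  show q (j + (i + 1)) = q (j + 1 + i)
  congr 1
  ring

@[simp] lemma win_getElem (q : ℕ → α) (j L i : ℕ) (h : i < (win q j L).length) :
    (win q j L)[i] = q (j + i) := by simp [win]

lemma win_append (q : ℕ → α) (j A B : ℕ) : win q j (A + B) = win q j A ++ win q (j + A) B := by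
  induction A generalizing j with
  | zero => simp
  | succ A ih =>
    rw [show A + 1 + B = (A + B) + 1 by ring, win_succ, ih, win_succ, List.cons_append]
    rw [show j + 1 + A = j + (A + 1) by ring]

lemma win_take (q : ℕ → α) (j A B : ℕ) (h : A ≤ B) : (win q j B).take A = win q j A := by
  obtain ⟨C, rfl⟩ := Nat.exists_eq_add_of_le h
  rw [win_append]
  simp

lemma win_drop (q : ℕ → α) (j A B : ℕ) : (win q j (A + B)).drop A = win q (j + A) B := by
  rw [win_append]
  simp

lemma win_eq_iff (q q' : ℕ → α) (j j' L : ℕ) :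
    win q j L = win q' j' L ↔ ∀ i < L, q (j + i) = q' (j' + i) := by
  unfold win
  constructor
  · intro h i hi
    have := List.map_inj_left.mp h i (by simpa using hi)
    exact this
  · intro h
    apply List.map_congr_left
    intro i hi
    exact h i (by simpa using hi)

lemma mem_win {q : ℕ → α} {j L : ℕ} {v : α} (h : v ∈ win q j L) : ∃ i < L, v = q (j + i) := by
  unfold win at h
  rw [List.mem_map] at h
  obtain ⟨i, hi, rfl⟩ := h
  exact ⟨i, by simpa using hi, rfl⟩

end win

lemma win_prod (q : ℕ → ℕ) (j L : ℕ) :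
    ((win q j L).prod : ℝ) = ∏ i ∈ range L, (q (j + i) : ℝ) := by
  induction L generalizing j with
  | zero => simp
  | succ L ih =>
    rw [win_succ, List.prod_cons, Finset.prod_range_succ', Nat.cast_mul, ih, mul_comm]
    congr 1
    apply Finset.prod_congr rfl
    intro i _
    congr 2
    ring

lemma below_win_iff (D : List ℕ) (q : ℕ → ℕ) (j L : ℕ) :
    Below D (win q j L) ↔ D.length = L ∧ ∀ i (h : i < D.length), D[i] < q (j + i) := by
  unfold Below
  rw [List.forall₂_iff_get]
  constructor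
  · rintro ⟨h1, h2⟩
    rw [win_length] at h1
    refine ⟨h1, fun i h => ?_⟩
    have := h2 i h (by rw [win_length]; omega)
    simpa using this
  · rintro ⟨h1, h2⟩
    refine ⟨by simpa using h1, fun i h h' => ?_⟩
    have := h2 i h
    simpa using this

lemma Qn_eq (q : ℕ → ℕ) (D : List ℕ) (n : ℕ) :
    Qn q D n = ∑ j ∈ Icc 1 n, Pr (win q j D.length) {D} := by
  classical
  unfold Qn
  apply Finset.sum_congr rfl
  intro j _
  rw [Pr_eq, win_prod]
  by_cases h : Below D (win q j D.length)
  · rw [if_pos h, if_pos ((below_win_iff D q j D.length).mp h).2]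
  · rw [if_neg h, if_neg]
    intro h'
    exact h ((below_win_iff D q j D.length).mpr ⟨rfl, h'⟩)

lemma Nn_eq (d : ℕ → ℕ) (D : List ℕ) (n : ℕ) :
    Nn d D n = ((Icc 1 n).filter (fun i => win d (i + 1) D.length = D)).card := by
  classical
  unfold Nn
  congr 1
  apply Finset.filter_congr
  intro i _
  constructor
  · intro h
    apply List.ext_getElem (by simp)
    intro j h1 h2
    rw [win_getElem]
    exact h j h2
  · intro h j hj
    have h1 : (win d (i + 1) D.length)[j]'(by simpa using hj) = D[j] := by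
      simp only [h]
    rw [← h1, win_getElem]

end Pool.Agent.NH66.Cantor
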