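import Pool.Agent.NH66.Cantor.Defs
import Pool.Agent.Helper179.KSDefs

/-! Dynamically generated basic sequences, the pointclass `D₂(Π⁰₃)`, and the question. -/

set_option autoImplicit false

open Finset Filter Topology MeasureTheory

namespace Pool.Agent.NH66.Cantor

/-- The basic sequence `(qₙ)`, `n ≥ 1`, is generated by the system `(X, μ, T)` with the function
`f` and the point `x`. -/
structure GeneratedBy (q : ℕ → ℕ) (X : Type) [t : TopologicalSpace X] [MeasurableSpace X]
    (μ : Measure X) (T : X → X) (f : X → ℕ) (x : X) : Prop where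
  /-- `μ` is a probability measure -/
  prob : IsProbabilityMeasure μ
  /-- `μ` is positive on nonempty open sets -/
  positive : ∀ U : Set X, IsOpen U → U.Nonempty → 0 < μ U
  /-- `T` is continuous -/
  continuous_T : Continuous T
  /-- `T` preserves `μ` -/
  preserving : MeasurePreserving T μ μ
  /-- `f` is continuous -/
  continuous_f : Continuous f
  /-- `f` has values `≥ 2` -/
  two_le : ∀ y, 2 ≤ f y
  /-- the topology of `X` is the smallest `T`-invariant one for which `f` is continuous -/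
  smallest : ∀ τ : TopologicalSpace X, (∀ U, IsOpen[τ] U → IsOpen[τ] (T ⁻¹' U)) →
    (∀ A : Set ℕ, IsOpen[τ] (f ⁻¹' A)) → ∀ U, IsOpen[t] U → IsOpen[τ] U
  /-- `x` is generic for `μ` -/
  generic : ∀ g : X → ℝ, Continuous g → Integrable g μ →
    Tendsto (fun n : ℕ => (∑ i ∈ range n, g (T^[i] x)) / n) atTop (𝓝 (∫ y, g y ∂μ))
  /-- `qₙ = f (Tⁿ x)` -/
  eq : ∀ n : ℕ, 1 ≤ n → q n = f (T^[n] x)

/-- `Q` is dynamically generated by a system of positive measure-theoretic entropy -/
def NonDeterministic (q : ℕ → ℕ) : Prop :=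
  ∃ (X : Type) (_ : TopologicalSpace X) (_ : PolishSpace X) (_ : MeasurableSpace X)
    (_ : BorelSpace X) (μ : Measure X) (T : X → X) (f : X → ℕ) (x : X),
    GeneratedBy q X μ T f x ∧ 0 < Pool.Agent.Helper179.KS.ksEntropy μ T

section classes
variable {Y : Type*} [TopologicalSpace Y]

/-- `Π⁰₃` sets: countable intersections of countable unions of closed sets -/
def IsPi03 (S : Set Y) : Prop :=
  ∃ F : ℕ → ℕ → Set Y, (∀ i j, IsClosed (F i j)) ∧ S = ⋂ i, ⋃ j, F i j

/-- `D₂(Π⁰₃)` sets: differences of two `Π⁰₃` sets -/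
def IsD2Pi03 (S : Set Y) : Prop := ∃ A B : Set Y, IsPi03 A ∧ IsPi03 B ∧ S = A \ B

/-- `D₂(Π⁰₃)`-complete sets: the sets of this class such that every set of the class in the Baire
space is a preimage of it under a continuous map -/
def D2Pi03Complete (S : Set Y) : Prop :=
  IsD2Pi03 S ∧ ∀ C : Set (ℕ → ℕ), IsD2Pi03 C →
    ∃ g : (ℕ → ℕ) → Y, Continuous g ∧ g ⁻¹' S = C

end classes

/-- The statement asked about in Q1: for every non-deterministic dynamically generated `Q` the set
`N(Q) \ DN(Q)` has Hausdorff dimension `1` and is `D₂(Π⁰₃)`-complete (as a subset of `[0,1)`). -/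
def QuestionOne : Prop :=
  ∀ q : ℕ → ℕ, NonDeterministic q →
    dimH (NormalSet q \ DistNormalSet q) = 1 ∧
    D2Pi03Complete {y : Set.Ico (0 : ℝ) 1 | (y : ℝ) ∈ NormalSet q \ DistNormalSet q}

lemma isPi03_univ {Y : Type*} [TopologicalSpace Y] : IsPi03 (Set.univ : Set Y) :=
  ⟨fun _ _ => Set.univ, fun _ _ => isClosed_univ, by
    show Set.univ = ⋂ _ : ℕ, ⋃ _ : ℕ, Set.univ
    rw [Set.iUnion_const, Set.iInter_const]⟩

lemma isPi03_empty {Y : Type*} [TopologicalSpace Y] : IsPi03 (∅ : Set Y) :=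
  ⟨fun _ _ => ∅, fun _ _ => isClosed_empty, by
    show ∅ = ⋂ _ : ℕ, ⋃ _ : ℕ, ∅
    rw [Set.iUnion_const, Set.iInter_const]⟩

lemma not_complete_empty {Y : Type*} [TopologicalSpace Y] : ¬ D2Pi03Complete (∅ : Set Y) := by
  rintro ⟨_, h⟩
  obtain ⟨g, _, hg⟩ := h Set.univ ⟨Set.univ, ∅, isPi03_univ, isPi03_empty, by simp⟩
  rw [Set.preimage_empty] at hg
  exact Set.empty_ne_univ hg

end Pool.Agent.NH66.Cantor
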