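import Pool.Agent.NH66.Cantor.Lower

/-! Lower bound for the entropy of the block frequencies. -/

set_option autoImplicit false

open Finset Filter Topology

namespace Pool.Agent.NH66.Cantor

/-- the three letters -/
def lett (a : Fin 3) : ℕ := if a = 0 then la else if a = 1 then lb else lc

/-- the index of a letter -/
def dec (n : ℕ) : Fin 3 := if n = la then 0 else if n = lb then 1 else 2

lemma dec_lett (a : Fin 3) : dec (lett a) = a := by
  have h1 := la_lt_lb
  have h2 := lb_lt_lc
  have h3 : lb ≠ la := by omega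
  have h4 : lc ≠ la := by omega
  have h5 : lc ≠ lb := by omega
  unfold dec lett
  fin_cases a
  · simp
  · simp [h3]
  · simp [h4, h5]

lemma lett_dec {n : ℕ} (h : n = la ∨ n = lb ∨ n = lc) : lett (dec n) = n := by
  have h1 := la_lt_lb
  have h2 := lb_lt_lc
  have h3 : lb ≠ la := by omega
  have h4 : lc ≠ la := by omega
  have h5 : lc ≠ lb := by omega
  unfold dec lett
  rcases h with h | h | h <;> subst h
  · simp
  · simp [h3]
  · simp [h4, h5]

/-- the word of natural numbers of a word over `Fin 3` -/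
def wl {n : ℕ} (w : Fin n → Fin 3) : List ℕ := List.ofFn (fun j => lett (w j))

@[simp] lemma wl_length {n : ℕ} (w : Fin n → Fin 3) : (wl w).length = n := by simp [wl]

lemma wl_getElem {n : ℕ} (w : Fin n → Fin 3) (j : ℕ) (h : j < (wl w).length) :
    (wl w)[j] = lett (w ⟨j, by simpa using h⟩) := by simp [wl]

lemma win_eq_wl {f : ℕ → ℕ} (hf : ∀ n, f n = la ∨ f n = lb ∨ f n = lc) (i n : ℕ)
    (w : Fin n → Fin 3) : win f i n = wl w ↔ w = fun j : Fin n => dec (f (i + j)) := by
  constructor
  · intro h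
    funext j
    have h1 : (win f i n)[(j : ℕ)]'(by simp) = (wl w)[(j : ℕ)]'(by simp) := by
      simp only [h]
    rw [win_getElem, wl_getElem] at h1
    rw [h1, dec_lett]
  · rintro rfl
    apply List.ext_getElem (by simp)
    intro j h1 h2
    rw [win_getElem, wl_getElem, lett_dec (hf _)]

open Classical in
lemma sum_ind {f : ℕ → ℕ} (hf : ∀ n, f n = la ∨ f n = lb ∨ f n = lc) (i n : ℕ) :
    ∑ w : Fin n → Fin 3, (if win f i n = wl w then (1 : ℝ) else 0) = 1 := by
  have h1 : ∀ w : Fin n → Fin 3, (if win f i n = wl w then (1 : ℝ) else 0) =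
      if w = (fun j : Fin n => dec (f (i + j))) then 1 else 0 := by
    intro w
    exact if_congr (win_eq_wl hf i n w) rfl rfl
  rw [Finset.sum_congr rfl (fun w _ => h1 w)]
  simp

lemma sum_occ {f : ℕ → ℕ} (hf : ∀ n, f n = la ∨ f n = lb ∨ f n = lc) (n N : ℕ) :
    ∑ w : Fin n → Fin 3, (occ f (wl w) N : ℝ) = N := by
  classical
  unfold occ
  have h1 : ∀ w : Fin n → Fin 3,
      ((((range N).filter (fun i => win f i (wl w).length = wl w)).card : ℕ) : ℝ) =
      ∑ i ∈ range N, (if win f i n = wl w then (1 : ℝ) else 0) := by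
    intro w
    rw [Finset.card_filter]
    push_cast
    simp only [wl_length]
  rw [Finset.sum_congr rfl (fun w _ => h1 w), Finset.sum_comm]
  rw [Finset.sum_congr rfl (fun i _ => sum_ind hf i n)]
  simp

lemma Q_letters (n : ℕ) : Q n = la ∨ Q n = lb ∨ Q n = lc := QQ_letters vv n

lemma sum_pp (n : ℕ) : ∑ w : Fin n → Fin 3, pp (wl w) = 1 := by
  have h1 : Tendsto (fun N : ℕ => ∑ w : Fin n → Fin 3, (occ Q (wl w) N : ℝ) / N) atTop
      (𝓝 (∑ w : Fin n → Fin 3, pp (wl w))) := tendsto_finsetSum _ (fun w _ => freq_tendsto (wl w))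
  refine tendsto_nhds_unique h1 ?_
  apply tendsto_const_nhds.congr'
  filter_upwards [eventually_gt_atTop 0] with N hN
  rw [← Finset.sum_div, sum_occ Q_letters]
  have : (N : ℝ) ≠ 0 := by exact_mod_cast hN.ne'
  rw [div_self this]

lemma entropy_lower {ι : Type*} [Fintype ι] (p q : ι → ℝ) (ε : ℝ) (hε : 0 < ε) (hε2 : 2 * ε ≤ 1)
    (hq : ∀ w, 0 ≤ q w) (hqp : ∀ w, q w ≤ p w) (hqε : ∀ w, q w ≤ ε) (hp1 : ∑ w, p w = 1) :
    (2 * ∑ w, q w - 1) * (-Real.log (2 * ε)) ≤ ∑ w, Real.negMulLog (p w) := by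
  have hlog : 0 ≤ -Real.log (2 * ε) := by
    have := Real.log_nonpos (by positivity) hε2
    linarith
  have hp0 : ∀ w, 0 ≤ p w := fun w => (hq w).trans (hqp w)
  have hp2 : ∀ w, p w ≤ 1 := by
    intro w
    rw [← hp1]
    exact Finset.single_le_sum (fun i _ => hp0 i) (Finset.mem_univ w)
  have key : ∀ w, (2 * q w - p w) * (-Real.log (2 * ε)) ≤ Real.negMulLog (p w) := by
    intro w
    by_cases h : p w ≤ 2 * ε
    · rcases (hp0 w).eq_or_lt with h0 | h0
      · rw [← h0, Real.negMulLog_zero]
        have : q w ≤ 0 := by rw [h0]; exact hqp w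
        nlinarith [hq w]
      · have h1 : Real.log (p w) ≤ Real.log (2 * ε) := Real.log_le_log h0 h
        unfold Real.negMulLog
        have h2 : (2 * q w - p w) * (-Real.log (2 * ε)) ≤ p w * (-Real.log (2 * ε)) := by
          apply mul_le_mul_of_nonneg_right _ hlog
          have := hqp w
          linarith
        nlinarith
    · push Not at h
      have h1 : 2 * q w - p w ≤ 0 := by
        have := hqε w
        linarith
      have h2 : 0 ≤ Real.negMulLog (p w) := Real.negMulLog_nonneg (hp0 w) (hp2 w)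
      nlinarith
  have h3 := Finset.sum_le_sum (fun w (_ : w ∈ Finset.univ) => key w)
  rw [← Finset.sum_mul, Finset.sum_sub_distrib, ← Finset.mul_sum, hp1] at h3
  exact h3

/-- size of the set of messages -/
lemma log_card (k : ℕ) :
    Real.log 2 * LL k * ((1 + 1 / 2 ^ k) / 4) ≤ Real.log (Fintype.card (M k)) := by
  induction k with
  | zero =>
    have h1 : Fintype.card (M 0) = 2 := by
      have : Fintype.card (M 0) = Fintype.card (ZMod 2) := Fintype.card_congr (Equiv.refl _)
      rw [this, ZMod.card]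
    rw [h1]
    simp only [LL]
    push_cast
    have := Real.log_pos (by norm_num : (1 : ℝ) < 2)
    linarith
  | succ k ih =>
    classical
    have h1 : Fintype.card (M (k + 1)) = Fintype.card (M k) ^ (nn k) := by
      have h1 : Fintype.card (M (k + 1)) = Fintype.card (Fin (nn k) → M k) := by
        apply Fintype.card_congr
        exact Equiv.refl _
      rw [h1, Fintype.card_fun, Fintype.card_fin]
    rw [h1]
    push_cast
    rw [Real.log_pow]
    have hn : (0 : ℝ) < nn k := by exact_mod_cast nn_pos k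
    refine le_trans ?_ (mul_le_mul_of_nonneg_left ih hn.le)
    have hLL : (LL (k + 1) : ℝ) = (nn k + 2) * LL k := by rw [LL_succ]; push_cast; ring
    rw [hLL]
    have hlog := Real.log_pos (by norm_num : (1 : ℝ) < 2)
    have hL : (0 : ℝ) < LL k := by exact_mod_cast LL_pos k
    have h2 : ((nn k : ℝ) + 2) * ((1 + 1 / 2 ^ (k + 1)) / 4) ≤ nn k * ((1 + 1 / 2 ^ k) / 4) := by
      have hnn : (2 : ℝ) ^ (k + 6) ≤ nn k := by unfold nn; push_cast; linarith
      set a : ℝ := 1 / 2 ^ k with ha
      have ha0 : 0 < a := by positivity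
      have ha1 : a ≤ 1 := by
        rw [ha, div_le_one (by positivity)]
        exact one_le_pow₀ (by norm_num)
      have e1 : (1 : ℝ) / 2 ^ (k + 1) = a / 2 := by rw [ha, pow_succ]; field_simp
      have e2 : 64 ≤ nn k * a := by
        have : (64 : ℝ) = 2 ^ (k + 6) * a := by rw [ha, pow_add]; field_simp; norm_num
        rw [this]
        exact mul_le_mul_of_nonneg_right hnn ha0.le
      rw [e1]
      nlinarith
    calc Real.log 2 * (((nn k : ℝ) + 2) * LL k) * ((1 + 1 / 2 ^ (k + 1)) / 4)
        = (Real.log 2 * LL k) * (((nn k : ℝ) + 2) * ((1 + 1 / 2 ^ (k + 1)) / 4)) := by ring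
      _ ≤ (Real.log 2 * LL k) * (nn k * ((1 + 1 / 2 ^ k) / 4)) :=
          mul_le_mul_of_nonneg_left h2 (by positivity)
      _ = _ := by ring

lemma log_card' (k : ℕ) : Real.log 2 * LL k / 4 ≤ Real.log (Fintype.card (M k)) := by
  refine le_trans ?_ (log_card k)
  have hlog := Real.log_pos (by norm_num : (1 : ℝ) < 2)
  have hL : (0 : ℝ) < LL k := by exact_mod_cast LL_pos k
  have h1 : (0 : ℝ) ≤ 1 / 2 ^ k := by positivity
  have h2 : 0 ≤ Real.log 2 * LL k * (1 / 2 ^ k) := by positivity
  nlinarith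

/-- the part of the average frequency used for the entropy -/
noncomputable def Bp (k : ℕ) (w : List ℕ) : ℝ :=
  avg (k + 1) (fun m => (∑ i ∈ range ((nn k - 1) * LL k),
    if win (encf (k + 1) m) i (2 * LL k) = w then (1 : ℝ) else 0) / LL (k + 1))

lemma Bp_le_bk (k : ℕ) {w : List ℕ} (hw : w.length = 2 * LL k) : Bp k w ≤ bk w (k + 1) := by
  apply avg_mono
  intro m
  apply div_le_div_of_nonneg_right _ (Nat.cast_nonneg _)
  have h : ∑ i ∈ range ((nn k - 1) * LL k),
      (if win (encf (k + 1) m) i (2 * LL k) = w then (1 : ℕ) else 0) ≤ io (k + 1) m w := by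
    rw [← Finset.card_filter]
    unfold io
    apply Finset.card_le_card
    intro i hi
    rw [Finset.mem_filter, Finset.mem_range] at hi ⊢
    have h1 : (nn k - 1) * LL k + 2 * LL k ≤ LL (k + 1) := by
      rw [LL_succ, ← Nat.add_mul]
      exact Nat.mul_le_mul_right _ (by omega)
    have := LL_pos k
    refine ⟨by omega, by omega, ?_⟩
    rw [hw]
    exact hi.2
  have h' : ((∑ i ∈ range ((nn k - 1) * LL k),
      (if win (encf (k + 1) m) i (2 * LL k) = w then (1 : ℕ) else 0) : ℕ) : ℝ) ≤
      io (k + 1) m w := by exact_mod_cast h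
  refine le_trans (le_of_eq ?_) h'
  push_cast
  rfl

lemma Bp_nonneg (k : ℕ) (w : List ℕ) : 0 ≤ Bp k w := by
  unfold Bp
  have := avg_mono (k := k + 1) (g := fun _ => 0)
    (g' := fun m => (∑ i ∈ range ((nn k - 1) * LL k),
      if win (encf (k + 1) m) i (2 * LL k) = w then (1 : ℝ) else 0) / LL (k + 1))
    (fun m => div_nonneg (Finset.sum_nonneg (fun i _ => by split_ifs <;> norm_num))
      (Nat.cast_nonneg _))
  rwa [avg_const] at this

lemma one_word (k i : ℕ) (hi : i < (nn k - 1) * LL k) (w : List ℕ) :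
    avg (k + 1) (fun m => if win (encf (k + 1) m) i (2 * LL k) = w then (1 : ℝ) else 0) ≤
      1 / Fintype.card (M k) := by
  classical
  -- the data block contained in the window
  have hLk := LL_pos k
  obtain ⟨t, s, hs, ht, hi2⟩ : ∃ t s, s ≤ LL k ∧ t < nn k ∧ i + s = t * LL k := by
    refine ⟨i / LL k + 1, LL k - i % LL k, by omega, ?_, ?_⟩
    · have : i / LL k < nn k - 1 := (Nat.div_lt_iff_lt_mul hLk).mpr hi
      generalize i / LL k = a at this ⊢
      omega
    · clear hi
      have h1 := Nat.div_add_mod i (LL k)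
      have h2 := Nat.mod_lt i hLk
      rw [Nat.succ_mul, mul_comm (i / LL k)]
      generalize LL k * (i / LL k) = a at h1 ⊢
      generalize i % LL k = b at h1 h2 ⊢
      omega
  have h1 : ∀ m : M (k + 1), win (encf (k + 1) m) i (2 * LL k) = w →
      word k (comp m ⟨t, ht⟩) = (w.drop s).take (LL k) := by
    intro m hm
    rw [← hm, show 2 * LL k = s + (LL k + (LL k - s)) by omega, win_drop, win_take _ _ _ _ (by omega),
      hi2]
    have := win_block k m t
    rw [if_neg (by omega)] at this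
    rw [this]
    congr 1
    unfold sub
    rw [dif_pos ht]
  set w' := (w.drop s).take (LL k) with hw'
  have h2 : avg (k + 1) (fun m => if win (encf (k + 1) m) i (2 * LL k) = w then (1 : ℝ) else 0) ≤
      avg (k + 1) (fun m => (fun m' : M k => if word k m' = w' then (1 : ℝ) else 0)
        (comp m ⟨t, ht⟩)) := by
    apply avg_mono
    intro m
    by_cases h : win (encf (k + 1) m) i (2 * LL k) = w
    · simp only [if_pos h, if_pos (h1 m h)]
      exact le_rfl
    · simp only [if_neg h]
      split_ifs <;> norm_num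
  refine h2.trans ?_
  rw [avg_comp k (fun m' : M k => if word k m' = w' then (1 : ℝ) else 0)]
  unfold avg
  apply div_le_div_of_nonneg_right _ (card_M_pos k).le
  have h3 : ∑ m' : M k, (if word k m' = w' then (1 : ℕ) else 0) ≤ 1 := by
    rw [← Finset.card_filter, Finset.card_le_one]
    intro a ha b hb
    rw [Finset.mem_filter] at ha hb
    exact word_injective k (ha.2.trans hb.2.symm)
  have h4 : ((∑ m' : M k, (if word k m' = w' then (1 : ℕ) else 0) : ℕ) : ℝ) ≤ 1 := by
    exact_mod_cast h3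
  refine le_trans (le_of_eq ?_) h4
  push_cast
  rfl

lemma Bp_le (k : ℕ) (w : List ℕ) : Bp k w ≤ 1 / Fintype.card (M k) := by
  classical
  have hL1 : (0 : ℝ) < LL (k + 1) := by exact_mod_cast LL_pos (k + 1)
  have h1 : Bp k w = (∑ i ∈ range ((nn k - 1) * LL k), avg (k + 1)
      (fun m => if win (encf (k + 1) m) i (2 * LL k) = w then (1 : ℝ) else 0)) / LL (k + 1) := by
    unfold Bp
    rw [← avg_sum]
    unfold avg
    rw [← Finset.sum_div]
    field_simp
  rw [h1, div_le_iff₀ hL1]
  calc ∑ i ∈ range ((nn k - 1) * LL k), avg (k + 1)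
        (fun m => if win (encf (k + 1) m) i (2 * LL k) = w then (1 : ℝ) else 0)
      ≤ ∑ i ∈ range ((nn k - 1) * LL k), (1 / Fintype.card (M k) : ℝ) := by
        apply Finset.sum_le_sum
        intro i hi
        exact one_word k i (Finset.mem_range.mp hi) w
    _ = ((nn k - 1) * LL k : ℕ) * (1 / Fintype.card (M k)) := by
        rw [Finset.sum_const, Finset.card_range, nsmul_eq_mul]
    _ ≤ LL (k + 1) * (1 / Fintype.card (M k)) := by
        apply mul_le_mul_of_nonneg_right _ (by have := card_M_pos k; positivity)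
        have : (nn k - 1) * LL k ≤ LL (k + 1) := by
          rw [LL_succ]
          exact Nat.mul_le_mul_right _ (by omega)
        exact_mod_cast this
    _ = _ := by ring

lemma sum_Bp (k : ℕ) : ∑ w : Fin (2 * LL k) → Fin 3, Bp k (wl w) =
    (((nn k - 1) * LL k : ℕ) : ℝ) / LL (k + 1) := by
  classical
  unfold Bp
  rw [← avg_sum]
  have h1 : ∀ m : M (k + 1), ∑ w : Fin (2 * LL k) → Fin 3, (∑ i ∈ range ((nn k - 1) * LL k),
      if win (encf (k + 1) m) i (2 * LL k) = wl w then (1 : ℝ) else 0) / LL (k + 1) =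
      (((nn k - 1) * LL k : ℕ) : ℝ) / LL (k + 1) := by
    intro m
    rw [← Finset.sum_div, Finset.sum_comm]
    congr 1
    rw [Finset.sum_congr rfl (fun i _ => sum_ind (encf_letters (k + 1) m) i (2 * LL k))]
    rw [Finset.sum_const, Finset.card_range, nsmul_eq_mul, mul_one]
  simp only [h1]
  exact avg_const _ _

theorem entropy_word (k : ℕ) (hk : 1 ≤ k) :
    (1 / 50) * ((2 * LL k : ℕ) : ℝ) ≤
      ∑ w : Fin (2 * LL k) → Fin 3, Real.negMulLog (pp (wl w)) := by
  set c : ℝ := 1 - 1 / 2 ^ (k + 1 + 4) with hc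
  have hc1 : 31 / 32 ≤ c := by
    have : (1 : ℝ) / 2 ^ (k + 1 + 4) ≤ 1 / 2 ^ 5 := by
      apply div_le_div_of_nonneg_left (by norm_num) (by norm_num)
      exact pow_le_pow_right₀ (by norm_num) (by omega)
    rw [hc]
    norm_num at this ⊢
    linarith
  have hc2 : c ≤ 1 := by
    have : (0 : ℝ) ≤ 1 / 2 ^ (k + 1 + 4) := by positivity
    rw [hc]
    linarith
  have hcard := card_M_pos k
  have hlogc := log_card' k
  have hlog := Real.log_pos (by norm_num : (1 : ℝ) < 2)
  have hlog2 : (0.69 : ℝ) < Real.log 2 := lt_trans (by norm_num) Real.log_two_gt_d9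
  have hLk : (134 : ℝ) ≤ LL k := by
    have h1 : LL 1 ≤ LL k := LL_mono hk
    have h2 : LL 1 = 134 := by simp [LL, nn]
    rw [h2] at h1
    exact_mod_cast h1
  set ε : ℝ := 1 / Fintype.card (M k) with hε
  have hε0 : 0 < ε := by positivity
  have hlogε : -Real.log (2 * ε) = Real.log (Fintype.card (M k)) - Real.log 2 := by
    rw [hε, Real.log_mul (by norm_num) (by positivity), Real.log_div (by norm_num) hcard.ne',
      Real.log_one]
    ring
  have h2ε : 2 * ε ≤ 1 := by
    have h1 : 0 ≤ -Real.log (2 * ε) := by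
      rw [hlogε]
      nlinarith
    by_contra hcon
    push Not at hcon
    have := Real.log_pos hcon
    linarith
  have hmain := entropy_lower (ι := Fin (2 * LL k) → Fin 3) (fun w => pp (wl w))
    (fun w => Bp k (wl w) * c) ε hε0 h2ε
    (fun w => mul_nonneg (Bp_nonneg _ _) (by linarith))
    (fun w => (mul_le_mul_of_nonneg_right (Bp_le_bk k (wl_length w)) (by linarith)).trans
      (bk_le_pp (wl w) (k + 1)))
    (fun w => (mul_le_of_le_one_right (Bp_nonneg _ _) hc2).trans (Bp_le k _))
    (sum_pp _)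
  refine le_trans ?_ hmain
  rw [← Finset.sum_mul, sum_Bp, hlogε]
  have hs : (61 / 64 : ℝ) ≤ (((nn k - 1) * LL k : ℕ) : ℝ) / LL (k + 1) := by
    have hL1 : (0 : ℝ) < LL (k + 1) := by exact_mod_cast LL_pos (k + 1)
    rw [le_div_iff₀ hL1]
    have hnn : (64 : ℝ) ≤ nn k := by
      unfold nn
      push_cast
      have : (2 : ℝ) ^ 6 ≤ 2 ^ (k + 6) := pow_le_pow_right₀ (by norm_num) (by omega)
      norm_num at this
      linarith
    have h3 : ((nn k - 1 : ℕ) : ℝ) = nn k - 1 := by
      rw [Nat.cast_sub (nn_pos k)]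
      push_cast
      ring
    rw [LL_succ]
    push_cast
    rw [h3]
    have h4 : (61 / 64 : ℝ) * (nn k + 2) ≤ nn k - 1 := by linarith
    nlinarith
  set s : ℝ := (((nn k - 1) * LL k : ℕ) : ℝ) / LL (k + 1) with hsdef
  have h5 : (4 / 5 : ℝ) ≤ 2 * (s * c) - 1 := by nlinarith
  have h6 : (1 / 8 : ℝ) * LL k * 0.69 ≤ Real.log (Fintype.card (M k)) - Real.log 2 := by
    nlinarith
  push_cast
  calc (1 / 50 : ℝ) * (2 * LL k) ≤ 4 / 5 * ((1 / 8 : ℝ) * LL k * 0.69) := by nlinarith
    _ ≤ (2 * (s * c) - 1) * (Real.log (Fintype.card (M k)) - Real.log 2) := by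
        apply mul_le_mul h5 h6 (by positivity) (by linarith)

end Pool.Agent.NH66.Cantor
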