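import Mathlib

/-! Finite expectation of a function of a random digit word. -/

set_option autoImplicit false

open Finset

namespace Pool.Agent.NH66.Cantor

/-- `E` is digitwise smaller than `V` -/
abbrev Below (E V : List ℕ) : Prop := List.Forall₂ (fun x y => x < y) E V

/-- the expectation of `g E` when `E` is a random word, the `i`-th letter of which is uniformly
distributed among the numbers smaller than the `i`-th letter of `V`, independently -/
noncomputable def Ex : List ℕ → (List ℕ → ℝ) → ℝ
  | [], g => g []
  | v :: V, g => (∑ d ∈ range v, Ex V (fun E => g (d :: E))) / v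

/-- the probability of a set of digit words -/
noncomputable def Pr (V : List ℕ) (A : Set (List ℕ)) : ℝ := Ex V (A.indicator (fun _ => 1))

lemma Ex_nil (g : List ℕ → ℝ) : Ex [] g = g [] := rfl

lemma Ex_cons (v : ℕ) (V : List ℕ) (g : List ℕ → ℝ) :
    Ex (v :: V) g = (∑ d ∈ range v, Ex V (fun E => g (d :: E))) / v := rfl

lemma Ex_mono {V : List ℕ} {g g' : List ℕ → ℝ} (h : ∀ E, Below E V → g E ≤ g' E) :
    Ex V g ≤ Ex V g' := by
  induction V generalizing g g' with
  | nil => exact h [] List.Forall₂.nil
  | cons v V ih =>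
    rw [Ex_cons, Ex_cons]
    apply div_le_div_of_nonneg_right _ (Nat.cast_nonneg v)
    apply Finset.sum_le_sum
    intro d hd
    exact ih (fun E hE => h _ (List.Forall₂.cons (Finset.mem_range.mp hd) hE))

lemma Ex_congr {V : List ℕ} {g g' : List ℕ → ℝ} (h : ∀ E, Below E V → g E = g' E) :
    Ex V g = Ex V g' :=
  le_antisymm (Ex_mono (fun E hE => (h E hE).le)) (Ex_mono (fun E hE => (h E hE).ge))

lemma Ex_add (V : List ℕ) (g g' : List ℕ → ℝ) :
    Ex V (fun E => g E + g' E) = Ex V g + Ex V g' := by
  induction V generalizing g g' with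
  | nil => rfl
  | cons v V ih =>
    rw [Ex_cons, Ex_cons, Ex_cons, ← add_div, ← Finset.sum_add_distrib]
    congr 1
    exact Finset.sum_congr rfl (fun d _ => ih _ _)

lemma Ex_smul (V : List ℕ) (c : ℝ) (g : List ℕ → ℝ) :
    Ex V (fun E => c * g E) = c * Ex V g := by
  induction V generalizing g with
  | nil => rfl
  | cons v V ih =>
    rw [Ex_cons, Ex_cons, mul_div_assoc', Finset.mul_sum]
    congr 1
    exact Finset.sum_congr rfl (fun d _ => ih _)

lemma Ex_const {V : List ℕ} (hV : ∀ v ∈ V, 0 < v) (c : ℝ) : Ex V (fun _ => c) = c := by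
  induction V with
  | nil => rfl
  | cons v V ih =>
    rw [Ex_cons, ih (fun w hw => hV w (List.mem_cons_of_mem _ hw))]
    have : (0 : ℝ) < v := by exact_mod_cast hV v List.mem_cons_self
    simp
    field_simp

lemma Ex_sum {ι : Type*} (V : List ℕ) (s : Finset ι) (g : ι → List ℕ → ℝ) :
    Ex V (fun E => ∑ i ∈ s, g i E) = ∑ i ∈ s, Ex V (g i) := by
  classical
  induction s using Finset.induction_on with
  | empty =>
    simp only [Finset.sum_empty]
    have := Ex_smul V 0 (fun _ => 0)
    simpa using this
  | insert i s hi ih =>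
    rw [Finset.sum_insert hi, ← ih, ← Ex_add]
    exact Ex_congr (fun E _ => Finset.sum_insert hi)

lemma Ex_append (V W : List ℕ) (g : List ℕ → ℝ) :
    Ex (V ++ W) g = Ex V (fun E => Ex W (fun F => g (E ++ F))) := by
  induction V generalizing g with
  | nil => rfl
  | cons v V ih =>
    rw [List.cons_append, Ex_cons, Ex_cons]
    congr 1
    apply Finset.sum_congr rfl
    intro d _
    rw [ih]
    rfl

lemma ind_mem {A : Set (List ℕ)} {E : List ℕ} (h : E ∈ A) :
    A.indicator (fun _ => (1 : ℝ)) E = 1 := Set.indicator_of_mem h _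

lemma ind_notMem {A : Set (List ℕ)} {E : List ℕ} (h : E ∉ A) :
    A.indicator (fun _ => (1 : ℝ)) E = 0 := Set.indicator_of_notMem h _

lemma ind_nonneg (A : Set (List ℕ)) (E : List ℕ) : 0 ≤ A.indicator (fun _ => (1 : ℝ)) E := by
  by_cases h : E ∈ A
  · rw [ind_mem h]; norm_num
  · rw [ind_notMem h]

lemma ind_le_one (A : Set (List ℕ)) (E : List ℕ) : A.indicator (fun _ => (1 : ℝ)) E ≤ 1 := by
  by_cases h : E ∈ A
  · rw [ind_mem h]
  · rw [ind_notMem h]; norm_num

lemma Ex_zero (V : List ℕ) : Ex V (fun _ => 0) = 0 := by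
  have := Ex_smul V 0 (fun _ => 0)
  simpa using this

lemma Ex_nonneg {V : List ℕ} {g : List ℕ → ℝ} (h : ∀ E, Below E V → 0 ≤ g E) : 0 ≤ Ex V g := by
  rw [← Ex_zero V]
  exact Ex_mono h

lemma Pr_nonneg (V : List ℕ) (A : Set (List ℕ)) : 0 ≤ Pr V A :=
  Ex_nonneg (fun E _ => ind_nonneg A E)

lemma Pr_mono {V : List ℕ} {A B : Set (List ℕ)} (h : ∀ E, Below E V → E ∈ A → E ∈ B) :
    Pr V A ≤ Pr V B := by
  apply Ex_mono
  intro E hE
  by_cases h1 : E ∈ A
  · rw [ind_mem h1, ind_mem (h E hE h1)]
  · rw [ind_notMem h1]
    exact ind_nonneg _ _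

lemma Pr_congr {V : List ℕ} {A B : Set (List ℕ)} (h : ∀ E, Below E V → (E ∈ A ↔ E ∈ B)) :
    Pr V A = Pr V B :=
  le_antisymm (Pr_mono fun E hE => (h E hE).1) (Pr_mono fun E hE => (h E hE).2)

lemma Pr_le_one {V : List ℕ} (hV : ∀ v ∈ V, 0 < v) (A : Set (List ℕ)) : Pr V A ≤ 1 := by
  have h := Ex_mono (V := V) (g := A.indicator (fun _ => (1 : ℝ))) (g' := fun _ => 1)
    (fun E _ => ind_le_one A E)
  rw [Ex_const hV] at h
  exact h

lemma Pr_union_le (V : List ℕ) (A B : Set (List ℕ)) :
    Pr V (A ∪ B) ≤ Pr V A + Pr V B := by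
  unfold Pr
  rw [← Ex_add]
  apply Ex_mono
  intro E _
  by_cases h1 : E ∈ A
  · rw [ind_mem (Or.inl h1 : E ∈ A ∪ B), ind_mem h1]
    have := ind_nonneg B E
    linarith
  · by_cases h2 : E ∈ B
    · rw [ind_mem (Or.inr h2 : E ∈ A ∪ B), ind_mem h2]
      have := ind_nonneg A E
      linarith
    · rw [ind_notMem (fun h : E ∈ A ∪ B => h.elim h1 h2), ind_notMem h1, ind_notMem h2]
      norm_num

lemma Pr_exists_le {ι : Type*} (V : List ℕ) (s : Finset ι) (A : ι → Set (List ℕ)) :
    Pr V {E | ∃ i ∈ s, E ∈ A i} ≤ ∑ i ∈ s, Pr V (A i) := by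
  unfold Pr
  rw [← Ex_sum]
  apply Ex_mono
  intro E _
  by_cases h : ∃ i ∈ s, E ∈ A i
  · obtain ⟨i, hi, hA⟩ := h
    rw [ind_mem (show E ∈ {E | ∃ i ∈ s, E ∈ A i} from ⟨i, hi, hA⟩)]
    calc (1 : ℝ) = (A i).indicator (fun _ => (1 : ℝ)) E := (ind_mem hA).symm
      _ ≤ _ := Finset.single_le_sum (f := fun i => (A i).indicator (fun _ => (1 : ℝ)) E)
        (fun j _ => ind_nonneg _ _) hi
  · rw [ind_notMem (show E ∉ {E | ∃ i ∈ s, E ∈ A i} from h)]
    exact Finset.sum_nonneg (fun j _ => ind_nonneg _ _)

lemma Below.length_eq {E V : List ℕ} (h : Below E V) : E.length = V.length :=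
  List.Forall₂.length_eq h

/-- an event that depends only on the first part of the word -/
lemma Pr_take (V W : List ℕ) (hW : ∀ v ∈ W, 0 < v) (A : Set (List ℕ)) :
    Pr (V ++ W) {E | E.take V.length ∈ A} = Pr V A := by
  unfold Pr
  rw [Ex_append]
  apply Ex_congr
  intro E hE
  have h1 : ∀ F : List ℕ, (E ++ F).take V.length = E := by
    intro F
    rw [← hE.length_eq]
    simp
  rw [Ex_congr (g' := fun _ => A.indicator (fun _ => (1 : ℝ)) E), Ex_const hW]
  intro F _
  by_cases h : E ∈ A
  · rw [ind_mem h, ind_mem]
    show (E ++ F).take V.length ∈ A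
    rw [h1]; exact h
  · rw [ind_notMem h, ind_notMem]
    show ¬ (E ++ F).take V.length ∈ A
    rw [h1]; exact h

/-- an event that depends only on the last part of the word -/
lemma Pr_drop (V W : List ℕ) (hV : ∀ v ∈ V, 0 < v) (A : Set (List ℕ)) :
    Pr (V ++ W) {E | E.drop V.length ∈ A} = Pr W A := by
  unfold Pr
  rw [Ex_append]
  rw [Ex_congr (g' := fun _ => Ex W (A.indicator (fun _ => (1 : ℝ)))), Ex_const hV]
  intro E hE
  have h1 : ∀ F : List ℕ, (E ++ F).drop V.length = F := by
    intro F
    rw [← hE.length_eq]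
    simp
  apply Ex_congr
  intro F _
  by_cases h : F ∈ A
  · rw [ind_mem h, ind_mem]
    show (E ++ F).drop V.length ∈ A
    rw [h1]; exact h
  · rw [ind_notMem h, ind_notMem]
    show ¬ (E ++ F).drop V.length ∈ A
    rw [h1]; exact h

lemma Pr_empty (V : List ℕ) : Pr V ∅ = 0 := by
  unfold Pr
  simp [Ex_zero]

lemma Pr_cons (v : ℕ) (V : List ℕ) (A : Set (List ℕ)) :
    Pr (v :: V) A = (∑ d ∈ range v, Pr V {E | d :: E ∈ A}) / v := rfl

/-- probability of a single word -/
lemma Pr_eq (V E₀ : List ℕ) [Decidable (Below E₀ V)] :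
    Pr V {E₀} = if Below E₀ V then 1 / (V.prod : ℝ) else 0 := by
  classical
  induction V generalizing E₀ with
  | nil =>
    unfold Pr
    rw [Ex_nil]
    by_cases h : E₀ = []
    · subst h
      simp
    · have : ¬ Below E₀ [] := by
        intro hb
        exact h (List.forall₂_nil_right_iff.mp hb)
      rw [if_neg this, ind_notMem]
      simpa using Ne.symm h
  | cons v V ih =>
    rw [Pr_cons]
    cases E₀ with
    | nil =>
      have h1 : ¬ Below [] (v :: V) := by
        intro hb
        have := hb.length_eq
        simp at this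
      simp only [h1, if_false]
      have h2 : ∀ d ∈ range v, Pr V {E | d :: E ∈ ({[]} : Set (List ℕ))} = 0 := by
        intro d _
        have : {E | d :: E ∈ ({[]} : Set (List ℕ))} = ∅ := by
          ext E; simp
        rw [this, Pr_empty]
      rw [Finset.sum_eq_zero h2]
      simp
    | cons e E₀ =>
      have h2 : ∀ d ∈ range v, Pr V {E | d :: E ∈ ({e :: E₀} : Set (List ℕ))} =
          if d = e then (if Below E₀ V then 1 / (V.prod : ℝ) else 0) else 0 := by
        intro d _
        by_cases hde : d = e
        · subst hde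
          rw [if_pos rfl, ← ih E₀]
          congr 1
          ext E
          simp
        · rw [if_neg hde]
          have : {E | d :: E ∈ ({e :: E₀} : Set (List ℕ))} = ∅ := by
            ext E
            simp [hde]
          rw [this, Pr_empty]
      rw [Finset.sum_congr rfl h2, Finset.sum_ite_eq']
      by_cases he : e < v
      · rw [if_pos (Finset.mem_range.mpr he)]
        by_cases hb : Below E₀ V
        · have h4 : Below (e :: E₀) (v :: V) := List.Forall₂.cons he hb
          rw [if_pos hb, if_pos h4]
          rw [List.prod_cons]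
          push_cast
          rw [div_div, mul_comm]
        · have h4 : ¬ Below (e :: E₀) (v :: V) := fun h => hb (List.forall₂_cons.mp h).2
          rw [if_neg hb, if_neg h4]
          simp
      · have h4 : ¬ Below (e :: E₀) (v :: V) := fun h => he (List.forall₂_cons.mp h).1
        rw [if_neg (by simpa using he), if_neg h4]
        simp

/-- the probability that all digits in the positions of `C` are smaller than `b` is small when
the letters in these positions are `c` -/
lemma Pr_run_le {b c : ℕ} (hbc : b ≤ c) (hc : 0 < c) (V : List ℕ) (hV : ∀ v ∈ V, 0 < v)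
    (C : ℕ → Prop) [DecidablePred C] (hC : ∀ s (h : s < V.length), C s → V[s] = c) :
    Pr V {E | ∀ s (h : s < E.length), C s → E[s] < b} ≤
      ((b : ℝ) / c) ^ ((range V.length).filter C).card := by
  induction V generalizing C with
  | nil =>
    unfold Pr
    rw [Ex_nil]
    simp
  | cons v V ih =>
    have hVt : ∀ w ∈ V, 0 < w := fun w hw => hV w (List.mem_cons_of_mem _ hw)
    have hih := ih hVt (fun s => C (s + 1)) (fun s h hs => by
      have := hC (s + 1) (by simpa using h) hs
      simpa using this)
    have hv : 0 < v := hV v List.mem_cons_self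
    have hvr : (0 : ℝ) < v := by exact_mod_cast hv
    have hcr : (0 : ℝ) < c := by exact_mod_cast hc
    have hcard : ((range (v :: V).length).filter C).card =
        (if C 0 then 1 else 0) + ((range V.length).filter (fun s => C (s + 1))).card := by
      rw [List.length_cons, Finset.card_filter, Finset.card_filter, Finset.sum_range_succ']
      rw [add_comm]
    rw [hcard, Pr_cons]
    have hterm : ∀ d ∈ range v, Pr V {E | d :: E ∈ {E : List ℕ | ∀ s (h : s < E.length),
        C s → E[s] < b}} ≤
        if (C 0 → d < b) then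
          ((b : ℝ) / c) ^ ((range V.length).filter (fun s => C (s + 1))).card else 0 := by
      intro d _
      by_cases hd : C 0 → d < b
      · rw [if_pos hd]
        refine le_trans (Pr_mono ?_) hih
        intro E _ h1 s h hs
        have := h1 (s + 1) (by simpa using h) hs
        simpa using this
      · rw [if_neg hd]
        push Not at hd
        have h0 : {E | d :: E ∈ {E : List ℕ | ∀ s (h : s < E.length),
            C s → E[s] < b}} = ∅ := by
          ext E
          simp only [Set.mem_ofPred_eq, Set.mem_empty_iff_false, iff_false]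
          intro h1
          have := h1 0 (by simp) hd.1
          simp at this
          omega
        rw [h0, Pr_empty]
    refine le_trans (div_le_div_of_nonneg_right (Finset.sum_le_sum hterm) hvr.le) ?_
    by_cases h0 : C 0
    · have hvc : v = c := by
        have := hC 0 (by simp) h0
        simpa using this
      subst hvc
      have h5 : ∀ d ∈ range v, (if (C 0 → d < b) then
          ((b : ℝ) / v) ^ ((range V.length).filter (fun s => C (s + 1))).card else 0) =
          if d ∈ range b then
          ((b : ℝ) / v) ^ ((range V.length).filter (fun s => C (s + 1))).card else 0 := by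
        intro d _
        simp [h0]
      rw [Finset.sum_congr rfl h5, ← Finset.sum_filter]
      have h6 : (range v).filter (fun d => d ∈ range b) = range b := by
        ext d
        simp only [Finset.mem_filter, Finset.mem_range]
        omega
      rw [h6, Finset.sum_const, Finset.card_range, nsmul_eq_mul, if_pos h0, pow_add, pow_one]
      apply le_of_eq
      ring
    · have h5 : ∀ d ∈ range v, (if (C 0 → d < b) then
          ((b : ℝ) / c) ^ ((range V.length).filter (fun s => C (s + 1))).card else 0) =
          ((b : ℝ) / c) ^ ((range V.length).filter (fun s => C (s + 1))).card := by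
        intro d _
        simp [h0]
      rw [Finset.sum_congr rfl h5, Finset.sum_const, Finset.card_range, nsmul_eq_mul, if_neg h0,
        zero_add]
      rw [mul_comm, mul_div_assoc, div_self hvr.ne', mul_one]

end Pool.Agent.NH66.Cantor
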