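import Pool.Agent.NH66.Cantor.Stat

/-! The sequence and the frequencies of its blocks. -/

set_option autoImplicit false

open Finset Filter Topology

namespace Pool.Agent.NH66.Cantor

/-- messages with almost uniform statistics -/
noncomputable def uu : ∀ k, M k
  | 0 => 0
  | k + 1 => (exists_uniform k).choose

/-- constant extensions -/
noncomputable def vv : ∀ k, M k
  | 0 => 0
  | k + 1 => mk (fun _ => uu k)

/-- the basic sequence -/
noncomputable def Q : ℕ → ℕ := QQ vv

lemma uu_spec (k : ℕ) (w : List ℕ) (hw : Encodable.encode w < k) :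
    |(occ (encf (k + 1) (uu (k + 1))) w (LL (k + 1)) : ℝ) / LL (k + 1) - pk w k| ≤
      √(k / nn k) + er w.length k := (exists_uniform k).choose_spec w hw

/-- deviation of the statistics of `uu k` -/
noncomputable def dl (w : List ℕ) (k : ℕ) : ℝ :=
  |(occ (encf k (uu k)) w (LL k) : ℝ) / LL k - pp w|

lemma dl_tendsto (w : List ℕ) : Tendsto (dl w) atTop (𝓝 0) := by
  rw [← tendsto_add_atTop_iff_nat 1]
  have h1 : Tendsto (fun k : ℕ => √((k : ℝ) / nn k) + er w.length k + |pk w k - pp w|) atTop
      (𝓝 (√0 + 0 + |pp w - pp w|)) := by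
    apply Tendsto.add
    · apply Tendsto.add _ (er_tendsto _)
      apply Real.continuous_sqrt.continuousAt.tendsto.comp
      have h2 : Tendsto (fun k : ℕ => ((k : ℝ)) ^ 1 / 2 ^ k) atTop (𝓝 0) :=
        tendsto_pow_const_div_const_pow_of_one_lt 1 (by norm_num)
      refine squeeze_zero (fun k => by positivity) (fun k => ?_) h2
      rw [pow_one]
      apply div_le_div_of_nonneg_left (Nat.cast_nonneg _) (by positivity)
      unfold nn
      push_cast
      have : (2 : ℝ) ^ k ≤ 2 ^ (k + 6) := pow_le_pow_right₀ (by norm_num) (by omega)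
      linarith
    · exact ((pp_tendsto w).sub_const _).abs
  rw [Real.sqrt_zero, sub_self, abs_zero, add_zero, add_zero] at h1
  refine squeeze_zero' (Eventually.of_forall (fun k => abs_nonneg _)) ?_ h1
  filter_upwards [eventually_gt_atTop (Encodable.encode w)] with k hk
  have h2 := uu_spec k w hk
  unfold dl
  calc _ = |((occ (encf (k + 1) (uu (k + 1))) w (LL (k + 1)) : ℝ) / LL (k + 1) - pk w k) +
        (pk w k - pp w)| := by congr 1; ring
    _ ≤ _ := (abs_add_le _ _).trans (add_le_add h2 le_rfl)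

lemma nsmul_odd {k : ℕ} (m : M k) : (nn k) • m = m := by
  unfold nn
  rw [succ_nsmul, show 2 ^ (k + 6) = 2 * 2 ^ (k + 5) by ring, mul_comm, mul_nsmul, two_nsmul]
  rw [add_self, zero_add]

lemma sub_const {k : ℕ} (u : M k) (t : ℕ) : sub (mk (fun _ => u)) t = u := by
  unfold sub
  split_ifs with h
  · rfl
  · rw [par_eq]
    simp only [comp_mk]
    rw [Finset.sum_const, Finset.card_univ, Fintype.card_fin]
    exact nsmul_odd u

lemma initial_const (k : ℕ) (u : M k) (w : List ℕ) (p : ℝ) (hp0 : 0 ≤ p) (hp1 : p ≤ 1) (x : ℕ) :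
    |(occ (encf (k + 1) (mk (fun _ => u))) w x : ℝ) - p * x| ≤
      x * (|(occ (encf k u) w (LL k) : ℝ) / LL k - p| + w.length / LL k) + 2 * LL k := by
  set l := LL k with hl
  have hlpos : 0 < l := LL_pos k
  have hlr : (0 : ℝ) < l := by exact_mod_cast hlpos
  set g := encf (k + 1) (mk (fun _ => u)) with hg
  set δ := |(occ (encf k u) w l : ℝ) / l - p| with hδ
  have hδ0 : 0 ≤ δ := abs_nonneg _
  have htriv : ∀ (f : ℕ → ℕ) (y : ℕ), |(occ f w y : ℝ) - p * y| ≤ y := by
    intro f y
    have h1 : (occ f w y : ℝ) ≤ y := by exact_mod_cast occ_le f w y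
    have h2 : (0 : ℝ) ≤ occ f w y := Nat.cast_nonneg _
    have h3 : (0 : ℝ) ≤ y := Nat.cast_nonneg _
    rw [abs_le]
    constructor <;> nlinarith
  have hcell : ∀ t, t ≠ nn k → |(occ (fun i => g (t * l + i)) w l : ℝ) - p * l| ≤
      w.length + l * δ := by
    intro t ht
    have h1 : |(occ (fun i => g (t * l + i)) w l : ℝ) - occ (encf k u) w l| ≤ w.length := by
      apply occ_congr_abs
      intro i hi
      rw [hg, hl, encf_block k _ t i hi, if_neg ht, sub_const]
    have h2 : |(occ (encf k u) w l : ℝ) - p * l| = l * δ := by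
      rw [hδ, ← abs_of_pos hlr, ← abs_mul, abs_of_pos hlr]
      congr 1
      field_simp
    calc |(occ (fun i => g (t * l + i)) w l : ℝ) - p * l|
        = |((occ (fun i => g (t * l + i)) w l : ℝ) - occ (encf k u) w l) +
          ((occ (encf k u) w l : ℝ) - p * l)| := by congr 1; ring
      _ ≤ _ := (abs_add_le _ _).trans (add_le_add h1 h2.le)
  have hblocks : ∀ j : ℕ, |(occ g w (j * l) : ℝ) - p * (j * l)| ≤
      j * (w.length + l * δ) + (if nn k < j then (l : ℝ) else 0) := by
    intro j
    induction j with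
    | zero => simp [occ]
    | succ j ih =>
      rw [Nat.succ_mul, occ_add]
      push_cast
      have h1 : (occ g w (j * l) : ℝ) + (occ (fun i => g (j * l + i)) w l : ℝ) -
          p * ((j + 1) * l) = ((occ g w (j * l) : ℝ) - p * (j * l)) +
          ((occ (fun i => g (j * l + i)) w l : ℝ) - p * l) := by ring
      rw [h1]
      refine (abs_add_le _ _).trans ?_
      by_cases hj : j = nn k
      · rw [if_neg (by omega)] at ih
        rw [if_pos (by omega)]
        have h2 := htriv (fun i => g (j * l + i)) l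
        have h3 : 0 ≤ (w.length : ℝ) + l * δ := by positivity
        linarith
      · have h2 := hcell j hj
        by_cases hlt : nn k < j
        · rw [if_pos hlt] at ih
          rw [if_pos (by omega)]
          linarith
        · rw [if_neg hlt] at ih
          rw [if_neg (by omega)]
          linarith
  have hx : x = (x / l) * l + x % l := by
    have := Nat.div_add_mod x l
    rw [mul_comm] at this
    exact this.symm
  set j := x / l with hj
  set y := x % l with hy
  have hyl : y < l := Nat.mod_lt _ hlpos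
  have h1 := hblocks j
  have h2 := htriv (fun i => g (j * l + i)) y
  have hxr : (x : ℝ) = j * l + y := by exact_mod_cast hx
  have h3 : (occ g w x : ℝ) - p * x = ((occ g w (j * l) : ℝ) - p * (j * l)) +
      ((occ (fun i => g (j * l + i)) w y : ℝ) - p * y) := by
    have : (occ g w x : ℝ) = occ g w (j * l) + occ (fun i => g (j * l + i)) w y := by
      rw [hx, occ_add]
      push_cast
      rfl
    rw [this, hxr]
    ring
  rw [h3]
  refine (abs_add_le _ _).trans ?_
  have h4 : (if nn k < j then (l : ℝ) else 0) ≤ l := by split_ifs <;> linarith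
  have h5 : (y : ℝ) ≤ l := by exact_mod_cast hyl.le
  have h6 : (j : ℝ) * (w.length + l * δ) = (j * l) * (δ + w.length / l) := by
    field_simp
    ring
  have h7 : (j : ℝ) * l * (δ + w.length / l) ≤ x * (δ + w.length / l) := by
    apply mul_le_mul_of_nonneg_right _ (by positivity)
    rw [hxr]
    have : (0 : ℝ) ≤ y := Nat.cast_nonneg _
    linarith
  linarith

/-- deviation of the number of occurrences -/
noncomputable def FF (w : List ℕ) (n : ℕ) : ℝ := |(occ Q w n : ℝ) - pp w * n|

lemma FF_le (w : List ℕ) (n : ℕ) : FF w n ≤ n := by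
  have h1 : (occ Q w n : ℝ) ≤ n := by exact_mod_cast occ_le Q w n
  have h2 : (0 : ℝ) ≤ occ Q w n := Nat.cast_nonneg _
  have h3 : (0 : ℝ) ≤ n := Nat.cast_nonneg _
  have h4 := pp_nonneg w
  have h5 := pp_le_one w
  unfold FF
  rw [abs_le]
  constructor <;> nlinarith

lemma FF_nonneg (w : List ℕ) (n : ℕ) : 0 ≤ FF w n := abs_nonneg _

lemma FF_add (w : List ℕ) (a b : ℕ) : FF w (a + b) ≤
    FF w a + |(occ (fun i => Q (a + i)) w b : ℝ) - pp w * b| := by
  unfold FF
  rw [occ_add]
  push_cast
  have h1 : (occ Q w a : ℝ) + (occ (fun i => Q (a + i)) w b : ℝ) - pp w * (a + b) =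
      ((occ Q w a : ℝ) - pp w * a) + ((occ (fun i => Q (a + i)) w b : ℝ) - pp w * b) := by ring
  rw [h1]
  exact abs_add_le _ _

lemma FF_add_le (w : List ℕ) (a b : ℕ) : FF w (a + b) ≤ FF w a + b := by
  refine (FF_add w a b).trans (add_le_add le_rfl ?_)
  have h1 : (occ (fun i => Q (a + i)) w b : ℝ) ≤ b := by exact_mod_cast occ_le _ w b
  have h2 : (0 : ℝ) ≤ occ (fun i => Q (a + i)) w b := Nat.cast_nonneg _
  have h3 : (0 : ℝ) ≤ b := Nat.cast_nonneg _
  have h4 := pp_nonneg w
  have h5 := pp_le_one w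
  rw [abs_le]
  constructor <;> nlinarith

/-- error rate -/
noncomputable def gm (w : List ℕ) (k : ℕ) : ℝ :=
  dl w k + w.length / LL k + (w.length + 2 * LL k) / LL (k + 1) + 2 / nn (k + 1)

lemma Q_block (k t i : ℕ) (ht1 : 1 ≤ t) (ht : t < nn (k + 1)) (hi : i < LL (k + 1)) :
    Q (t * LL (k + 1) + i) = encf (k + 1) (mk (fun _ => uu k)) i := by
  unfold Q
  rw [QQ_eq vv (K := k + 2)]
  · rw [encf_block (k + 1) _ t i hi, if_neg (by omega)]
    congr 1
    unfold sub
    rw [dif_pos ht]
    show (mk (fun i => if (i : ℕ) = 0 then msg vv (k + 1) else vv (k + 1)) : M (k + 2)) _ = _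
    show (if t = 0 then msg vv (k + 1) else vv (k + 1)) = _
    rw [if_neg (by omega)]
    rfl
  · rw [LL_succ]
    calc t * LL (k + 1) + i < (t + 1) * LL (k + 1) := by rw [Nat.succ_mul]; omega
      _ ≤ _ := Nat.mul_le_mul_right _ (by omega)

lemma Q_block_dev (w : List ℕ) (k t x : ℕ) (ht1 : 1 ≤ t) (ht : t < nn (k + 1))
    (hx : x ≤ LL (k + 1)) : |(occ (fun i => Q (t * LL (k + 1) + i)) w x : ℝ) - pp w * x| ≤
      x * (dl w k + w.length / LL k) + (w.length + 2 * LL k) := by
  have h1 : |(occ (fun i => Q (t * LL (k + 1) + i)) w x : ℝ) -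
      occ (encf (k + 1) (mk (fun _ => uu k))) w x| ≤ w.length := by
    apply occ_congr_abs
    intro i hi
    exact Q_block k t i ht1 ht (by omega)
  have h2 := initial_const k (uu k) w (pp w) (pp_nonneg w) (pp_le_one w) x
  calc |(occ (fun i => Q (t * LL (k + 1) + i)) w x : ℝ) - pp w * x|
      = |((occ (fun i => Q (t * LL (k + 1) + i)) w x : ℝ) -
        occ (encf (k + 1) (mk (fun _ => uu k))) w x) +
        ((occ (encf (k + 1) (mk (fun _ => uu k))) w x : ℝ) - pp w * x)| := by congr 1; ring
    _ ≤ _ := (abs_add_le _ _).trans (add_le_add h1 h2)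
    _ = _ := by unfold dl; ring

lemma FF_bound (w : List ℕ) (k n : ℕ) (h1 : LL (k + 1) ≤ n) (h2 : n ≤ LL (k + 2)) :
    FF w n ≤ FF w (LL (k + 1)) + n * gm w k := by
  set L := LL (k + 1) with hL
  set l := LL k with hl
  have hLpos : 0 < L := LL_pos _
  have hLr : (0 : ℝ) < L := by exact_mod_cast hLpos
  have hnn : (0 : ℝ) < nn (k + 1) := by exact_mod_cast nn_pos _
  set η := dl w k + w.length / l with hη
  have hη0 : 0 ≤ η := by
    have : 0 ≤ dl w k := abs_nonneg _
    positivity
  set c : ℝ := w.length + 2 * l with hc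
  have hc0 : 0 ≤ c := by positivity
  have hstep : ∀ T : ℕ, 1 ≤ T → T ≤ nn (k + 1) → FF w (T * L) ≤ FF w L + (T - 1) * (L * η + c) := by
    intro T hT1
    induction T, hT1 using Nat.le_induction with
    | base => intro _; simp
    | succ T hT1 ih =>
      intro hT
      have ih' := ih (by omega)
      rw [Nat.succ_mul]
      have h3 := FF_add w (T * L) L
      have h4 := Q_block_dev w k T L hT1 (by omega) le_rfl
      rw [← hL, ← hl, ← hη, ← hc] at h4
      push_cast
      linarith
  -- the main range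
  have hmain : ∀ n, L ≤ n → n ≤ nn (k + 1) * L → FF w n ≤ FF w L + n * (η + c / L) := by
    intro n hn1 hn2
    have hx : n = (n / L) * L + n % L := by
      have := Nat.div_add_mod n L
      rw [mul_comm] at this
      exact this.symm
    have hT1 : 1 ≤ n / L := (Nat.one_le_div_iff hLpos).mpr hn1
    have hT2 : n / L ≤ nn (k + 1) := by
      have := Nat.div_le_div_right (c := L) hn2
      rwa [Nat.mul_div_cancel _ hLpos] at this
    set T := n / L with hT
    set x := n % L with hxd
    have hxL : x < L := Nat.mod_lt _ hLpos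
    have h3 := hstep T hT1 hT2
    have hnr : (n : ℝ) = T * L + x := by exact_mod_cast hx
    have hx0 : (0 : ℝ) ≤ x := Nat.cast_nonneg _
    have hT1r : (1 : ℝ) ≤ T := by exact_mod_cast hT1
    have h5 : (T : ℝ) * c ≤ n * (c / L) := by
      rw [hnr]
      have : (T : ℝ) * c = T * L * (c / L) := by field_simp
      rw [this]
      apply mul_le_mul_of_nonneg_right _ (by positivity)
      linarith
    by_cases hT3 : T < nn (k + 1)
    · have h4 := FF_add w (T * L) x
      have h6 := Q_block_dev w k T x hT1 hT3 hxL.le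
      rw [← hL, ← hl, ← hη, ← hc] at h6
      rw [← hx] at h4
      have h7 : ((T : ℝ) - 1) * (L * η + c) + (x * η + c) ≤ n * η + T * c := by
        rw [hnr]
        nlinarith [mul_nonneg hLr.le hη0]
      nlinarith
    · have hTe : T = nn (k + 1) := by omega
      have hx00 : x = 0 := by
        rw [hTe] at hx
        omega
      rw [hx00, add_zero] at hx
      rw [← hx] at h3
      have h7 : ((T : ℝ) - 1) * (L * η + c) ≤ n * η + T * c := by
        rw [hnr]
        nlinarith [mul_nonneg hLr.le hη0, mul_nonneg hx0 hη0]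
      nlinarith
  have hgm : gm w k = η + c / L + 2 / nn (k + 1) := by
    unfold gm
    rw [← hl, ← hL, ← hη, ← hc]
  rw [hgm]
  have hn0 : (0 : ℝ) ≤ n := Nat.cast_nonneg _
  by_cases hn2 : n ≤ nn (k + 1) * L
  · have h3 := hmain n h1 hn2
    have h4 : 0 ≤ (n : ℝ) * (2 / nn (k + 1)) := by positivity
    nlinarith
  · push Not at hn2
    have h3 := hmain (nn (k + 1) * L) (by
      have := nn_pos (k + 1)
      nlinarith) le_rfl
    obtain ⟨b, rfl⟩ := Nat.exists_eq_add_of_lt hn2
    have h4 := FF_add_le w (nn (k + 1) * L) (b + 1)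
    have h5 : ((b + 1 : ℕ) : ℝ) ≤ 2 * L := by
      rw [LL_succ, ← hL] at h2
      have : b + 1 ≤ 2 * L := by
        have e : (nn (k + 1) + 2) * L = nn (k + 1) * L + 2 * L := by ring
        omega
      exact_mod_cast this
    have h6 : 2 * (L : ℝ) ≤ ((nn (k + 1) * L + b + 1 : ℕ) : ℝ) * (2 / nn (k + 1)) := by
      rw [mul_div_assoc', le_div_iff₀ hnn]
      push_cast
      have : (0 : ℝ) ≤ b := Nat.cast_nonneg _
      nlinarith
    have h7 : ((nn (k + 1) * L : ℕ) : ℝ) * (η + c / L) ≤
        ((nn (k + 1) * L + b + 1 : ℕ) : ℝ) * (η + c / L) := by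
      apply mul_le_mul_of_nonneg_right _ (by positivity)
      push_cast
      have : (0 : ℝ) ≤ b := Nat.cast_nonneg _
      linarith
    rw [← add_assoc] at h4
    rw [mul_add]
    linarith

lemma nn_tendsto : Tendsto (fun k => (nn k : ℝ)) atTop atTop := by
  have h1 : Tendsto (fun k : ℕ => ((2 : ℝ)) ^ k) atTop atTop :=
    tendsto_pow_atTop_atTop_of_one_lt (by norm_num)
  apply tendsto_atTop_mono _ h1
  intro k
  unfold nn
  push_cast
  have : (2 : ℝ) ^ k ≤ 2 ^ (k + 6) := pow_le_pow_right₀ (by norm_num) (by omega)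
  linarith

lemma LL_tendsto : Tendsto (fun k => (LL k : ℝ)) atTop atTop := by
  apply tendsto_atTop_mono _ tendsto_natCast_atTop_atTop
  intro k
  exact_mod_cast (lt_LL k).le

lemma LL_ratio (k : ℕ) : (LL k : ℝ) / LL (k + 1) ≤ 1 / nn k := by
  have hL : (0 : ℝ) < LL k := by exact_mod_cast LL_pos k
  have hn : (0 : ℝ) < nn k := by exact_mod_cast nn_pos k
  have hLL : (LL (k + 1) : ℝ) = (nn k + 2) * LL k := by rw [LL_succ]; push_cast; ring
  rw [hLL, div_le_div_iff₀ (by positivity) hn]
  nlinarith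

lemma gm_tendsto (w : List ℕ) : Tendsto (gm w) atTop (𝓝 0) := by
  have hc : ∀ c : ℝ, Tendsto (fun k => c / (LL k : ℝ)) atTop (𝓝 0) :=
    fun c => LL_tendsto.const_div_atTop c
  have hn : ∀ c : ℝ, Tendsto (fun k => c / (nn k : ℝ)) atTop (𝓝 0) :=
    fun c => nn_tendsto.const_div_atTop c
  have h1 : Tendsto (fun k => dl w k + (w.length : ℝ) / LL k +
      ((w.length : ℝ) / LL (k + 1) + 2 / nn k) + 2 / nn (k + 1)) atTop (𝓝 (0 + 0 + (0 + 0) + 0)) := by
    apply Tendsto.add
    · apply Tendsto.add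
      · exact (dl_tendsto w).add (hc _)
      · exact ((hc _).comp (tendsto_add_atTop_nat 1)).add (hn _)
    · exact (hn 2).comp (tendsto_add_atTop_nat 1)
  rw [add_zero, add_zero, add_zero] at h1
  refine squeeze_zero (fun k => ?_) (fun k => ?_) h1
  · have : 0 ≤ dl w k := abs_nonneg _
    unfold gm
    positivity
  · unfold gm
    have h2 := LL_ratio k
    have h3 : ((w.length : ℝ) + 2 * LL k) / LL (k + 1) = w.length / LL (k + 1) +
        2 * ((LL k : ℝ) / LL (k + 1)) := by ring
    have h4 : (2 : ℝ) / nn k = 2 * (1 / nn k) := by ring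
    rw [h3, h4]
    linarith

theorem freq_tendsto (w : List ℕ) :
    Tendsto (fun n : ℕ => (occ Q w n : ℝ) / n) atTop (𝓝 (pp w)) := by
  have ha : Tendsto (fun k => FF w (LL (k + 1)) / LL (k + 1)) atTop (𝓝 0) := by
    rw [← tendsto_add_atTop_iff_nat 1]
    have h1 : Tendsto (fun k => 1 / (nn (k + 1) : ℝ) + gm w k) atTop (𝓝 (0 + 0)) := by
      apply Tendsto.add _ (gm_tendsto w)
      exact (nn_tendsto.const_div_atTop 1).comp (tendsto_add_atTop_nat 1)
    rw [add_zero] at h1
    refine squeeze_zero (fun k => div_nonneg (FF_nonneg _ _) (Nat.cast_nonneg _)) (fun k => ?_) h1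
    have h2 := FF_bound w k (LL (k + 2)) (LL_mono (by omega)) le_rfl
    have hL : (0 : ℝ) < LL (k + 2) := by exact_mod_cast LL_pos _
    have h3 := LL_ratio (k + 1)
    have h4 := FF_le w (LL (k + 1))
    rw [div_le_iff₀ hL]
    have h5 : (LL (k + 1) : ℝ) ≤ 1 / nn (k + 1) * LL (k + 2) := by
      rwa [div_le_iff₀ hL] at h3
    show FF w (LL (k + 1 + 1)) ≤ _
    calc FF w (LL (k + 2)) ≤ _ := h2
      _ ≤ _ := by
        rw [add_mul]
        linarith
  rw [Metric.tendsto_atTop]
  intro ε hε
  have h1 := (ha.eventually (gt_mem_nhds (half_pos hε))).and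
    ((gm_tendsto w).eventually (gt_mem_nhds (half_pos hε)))
  obtain ⟨K, hK⟩ := Filter.eventually_atTop.mp h1
  refine ⟨LL (K + 1), fun n hn => ?_⟩
  -- the level of `n`
  have hex : ∃ k, n < LL (k + 2) := ⟨n, lt_of_lt_of_le (lt_LL n) (LL_mono (by omega))⟩
  classical
  set k := Nat.find hex with hk
  have hk1 : n < LL (k + 2) := Nat.find_spec hex
  have hkK : K ≤ k := by
    by_contra hcon
    push Not at hcon
    have : LL (k + 2) ≤ LL (K + 1) := LL_mono (by omega)
    omega
  have hk2 : LL (k + 1) ≤ n := by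
    by_cases hk0 : k = 0
    · have : K = 0 := by omega
      rw [hk0]
      rw [this] at hn
      exact hn
    · by_contra hcon
      push Not at hcon
      have := Nat.find_min hex (m := k - 1) (by omega)
      apply this
      rw [show k - 1 + 2 = k + 1 by omega]
      exact hcon
  obtain ⟨h2, h3⟩ := hK k hkK
  have h4 := FF_bound w k n hk2 hk1.le
  have hL : (0 : ℝ) < LL (k + 1) := by exact_mod_cast LL_pos _
  have hn0 : (0 : ℝ) < n := by
    have := LL_pos (k + 1)
    exact_mod_cast (by omega : 0 < n)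
  rw [div_lt_iff₀ hL] at h2
  have h5 : (LL (k + 1) : ℝ) ≤ n := by exact_mod_cast hk2
  have h6 : FF w n < ε * n := by nlinarith
  rw [Real.dist_eq]
  have h7 : (occ Q w n : ℝ) / n - pp w = ((occ Q w n : ℝ) - pp w * n) / n := by
    field_simp
  rw [h7, abs_div, abs_of_pos hn0, div_lt_iff₀ hn0]
  exact h6

end Pool.Agent.NH66.Cantor
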