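import Pool.Agent.NH66.Cantor.Freq

/-! Lower bounds for the limit frequencies. -/

set_option autoImplicit false

open Finset Filter Topology

namespace Pool.Agent.NH66.Cantor

/-- number of occurrences of `w` inside the code word of `m` -/
noncomputable def io (k : ℕ) (m : M k) (w : List ℕ) : ℕ :=
  ((range (LL k)).filter
    (fun i => i + w.length ≤ LL k ∧ win (encf k m) i w.length = w)).card

/-- averaged interior frequency -/
noncomputable def bk (w : List ℕ) (k : ℕ) : ℝ := avg k (fun m => (io k m w : ℝ) / LL k)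

lemma io_le_occ (k : ℕ) (m : M k) (w : List ℕ) : io k m w ≤ occ (encf k m) w (LL k) := by
  unfold io occ
  apply Finset.card_le_card
  intro i hi
  rw [Finset.mem_filter] at hi ⊢
  exact ⟨hi.1, hi.2.2⟩

lemma bk_le_pk (w : List ℕ) (k : ℕ) : bk w k ≤ pk w k := by
  apply avg_mono
  intro m
  apply div_le_div_of_nonneg_right _ (Nat.cast_nonneg _)
  exact_mod_cast io_le_occ k m w

lemma bk_nonneg (w : List ℕ) (k : ℕ) : 0 ≤ bk w k := by
  have := avg_mono (k := k) (g := fun _ => 0)
    (g' := fun m => (io k m w : ℝ) / LL k)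
    (fun m => div_nonneg (Nat.cast_nonneg _) (Nat.cast_nonneg _))
  rwa [avg_const] at this

lemma io_succ (k : ℕ) (m : M (k + 1)) (w : List ℕ) :
    ∑ i : Fin (nn k), io k (comp m i) w ≤ io (k + 1) m w := by
  classical
  unfold io
  rw [← Finset.card_sigma]
  apply Finset.card_le_card_of_injOn (fun p : (_ : Fin (nn k)) × ℕ => (p.1 : ℕ) * LL k + p.2)
  · rintro ⟨i, r⟩ hp
    simp only [Finset.coe_sigma, Set.mem_sigma_iff, Finset.mem_coe, Finset.mem_univ, true_and,
      Finset.mem_filter, Finset.mem_range] at hp ⊢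
    obtain ⟨h1, h2, h3⟩ := hp
    have h4 : ((i : ℕ) + 1) * LL k ≤ LL (k + 1) := by
      rw [LL_succ]
      exact Nat.mul_le_mul_right _ (by have := i.2; omega)
    rw [Nat.succ_mul] at h4
    refine ⟨by omega, by omega, ?_⟩
    refine Eq.trans ?_ h3
    rw [win_eq_iff]
    intro j hj
    rw [add_assoc, encf_block k m i (r + j) (by omega), if_neg (by have := i.2; omega)]
    congr 1
    unfold sub
    rw [dif_pos i.2]
  · rintro ⟨i, r⟩ hp ⟨i', r'⟩ hp' h
    simp only [Finset.coe_sigma, Set.mem_sigma_iff, Finset.mem_coe, Finset.mem_univ, true_and,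
      Finset.mem_filter, Finset.mem_range] at hp hp'
    have h' : (i : ℕ) * LL k + r = i' * LL k + r' := h
    have hd : ∀ a b : ℕ, b < LL k → (a * LL k + b) / LL k = a := by
      intro a b hb
      rw [mul_comm, Nat.mul_add_div (LL_pos k), Nat.div_eq_of_lt hb, add_zero]
    have h1 : (i : ℕ) = i' := by
      rw [← hd i r hp.1, ← hd i' r' hp'.1, h']
    have h2 : i = i' := Fin.ext h1
    subst h2
    have h3 : r = r' := by omega
    subst h3
    rfl

lemma bk_succ (w : List ℕ) (k : ℕ) : bk w k * (1 - 1 / 2 ^ (k + 5)) ≤ bk w (k + 1) := by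
  have hL : (0 : ℝ) < LL k := by exact_mod_cast LL_pos k
  have hn : (0 : ℝ) < nn k := by exact_mod_cast nn_pos k
  have hLL : (LL (k + 1) : ℝ) = (nn k + 2) * LL k := by rw [LL_succ]; push_cast; ring
  have hb := bk_nonneg w k
  have h1 : avg (k + 1) (fun m => ∑ i : Fin (nn k), (1 / (nn k + 2)) *
      ((io k (comp m i) w : ℝ) / LL k)) = bk w k * (nn k / (nn k + 2)) := by
    rw [avg_sum]
    have : ∀ i : Fin (nn k), avg (k + 1) (fun m => (1 / ((nn k : ℝ) + 2)) *
        ((io k (comp m i) w : ℝ) / LL k)) = (1 / (nn k + 2)) * bk w k := by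
      intro i
      rw [avg_mul, avg_comp k (fun m => (io k m w : ℝ) / LL k) i]
      rfl
    simp only [this]
    rw [Finset.sum_const, Finset.card_univ, Fintype.card_fin, nsmul_eq_mul]
    field_simp
  have h2 : bk w k * (nn k / (nn k + 2)) ≤ bk w (k + 1) := by
    rw [← h1]
    apply avg_mono
    intro m
    rw [← Finset.mul_sum, ← Finset.sum_div, hLL]
    have h3 : (∑ i : Fin (nn k), (io k (comp m i) w : ℝ)) ≤ io (k + 1) m w := by
      exact_mod_cast io_succ k m w
    rw [div_mul_div_comm, one_mul]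
    exact div_le_div_of_nonneg_right h3 (by positivity)
  refine le_trans (mul_le_mul_of_nonneg_left ?_ hb) h2
  have h3 := one_div_nn_le k
  have h4 : (nn k : ℝ) / (nn k + 2) = 1 - 2 / (nn k + 2) := by field_simp; ring
  rw [h4]
  have h5 : (2 : ℝ) / (nn k + 2) ≤ 2 * (1 / nn k) := by
    rw [← mul_div_assoc, mul_one]
    exact div_le_div_of_nonneg_left (by norm_num) hn (by linarith)
  have h6 : (1 : ℝ) / 2 ^ (k + 5) = 2 * (1 / 2 ^ (k + 6)) := by
    rw [pow_succ 2 (k + 5)]
    field_simp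
  rw [h6]
  linarith

lemma bk_add (w : List ℕ) (k j : ℕ) :
    bk w k * (1 - (1 - 1 / 2 ^ j) / 2 ^ (k + 4)) ≤ bk w (k + j) := by
  have hb := bk_nonneg w k
  induction j with
  | zero => simp
  | succ j ih =>
    have h1 := bk_succ w (k + j)
    have h2 : (0 : ℝ) ≤ 1 - 1 / 2 ^ (k + j + 5) := by
      have : (1 : ℝ) / 2 ^ (k + j + 5) ≤ 1 := by
        rw [div_le_one (by positivity)]
        exact one_le_pow₀ (by norm_num)
      linarith
    have h3 := mul_le_mul_of_nonneg_right ih h2
    refine le_trans ?_ (h3.trans h1)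
    rw [mul_assoc]
    apply mul_le_mul_of_nonneg_left _ hb
    set a : ℝ := 1 / 2 ^ j with ha
    set b : ℝ := 1 / 2 ^ (k + 4) with hb'
    have e1 : (1 : ℝ) / 2 ^ (j + 1) = a / 2 := by rw [ha, pow_succ]; field_simp
    have e2 : (1 : ℝ) / 2 ^ (k + j + 5) = a * b / 2 := by
      rw [ha, hb', show k + j + 5 = j + (k + 4) + 1 by ring, pow_succ, pow_add]
      field_simp
    have e3 : (1 - a) / 2 ^ (k + 4) = (1 - a) * b := by rw [hb']; ring
    have e4 : (1 - 1 / 2 ^ (j + 1)) / 2 ^ (k + 4) = (1 - a / 2) * b := by rw [hb', e1]; ring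
    rw [e2, e3, e4]
    have ha0 : 0 ≤ a := by positivity
    have ha1 : a ≤ 1 := by
      rw [ha, div_le_one (by positivity)]
      exact one_le_pow₀ (by norm_num)
    have hb0 : 0 ≤ b := by positivity
    have h7 : 0 ≤ (1 - a) * b * (a * b / 2) := by
      have : 0 ≤ 1 - a := by linarith
      positivity
    nlinarith

lemma bk_le_pp (w : List ℕ) (k : ℕ) : bk w k * (1 - 1 / 2 ^ (k + 4)) ≤ pp w := by
  have h1 : Tendsto (fun j => pk w (k + j)) atTop (𝓝 (pp w)) := by
    have := (tendsto_add_atTop_iff_nat k).mpr (pp_tendsto w)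
    refine this.congr (fun j => ?_)
    rw [add_comm]
  apply ge_of_tendsto h1
  apply Eventually.of_forall
  intro j
  refine le_trans ?_ ((bk_add w k j).trans (bk_le_pk _ _))
  apply mul_le_mul_of_nonneg_left _ (bk_nonneg w k)
  have h2 : (0 : ℝ) ≤ 1 / 2 ^ j := by positivity
  have h3 : (1 - 1 / 2 ^ j : ℝ) / 2 ^ (k + 4) ≤ 1 / 2 ^ (k + 4) :=
    div_le_div_of_nonneg_right (by linarith) (by positivity)
  linarith

/-- the initial words of the sequence have positive frequency -/
lemma pp_pos (ℓ : ℕ) : 0 < pp (win Q 0 ℓ) := by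
  have h1 := bk_le_pp (win Q 0 ℓ) ℓ
  refine lt_of_lt_of_le ?_ h1
  have h2 : (0 : ℝ) < 1 - 1 / 2 ^ (ℓ + 4) := by
    have : (1 : ℝ) / 2 ^ (ℓ + 4) < 1 := by
      rw [div_lt_one (by positivity)]
      exact one_lt_pow₀ (by norm_num) (by omega)
    linarith
  apply mul_pos _ h2
  have hLpos : (0 : ℝ) < LL ℓ := by exact_mod_cast LL_pos ℓ
  unfold bk avg
  apply div_pos _ (card_M_pos ℓ)
  apply Finset.sum_pos'
  · intro m _
    positivity
  · refine ⟨msg vv ℓ, Finset.mem_univ _, ?_⟩
    apply div_pos _ hLpos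
    have : 0 < io ℓ (msg vv ℓ) (win Q 0 ℓ) := by
      unfold io
      rw [Finset.card_pos]
      refine ⟨0, ?_⟩
      rw [Finset.mem_filter, Finset.mem_range]
      refine ⟨LL_pos ℓ, ?_, ?_⟩
      · simp
        exact (lt_LL ℓ).le
      · rw [win_length, win_eq_iff]
        intro j hj
        rw [zero_add]
        exact (QQ_eq vv (lt_trans hj (lt_LL ℓ))).symm
    exact_mod_cast this

end Pool.Agent.NH66.Cantor
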