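import Pool.Agent.NH66.Cantor.Ent

/-! The invariant measure with the given block frequencies. -/

set_option autoImplicit false

open Finset Filter Topology MeasureTheory
open scoped ENNReal NNReal BoundedContinuousFunction

namespace Pool.Agent.NH66.Cantor

/-- the full shift space -/
abbrev Om := ℕ → Fin 3

/-- the shift -/
def shf (x : Om) : Om := fun n => x (n + 1)

lemma shf_iterate (x : Om) (i n : ℕ) : (shf^[i] x) n = x (i + n) := by
  induction i generalizing x with
  | zero => simp
  | succ i ih =>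
    rw [Function.iterate_succ_apply, ih]
    show x (i + n + 1) = _
    congr 1
    ring

lemma continuous_shf : Continuous shf := continuous_pi (fun n => continuous_apply (n + 1))

/-- the point -/
noncomputable def qq : Om := fun n => dec (Q n)

/-- cylinders -/
def cyl {n : ℕ} (w : Fin n → Fin 3) : Set Om := {x | ∀ j : Fin n, x j = w j}

lemma isClopen_cyl {n : ℕ} (w : Fin n → Fin 3) : IsClopen (cyl w) := by
  have h : cyl w = ⋂ j : Fin n, (fun x : Om => x j) ⁻¹' {w j} := by
    ext x
    simp [cyl]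
  rw [h]
  exact isClopen_iInter_of_finite
    (fun j => (isClopen_discrete _).preimage (continuous_apply (j : ℕ)))

lemma measurableSet_cyl {n : ℕ} (w : Fin n → Fin 3) : MeasurableSet (cyl w) :=
  (isClopen_cyl w).isOpen.measurableSet

lemma mem_cyl_qq (i : ℕ) {n : ℕ} (w : Fin n → Fin 3) :
    shf^[i] qq ∈ cyl w ↔ win Q i (wl w).length = wl w := by
  rw [wl_length, win_eq_wl Q_letters]
  constructor
  · intro h
    funext j
    have := h j
    rw [shf_iterate] at this
    exact this.symm
  · rintro rfl j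
    rw [shf_iterate]
    rfl

/-- the empirical measures -/
noncomputable def empM (n : ℕ) : Measure Om :=
  ((n + 1 : ℕ) : ℝ≥0∞)⁻¹ • ∑ i ∈ range (n + 1), Measure.dirac (shf^[i] qq)

instance instEmpM (n : ℕ) : IsProbabilityMeasure (empM n) := ⟨by
  unfold empM
  rw [Measure.smul_apply, Measure.finsetSum_apply]
  simp only [measure_univ, Finset.sum_const, Finset.card_range, smul_eq_mul, nsmul_eq_mul, mul_one]
  exact ENNReal.inv_mul_cancel (by simp) (ENNReal.natCast_ne_top _)⟩

/-- the empirical measures -/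
noncomputable def emp (n : ℕ) : ProbabilityMeasure Om := ⟨empM n, inferInstance⟩

lemma integral_emp (n : ℕ) (g : Om → ℝ) (_hg : Continuous g) :
    ∫ x, g x ∂(empM n) = (∑ i ∈ range (n + 1), g (shf^[i] qq)) / (n + 1 : ℕ) := by
  unfold empM
  rw [integral_smul_measure, integral_finsetSum_measure]
  · simp only [integral_dirac]
    rw [ENNReal.toReal_inv, ENNReal.toReal_natCast, smul_eq_mul, div_eq_inv_mul]
  · intro i _
    exact integrable_dirac (by finiteness)

lemma emp_cyl (n : ℕ) {m : ℕ} (w : Fin m → Fin 3) :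
    (empM n).real (cyl w) = (occ Q (wl w) (n + 1) : ℝ) / (n + 1 : ℕ) := by
  classical
  unfold empM Measure.real
  rw [Measure.smul_apply, Measure.finsetSum_apply, smul_eq_mul, ENNReal.toReal_mul,
    ENNReal.toReal_inv, ENNReal.toReal_natCast, div_eq_inv_mul]
  congr 1
  have h1 : ∀ i, Measure.dirac (shf^[i] qq) (cyl w) =
      (((if win Q i (wl w).length = wl w then 1 else 0 : ℕ)) : ℝ≥0∞) := by
    intro i
    rw [Measure.dirac_apply' _ (measurableSet_cyl w)]
    by_cases h : shf^[i] qq ∈ cyl w
    · rw [Set.indicator_of_mem h, if_pos ((mem_cyl_qq i w).mp h)]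
      simp
    · rw [Set.indicator_of_notMem h, if_neg (fun h' => h ((mem_cyl_qq i w).mpr h'))]
      simp
  rw [Finset.sum_congr rfl (fun i _ => h1 i), ← Nat.cast_sum, ENNReal.toReal_natCast]
  unfold occ
  rw [Finset.card_filter]

lemma tendsto_emp_cyl {m : ℕ} (w : Fin m → Fin 3) :
    Tendsto (fun n => (empM n).real (cyl w)) atTop (𝓝 (pp (wl w))) := by
  have h := (freq_tendsto (wl w)).comp (tendsto_add_atTop_nat 1)
  refine h.congr (fun n => ?_)
  rw [emp_cyl]
  rfl

lemma limit_cyl {U : Filter ℕ} [U.NeBot] (hU : U ≤ atTop) {ν : ProbabilityMeasure Om}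
    (h : Tendsto emp U (𝓝 ν)) {m : ℕ} (w : Fin m → Fin 3) :
    (ν : Measure Om).real (cyl w) = pp (wl w) := by
  have h1 := ProbabilityMeasure.tendsto_measure_of_isClopen_of_tendsto h (isClopen_cyl w)
  have h2 : Tendsto (fun n => ((emp n (cyl w) : ℝ≥0) : ℝ)) U (𝓝 ((ν (cyl w) : ℝ≥0) : ℝ)) :=
    (NNReal.continuous_coe.tendsto _).comp h1
  refine tendsto_nhds_unique (f := fun n => (empM n).real (cyl w)) (l := U) ?_
    ((tendsto_emp_cyl w).mono_left hU)
  exact h2

/-- the measure -/
noncomputable def mu : ProbabilityMeasure Om := (Ultrafilter.map emp (hyperfilter ℕ)).lim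

lemma tendsto_mu_hyper : Tendsto emp (hyperfilter ℕ : Filter ℕ) (𝓝 mu) :=
  (Ultrafilter.map emp (hyperfilter ℕ)).le_nhds_lim

lemma mu_cyl {m : ℕ} (w : Fin m → Fin 3) : (mu : Measure Om).real (cyl w) = pp (wl w) :=
  limit_cyl (Nat.hyperfilter_le_atTop) tendsto_mu_hyper w

/-- the family of all cylinders -/
def Cyls : Set (Set Om) := {s | ∃ (n : ℕ) (w : Fin n → Fin 3), s = cyl w}

lemma isPiSystem_Cyls : IsPiSystem Cyls := by
  rintro s ⟨n, w, rfl⟩ t ⟨m, v, rfl⟩ ⟨x, hx1, hx2⟩
  rcases le_total n m with h | h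
  · refine ⟨m, v, ?_⟩
    apply Set.inter_eq_right.mpr
    intro y hy j
    have h1 := hy ⟨j, by omega⟩
    have h2 := hx2 ⟨j, by omega⟩
    have h3 := hx1 j
    simp only at h1 h2
    rw [h1, ← h2, h3]
  · refine ⟨n, w, ?_⟩
    apply Set.inter_eq_left.mpr
    intro y hy j
    have h1 := hy ⟨j, by omega⟩
    have h2 := hx1 ⟨j, by omega⟩
    have h3 := hx2 j
    simp only at h1 h2
    rw [h1, ← h2, h3]

lemma generate_Cyls : (MeasurableSpace.pi : MeasurableSpace Om) =
    MeasurableSpace.generateFrom Cyls := by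
  apply le_antisymm
  · refine iSup_le (fun i => ?_)
    rintro s ⟨t, _, rfl⟩
    have h : (fun x : Om => x i) ⁻¹' t = ⋃ w : {w : Fin (i + 1) → Fin 3 // w ⟨i, by omega⟩ ∈ t},
        cyl w.1 := by
      ext x
      rw [Set.mem_preimage, Set.mem_iUnion]
      constructor
      · intro hx
        exact ⟨⟨fun j => x j, hx⟩, fun j => rfl⟩
      · rintro ⟨⟨w, hw⟩, hx⟩
        rw [hx ⟨i, by omega⟩]
        exact hw
    rw [h]
    exact MeasurableSet.iUnion
      (fun w => MeasurableSpace.measurableSet_generateFrom ⟨i + 1, w.1, rfl⟩)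
  · apply MeasurableSpace.generateFrom_le
    rintro s ⟨n, w, rfl⟩
    exact measurableSet_cyl w

lemma ext_cyl {ν ν' : Measure Om} [IsProbabilityMeasure ν] [IsProbabilityMeasure ν']
    (h : ∀ (m : ℕ) (w : Fin m → Fin 3), ν.real (cyl w) = ν'.real (cyl w)) : ν = ν' := by
  apply ext_of_generate_finite Cyls generate_Cyls isPiSystem_Cyls
  · rintro s ⟨m, w, rfl⟩
    have := h m w
    unfold Measure.real at this
    rwa [ENNReal.toReal_eq_toReal_iff' (measure_ne_top _ _) (measure_ne_top _ _)] at this
  · rw [measure_univ, measure_univ]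

theorem tendsto_mu : Tendsto emp atTop (𝓝 mu) := by
  rw [tendsto_iff_ultrafilter]
  intro U hU
  have h1 : Tendsto emp U (𝓝 (Ultrafilter.map emp U).lim) := (Ultrafilter.map emp U).le_nhds_lim
  have h2 : (Ultrafilter.map emp U).lim = mu := by
    apply Subtype.ext
    apply ext_cyl (ν := (((Ultrafilter.map emp U).lim : ProbabilityMeasure Om) : Measure Om))
      (ν' := (mu : Measure Om))
    intro m w
    rw [mu_cyl, limit_cyl hU h1]
  rw [h2] at h1
  exact h1

theorem birkhoff (g : Om → ℝ) (hg : Continuous g) :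
    Tendsto (fun n : ℕ => (∑ i ∈ range n, g (shf^[i] qq)) / n) atTop
      (𝓝 (∫ x, g x ∂(mu : Measure Om))) := by
  rw [← tendsto_add_atTop_iff_nat 1]
  have h1 := (ProbabilityMeasure.tendsto_iff_forall_integral_tendsto.mp tendsto_mu)
    (BoundedContinuousFunction.mkOfCompact ⟨g, hg⟩)
  refine h1.congr (fun n => ?_)
  exact integral_emp n g hg

lemma map_shf : (mu : Measure Om).map shf = mu := by
  have hm : Measurable shf := continuous_shf.measurable
  have h1 : Tendsto (fun n => (emp n).map hm.aemeasurable) atTop (𝓝 (mu.map hm.aemeasurable)) :=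
    ProbabilityMeasure.tendsto_map_of_tendsto_of_continuous _ _ tendsto_mu continuous_shf
  have h2 : Tendsto (fun n => (emp n).map hm.aemeasurable) atTop (𝓝 mu) := by
    rw [ProbabilityMeasure.tendsto_iff_forall_integral_tendsto]
    intro g
    have h3 : ∀ n, ∫ x, g x ∂(((emp n).map hm.aemeasurable : ProbabilityMeasure Om) : Measure Om) =
        (∑ i ∈ range (n + 1), g (shf^[i] qq)) / (n + 1 : ℕ) +
          (g (shf^[n + 1] qq) - g qq) / (n + 1 : ℕ) := by
      intro n
      rw [ProbabilityMeasure.toMeasure_map, integral_map hm.aemeasurable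
        g.continuous.aestronglyMeasurable]
      have h4 := integral_emp n (fun x => g (shf x)) (g.continuous.comp continuous_shf)
      rw [← add_div]
      refine Eq.trans h4 ?_
      congr 1
      have h5 : ∀ i, g (shf (shf^[i] qq)) = g (shf^[i + 1] qq) := by
        intro i
        rw [Function.iterate_succ_apply']
      rw [Finset.sum_congr rfl (fun i _ => h5 i)]
      have h6 := Finset.sum_range_succ (fun i => g (shf^[i] qq)) (n + 1)
      have h7 := Finset.sum_range_succ' (fun i => g (shf^[i] qq)) (n + 1)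
      simp only [Function.iterate_zero, id_eq] at h7
      linarith
    simp only [h3]
    have h4 : Tendsto (fun n : ℕ => (∑ i ∈ range (n + 1), g (shf^[i] qq)) / ((n + 1 : ℕ) : ℝ) +
          (g (shf^[n + 1] qq) - g qq) / ((n + 1 : ℕ) : ℝ)) atTop
          (𝓝 (∫ x, g x ∂(mu : Measure Om) + 0)) := by
      apply Tendsto.add
      · exact (birkhoff g g.continuous).comp (tendsto_add_atTop_nat 1)
      · have h5 : Tendsto (fun n : ℕ => (2 * ‖g‖) / ((n + 1 : ℕ) : ℝ)) atTop (𝓝 0) :=
          (tendsto_const_div_atTop_nhds_zero_nat (2 * ‖g‖)).comp (tendsto_add_atTop_nat 1)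
        refine squeeze_zero_norm (fun n => ?_) h5
        rw [norm_div, RCLike.norm_natCast]
        apply div_le_div_of_nonneg_right _ (Nat.cast_nonneg _)
        calc ‖g (shf^[n + 1] qq) - g qq‖ ≤ ‖g (shf^[n + 1] qq)‖ + ‖g qq‖ := norm_sub_le _ _
          _ ≤ ‖g‖ + ‖g‖ := add_le_add (g.norm_coe_le_norm _) (g.norm_coe_le_norm _)
          _ = 2 * ‖g‖ := by ring
    rw [add_zero] at h4
    exact h4
  have h3 := tendsto_nhds_unique h1 h2
  have h4 := congrArg (fun ν : ProbabilityMeasure Om => (ν : Measure Om)) h3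
  simpa only [ProbabilityMeasure.toMeasure_map] using h4

end Pool.Agent.NH66.Cantor
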