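import Pool.Agent.NH66.Cantor.Code

/-! The basic sequence and its cells. -/

set_option autoImplicit false

open Finset Filter Topology

namespace Pool.Agent.NH66.Cantor

/-- the messages of the initial blocks of the sequence -/
noncomputable def msg (v : ∀ k, M k) : ∀ k, M k
  | 0 => 0
  | k + 1 => mk (fun i => if (i : ℕ) = 0 then msg v k else v k)

/-- the sequence: its initial segment of length `LL k` is the code word of `msg v k` -/
noncomputable def QQ (v : ∀ k, M k) (n : ℕ) : ℕ := encf n (msg v n) n

lemma two_mul_LL_le (k : ℕ) : 2 * LL k ≤ LL (k + 1) := by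
  rw [LL_succ]
  exact Nat.mul_le_mul_right _ (by omega)

lemma LL_mono {k K : ℕ} (h : k ≤ K) : LL k ≤ LL K := by
  induction K, h using Nat.le_induction with
  | base => exact le_rfl
  | succ K _ ih =>
    have := two_mul_LL_le K
    omega

lemma lt_LL (n : ℕ) : n < LL n := by
  induction n with
  | zero => exact LL_pos 0
  | succ n ih =>
    have := two_mul_LL_le n
    omega

lemma msg_sub_zero (v : ∀ k, M k) (k : ℕ) : sub (msg v (k + 1)) 0 = msg v k := by
  unfold sub
  rw [dif_pos (nn_pos k)]
  simp [msg]

lemma QQ_eq (v : ∀ k, M k) {K n : ℕ} (h : n < LL K) : QQ v n = encf K (msg v K) n := by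
  have h1 : ∀ K K', K ≤ K' → n < LL K → encf K' (msg v K') n = encf K (msg v K) n := by
    intro K K' hK hn
    induction K', hK using Nat.le_induction with
    | base => rfl
    | succ K' hK' ih =>
      rw [← ih]
      have h2 : n < LL K' := lt_of_lt_of_le hn (LL_mono hK')
      have h3 := encf_block K' (msg v (K' + 1)) 0 n h2
      rw [zero_mul, zero_add, if_neg (by have := nn_pos K'; omega), msg_sub_zero] at h3
      exact h3
  unfold QQ
  rcases le_total K n with h2 | h2
  · exact h1 K n h2 h
  · exact (h1 n K h2 (lt_LL n)).symm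

lemma QQ_letters (v : ∀ k, M k) (n : ℕ) : QQ v n = la ∨ QQ v n = lb ∨ QQ v n = lc :=
  encf_letters _ _ _

lemma QQ_two_le (v : ∀ k, M k) (n : ℕ) : 2 ≤ QQ v n := by
  rcases QQ_letters v n with h | h | h <;> rw [h] <;> norm_num [la, lb, lc]

lemma QQ_le (v : ∀ k, M k) (n : ℕ) : QQ v n ≤ lc := by
  rcases QQ_letters v n with h | h | h <;> rw [h] <;> norm_num [la, lb, lc]

/-- the number of cells of level `k` in a block of level `k + j` -/
def RR (k : ℕ) : ℕ → ℕ
  | 0 => 1
  | j + 1 => (nn (k + j) + 2) * RR k j

lemma LL_add (k j : ℕ) : LL (k + j) = RR k j * LL k := by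
  induction j with
  | zero => simp [RR]
  | succ j ih =>
    rw [← add_assoc, LL_succ, ih, RR, mul_assoc]

lemma RR_pos (k j : ℕ) : 0 < RR k j := by
  induction j with
  | zero => simp [RR]
  | succ j ih => rw [RR]; positivity

/-- the cell number `t` of level `k` of the sequence `f` is a run of separators or a code word -/
def CellAt (k : ℕ) (f : ℕ → ℕ) (t : ℕ) : Prop :=
  (∀ r < LL k, f (t * LL k + r) = lc) ∨ (∃ m : M k, ∀ r < LL k, f (t * LL k + r) = encf k m r)

lemma encf_deep (k j : ℕ) (m : M (k + j + 1)) (t r : ℕ) (hr : r < LL k) :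
    encf (k + j + 1) m (t * LL k + r) = if t / RR k j = nn (k + j) then lc else
      encf (k + j) (sub m (t / RR k j)) ((t % RR k j) * LL k + r) := by
  have h1 : t * LL k + r = (t / RR k j) * LL (k + j) + ((t % RR k j) * LL k + r) := by
    rw [LL_add]
    have := Nat.div_add_mod t (RR k j)
    calc t * LL k + r = (RR k j * (t / RR k j) + t % RR k j) * LL k + r := by rw [this]
      _ = _ := by ring
  rw [h1]
  apply encf_block
  rw [LL_add]
  have h2 : t % RR k j < RR k j := Nat.mod_lt _ (RR_pos k j)
  calc t % RR k j * LL k + r < (t % RR k j + 1) * LL k := by rw [Nat.succ_mul]; omega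
    _ ≤ RR k j * LL k := Nat.mul_le_mul_right _ h2

lemma cellAt_encf (k j : ℕ) (m : M (k + j)) (t : ℕ) (ht : t < RR k j) :
    CellAt k (encf (k + j) m) t := by
  induction j generalizing t with
  | zero =>
    right
    rw [RR] at ht
    have : t = 0 := by omega
    subst this
    exact ⟨m, fun r hr => by rw [zero_mul, zero_add]; rfl⟩
  | succ j ih =>
    by_cases h : t / RR k j = nn (k + j)
    · left
      intro r hr
      have := encf_deep k j m t r hr
      rw [if_pos h] at this
      exact this
    · rcases ih (sub (k := k + j) m (t / RR k j)) (t % RR k j) (Nat.mod_lt _ (RR_pos k j)) with h1 | h1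
      · left
        intro r hr
        have := encf_deep k j m t r hr
        rw [if_neg h, h1 r hr] at this
        exact this
      · obtain ⟨m', hm'⟩ := h1
        right
        refine ⟨m', fun r hr => ?_⟩
        have := encf_deep k j m t r hr
        rw [if_neg h, hm' r hr] at this
        exact this

lemma exists_level (k n : ℕ) : ∃ j, n < RR k j := by
  have h : ∀ j, j < RR k j := by
    intro j
    induction j with
    | zero => simp [RR]
    | succ j ih =>
      rw [RR]
      calc j + 1 ≤ RR k j := ih
        _ < (nn (k + j) + 2) * RR k j := by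
          have := RR_pos k j
          nlinarith [nn_pos (k + j)]
  exact ⟨n, h n⟩

lemma QQ_cell_eq (v : ∀ k, M k) (k j t r : ℕ) (ht : t < RR k j) (hr : r < LL k) :
    QQ v (t * LL k + r) = encf (k + j) (msg v (k + j)) (t * LL k + r) := by
  apply QQ_eq
  rw [LL_add]
  calc t * LL k + r < (t + 1) * LL k := by rw [Nat.succ_mul]; omega
    _ ≤ RR k j * LL k := Nat.mul_le_mul_right _ ht

lemma cellAt_QQ (v : ∀ k, M k) (k t : ℕ) : CellAt k (QQ v) t := by
  obtain ⟨j, hj⟩ := exists_level k t
  rcases cellAt_encf k j (msg v (k + j)) t hj with h | ⟨m, hm⟩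
  · left
    intro r hr
    rw [QQ_cell_eq v k j t r hj hr]
    exact h r hr
  · right
    refine ⟨m, fun r hr => ?_⟩
    rw [QQ_cell_eq v k j t r hj hr]
    exact hm r hr

/-- the sum of `1 / nn (k + i)`, `i < j` -/
noncomputable def sg (k j : ℕ) : ℝ := ∑ i ∈ range j, 1 / (nn (k + i) : ℝ)

lemma sg_nonneg (k j : ℕ) : 0 ≤ sg k j := Finset.sum_nonneg (fun _ _ => by positivity)

lemma one_div_nn_le (k : ℕ) : 1 / (nn k : ℝ) ≤ 1 / 2 ^ (k + 6) := by
  apply one_div_le_one_div_of_le (by positivity)
  unfold nn
  push_cast
  linarith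

lemma sg_le (k j : ℕ) : sg k j ≤ 1 / 2 ^ (k + 5) := by
  have h : ∀ j, sg k j ≤ 1 / 2 ^ (k + 5) * (1 - 1 / 2 ^ j) := by
    intro j
    induction j with
    | zero => simp [sg]
    | succ j ih =>
      have h1 : sg k (j + 1) = sg k j + 1 / (nn (k + j) : ℝ) := by
        unfold sg
        rw [Finset.sum_range_succ]
      rw [h1]
      have h2 := one_div_nn_le (k + j)
      have h3 : (1 : ℝ) / 2 ^ (k + j + 6) = 1 / 2 ^ (k + 5) * (1 / 2 ^ j * (1 / 2)) := by
        rw [show k + j + 6 = (k + 5) + (j + 1) by ring, pow_add, pow_succ (2 : ℝ) j]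
        field_simp
      have h4 : (1 : ℝ) / 2 ^ (j + 1) = 1 / 2 ^ j * (1 / 2) := by
        rw [pow_succ]
        field_simp
      rw [h4]
      rw [h3] at h2
      nlinarith
  refine (h j).trans ?_
  have h1 : (0 : ℝ) < 1 / 2 ^ (k + 5) := by positivity
  have h2 : (0 : ℝ) ≤ 1 / 2 ^ j := by positivity
  nlinarith

open Classical in
/-- number of separator cells among the first `n` cells -/
noncomputable def sepc (k : ℕ) (f : ℕ → ℕ) (n : ℕ) : ℕ :=
  ((range n).filter (fun t => f (t * LL k) = lc)).card

lemma sepc_add (k : ℕ) (f : ℕ → ℕ) (a b : ℕ) :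
    sepc k f (a + b) = sepc k f a + ((range b).filter (fun t => f ((a + t) * LL k) = lc)).card := by
  unfold sepc
  rw [Finset.card_filter, Finset.card_filter, Finset.card_filter, Finset.sum_range_add]

lemma sepc_encf (k j : ℕ) (m : M (k + j)) (n : ℕ) (hn : n ≤ RR k j) :
    (sepc k (encf (k + j) m) n : ℝ) ≤ sg k j * n := by
  induction j generalizing n with
  | zero =>
    have h0 : sepc k (encf (k + 0) m) n = 0 := by
      unfold sepc
      rw [Finset.card_eq_zero, Finset.filter_eq_empty_iff]
      intro t ht
      rw [Finset.mem_range] at ht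
      rw [RR] at hn
      have : t = 0 := by omega
      subst this
      rw [zero_mul]
      exact encf_first k m
    rw [h0]
    simp [sg]
  | succ j ih =>
    set R := RR k j with hR
    have hRpos : 0 < R := RR_pos k j
    have hgen : ∀ q r, r ≤ R → q ≠ nn (k + j) →
        (((range r).filter (fun t => encf (k + j + 1) m ((q * R + t) * LL k) = lc)).card : ℝ) ≤
          sg k j * r := by
      intro q r hr hq
      have h1 := ih (sub (k := k + j) m q) r hr
      refine le_trans ?_ h1
      unfold sepc
      norm_cast
      apply Finset.card_le_card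
      intro t ht
      rw [Finset.mem_filter, Finset.mem_range] at ht ⊢
      refine ⟨ht.1, ?_⟩
      have h2 := encf_deep k j m (q * R + t) 0 (LL_pos k)
      have h3 : (q * R + t) / R = q := by
        rw [mul_comm, Nat.mul_add_div hRpos, Nat.div_eq_of_lt (by omega), add_zero]
      have h4 : (q * R + t) % R = t := by
        rw [mul_comm, Nat.mul_add_mod, Nat.mod_eq_of_lt (by omega)]
      rw [← hR, h3, h4, if_neg hq, add_zero, add_zero] at h2
      rw [← h2]
      exact ht.2
    have hall : ∀ q r, r ≤ R →
        (((range r).filter (fun t => encf (k + j + 1) m ((q * R + t) * LL k) = lc)).card : ℝ) ≤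
          R := by
      intro q r hr
      have := Finset.card_filter_le (range r)
        (fun t => encf (k + j + 1) m ((q * R + t) * LL k) = lc)
      rw [Finset.card_range] at this
      exact_mod_cast this.trans hr
    have hsg := sg_nonneg k j
    have hblocks : ∀ q, (sepc k (encf (k + j + 1) m) (q * R) : ℝ) ≤
        sg k j * (q * R) + (if nn (k + j) < q then (R : ℝ) else 0) := by
      intro q
      induction q with
      | zero => simp [sepc]
      | succ q ihq =>
        rw [Nat.succ_mul, sepc_add]
        push_cast
        by_cases hq : q = nn (k + j)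
        · have h1 := hall q R le_rfl
          rw [if_neg (by omega)] at ihq
          rw [if_pos (by omega)]
          have : 0 ≤ sg k j * R := by positivity
          nlinarith
        · have h1 := hgen q R le_rfl hq
          by_cases hlt : nn (k + j) < q
          · rw [if_pos hlt] at ihq
            rw [if_pos (by omega)]
            nlinarith
          · rw [if_neg hlt] at ihq
            rw [if_neg (by omega)]
            nlinarith
    have hn' : n = (n / R) * R + n % R := by
      have := Nat.div_add_mod n R
      rw [mul_comm] at this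
      exact this.symm
    set q := n / R with hq
    set r := n % R with hr
    have hrR : r ≤ R := (Nat.mod_lt _ hRpos).le
    have h1 := hblocks q
    have hsucc : sg k (j + 1) = sg k j + 1 / (nn (k + j) : ℝ) := by
      unfold sg
      rw [Finset.sum_range_succ]
    have hnn : (0 : ℝ) < nn (k + j) := by exact_mod_cast nn_pos _
    have hgoal : (sepc k (encf (k + j + 1) m) (q * R + r) : ℝ) ≤
        sg k j * (q * R + r) + 1 / (nn (k + j) : ℝ) * (q * R + r) := by
      rw [sepc_add]
      push_cast
      have hge : nn (k + j) ≤ q → (R : ℝ) ≤ 1 / (nn (k + j) : ℝ) * (q * R + r) := by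
        intro hle
        rw [div_mul_eq_mul_div, one_mul, le_div_iff₀ hnn]
        have h2 : ((nn (k + j) : ℕ) : ℝ) ≤ q := by exact_mod_cast hle
        have h3 : (0 : ℝ) ≤ r := Nat.cast_nonneg _
        have h4 : (0 : ℝ) ≤ R := Nat.cast_nonneg _
        nlinarith
      by_cases hq1 : q = nn (k + j)
      · have h2 := hall q r hrR
        rw [if_neg (by omega)] at h1
        have h3 := hge (by omega)
        have : 0 ≤ sg k j * r := by positivity
        nlinarith
      · have h2 := hgen q r hrR hq1
        by_cases hlt : nn (k + j) < q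
        · rw [if_pos hlt] at h1
          have h3 := hge (by omega)
          nlinarith
        · rw [if_neg hlt] at h1
          have : 0 ≤ 1 / (nn (k + j) : ℝ) * (q * R + r) := by positivity
          nlinarith
    have h5 : (n : ℝ) = q * R + r := by exact_mod_cast hn'
    calc (sepc k (encf (k + (j + 1)) m) n : ℝ) = (sepc k (encf (k + j + 1) m) (q * R + r) : ℝ) := by
          rw [← hn']
          rfl
      _ ≤ _ := hgoal
      _ = sg k (j + 1) * n := by rw [hsucc, h5]; ring

lemma sepc_QQ (v : ∀ k, M k) (k n : ℕ) : (sepc k (QQ v) n : ℝ) ≤ 1 / 2 ^ (k + 5) * n := by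
  obtain ⟨j, hj⟩ := exists_level k n
  have h1 := sepc_encf k j (msg v (k + j)) n hj.le
  have h2 : sepc k (QQ v) n = sepc k (encf (k + j) (msg v (k + j))) n := by
    unfold sepc
    congr 1
    apply Finset.filter_congr
    intro t ht
    rw [Finset.mem_range] at ht
    have := QQ_cell_eq v k j t 0 (by omega) (LL_pos k)
    rw [add_zero] at this
    rw [this]
  rw [h2]
  exact h1.trans (mul_le_mul_of_nonneg_right (sg_le k j) (Nat.cast_nonneg _))

end Pool.Agent.NH66.Cantor
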