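import Pool.Agent.NH66.Cantor.Seq

/-! Statistics of the code words. -/

set_option autoImplicit false

open Finset Filter Topology

namespace Pool.Agent.NH66.Cantor

/-- number of occurrences of `w` in `f` at the positions `< n` -/
def occ (f : ℕ → ℕ) (w : List ℕ) (n : ℕ) : ℕ :=
  ((range n).filter (fun i => win f i w.length = w)).card

lemma occ_le (f : ℕ → ℕ) (w : List ℕ) (n : ℕ) : occ f w n ≤ n := by
  unfold occ
  have := Finset.card_filter_le (range n) (fun i => win f i w.length = w)
  rwa [Finset.card_range] at this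

lemma win_shift (f : ℕ → ℕ) (a i L : ℕ) : win (fun i => f (a + i)) i L = win f (a + i) L := by
  rw [win_eq_iff]
  intro j _
  rw [add_assoc]

lemma occ_add (f : ℕ → ℕ) (w : List ℕ) (a b : ℕ) :
    occ f w (a + b) = occ f w a + occ (fun i => f (a + i)) w b := by
  unfold occ
  rw [Finset.card_filter, Finset.card_filter, Finset.card_filter, Finset.sum_range_add]
  congr 1
  apply Finset.sum_congr rfl
  intro i _
  rw [win_shift]

lemma occ_congr {f g : ℕ → ℕ} (w : List ℕ) {L : ℕ} (h : ∀ i < L, f i = g i) :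
    occ f w L ≤ occ g w L + w.length := by
  have h1 : (range L).filter (fun i => win f i w.length = w) ⊆
      (range L).filter (fun i => win g i w.length = w) ∪ Ico (L - w.length) L := by
    intro i hi
    rw [Finset.mem_filter, Finset.mem_range] at hi
    rw [Finset.mem_union, Finset.mem_filter, Finset.mem_range, Finset.mem_Ico]
    by_cases hiL : i + w.length ≤ L
    · left
      refine ⟨hi.1, ?_⟩
      have h2 : win g i w.length = win f i w.length := by
        rw [win_eq_iff]
        intro j hj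
        exact (h (i + j) (by omega)).symm
      rw [h2]
      exact hi.2
    · right
      omega
  refine (Finset.card_le_card h1).trans ((Finset.card_union_le _ _).trans ?_)
  rw [Nat.card_Ico]
  unfold occ
  omega

lemma occ_congr_abs {f g : ℕ → ℕ} (w : List ℕ) {L : ℕ} (h : ∀ i < L, f i = g i) :
    |(occ f w L : ℝ) - occ g w L| ≤ w.length := by
  have h1 : (occ f w L : ℝ) ≤ occ g w L + w.length := by exact_mod_cast occ_congr w h
  have h2 : (occ g w L : ℝ) ≤ occ f w L + w.length := by
    exact_mod_cast occ_congr w (fun i hi => (h i hi).symm)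
  rw [abs_le]
  constructor <;> linarith

/-- occurrences in consecutive blocks -/
lemma occ_blocks (f : ℕ → ℕ) (w : List ℕ) (s L : ℕ) :
    occ f w (s * L) = ∑ t ∈ range s, occ (fun i => f (t * L + i)) w L := by
  induction s with
  | zero => simp [occ]
  | succ s ih =>
    rw [Nat.succ_mul, occ_add, ih, Finset.sum_range_succ]

/-- the number of occurrences in the code word of a message of level `k + 1` -/
lemma occ_encf (k : ℕ) (m : M (k + 1)) (w : List ℕ) :
    |(occ (encf (k + 1) m) w (LL (k + 1)) : ℝ) -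
      ∑ i : Fin (nn k), (occ (encf k (comp m i)) w (LL k) : ℝ)| ≤
      nn k * w.length + 2 * LL k := by
  rw [LL_succ, occ_blocks, Finset.sum_range_succ, Finset.sum_range_succ]
  have h1 : ∑ i : Fin (nn k), (occ (encf k (comp m i)) w (LL k) : ℝ) =
      ∑ t ∈ range (nn k), (occ (encf k (sub m t)) w (LL k) : ℝ) := by
    rw [← Fin.sum_univ_eq_sum_range (fun t => (occ (encf k (sub m t)) w (LL k) : ℝ)) (nn k)]
    apply Finset.sum_congr rfl
    intro i _
    unfold sub
    rw [dif_pos i.2]
  rw [h1]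
  push_cast
  have h2 : |∑ t ∈ range (nn k), ((occ (fun i => encf (k + 1) m (t * LL k + i)) w (LL k) : ℝ) -
      occ (encf k (sub m t)) w (LL k))| ≤ nn k * w.length := by
    refine (Finset.abs_sum_le_sum_abs _ _).trans ?_
    calc _ ≤ ∑ t ∈ range (nn k), (w.length : ℝ) := by
          apply Finset.sum_le_sum
          intro t ht
          rw [Finset.mem_range] at ht
          apply occ_congr_abs
          intro i hi
          rw [encf_block k m t i hi, if_neg (by omega)]
      _ = _ := by rw [Finset.sum_const, Finset.card_range, nsmul_eq_mul]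
  rw [Finset.sum_sub_distrib] at h2
  have h3 : (occ (fun i => encf (k + 1) m (nn k * LL k + i)) w (LL k) : ℝ) ≤ LL k := by
    exact_mod_cast occ_le _ _ _
  have h4 : (occ (fun i => encf (k + 1) m ((nn k + 1) * LL k + i)) w (LL k) : ℝ) ≤ LL k := by
    exact_mod_cast occ_le _ _ _
  have h5 : (0 : ℝ) ≤ occ (fun i => encf (k + 1) m (nn k * LL k + i)) w (LL k) :=
    Nat.cast_nonneg _
  have h6 : (0 : ℝ) ≤ occ (fun i => encf (k + 1) m ((nn k + 1) * LL k + i)) w (LL k) :=
    Nat.cast_nonneg _
  rw [abs_le] at h2 ⊢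
  constructor <;> linarith [h2.1, h2.2]

/-- expectation over the messages of level `k` -/
noncomputable def avg (k : ℕ) (g : M k → ℝ) : ℝ := (∑ m : M k, g m) / Fintype.card (M k)

lemma card_M_pos (k : ℕ) : (0 : ℝ) < Fintype.card (M k) := by
  exact_mod_cast Fintype.card_pos

lemma avg_mono {k : ℕ} {g g' : M k → ℝ} (h : ∀ m, g m ≤ g' m) : avg k g ≤ avg k g' :=
  div_le_div_of_nonneg_right (Finset.sum_le_sum (fun m _ => h m)) (card_M_pos k).le

lemma avg_const (k : ℕ) (c : ℝ) : avg k (fun _ => c) = c := by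
  unfold avg
  rw [Finset.sum_const, Finset.card_univ, nsmul_eq_mul, mul_comm, mul_div_assoc,
    div_self (card_M_pos k).ne', mul_one]

lemma avg_sum {ι : Type*} (k : ℕ) (s : Finset ι) (g : ι → M k → ℝ) :
    avg k (fun m => ∑ i ∈ s, g i m) = ∑ i ∈ s, avg k (g i) := by
  unfold avg
  rw [Finset.sum_comm, Finset.sum_div]

lemma avg_add (k : ℕ) (g g' : M k → ℝ) : avg k (fun m => g m + g' m) = avg k g + avg k g' := by
  unfold avg
  rw [Finset.sum_add_distrib, add_div]

lemma avg_sub (k : ℕ) (g g' : M k → ℝ) : avg k (fun m => g m - g' m) = avg k g - avg k g' := by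
  unfold avg
  rw [Finset.sum_sub_distrib, sub_div]

lemma avg_mul (k : ℕ) (c : ℝ) (g : M k → ℝ) : avg k (fun m => c * g m) = c * avg k g := by
  unfold avg
  rw [← Finset.mul_sum, mul_div_assoc]

lemma exists_le_avg (k : ℕ) (g : M k → ℝ) : ∃ m, g m ≤ avg k g := by
  by_contra hcon
  push Not at hcon
  have h1 : ∑ m : M k, avg k g < ∑ m : M k, g m :=
    Finset.sum_lt_sum_of_nonempty Finset.univ_nonempty (fun m _ => hcon m)
  rw [Finset.sum_const, Finset.card_univ, nsmul_eq_mul] at h1
  unfold avg at h1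
  rw [mul_div_cancel₀ _ (card_M_pos k).ne'] at h1
  exact lt_irrefl _ h1

/-- product formula: the components are independent and uniformly distributed -/
lemma avg_prod (k : ℕ) (F : Fin (nn k) → M k → ℝ) :
    avg (k + 1) (fun m => ∏ i, F i (comp m i)) = ∏ i, avg k (F i) := by
  classical
  unfold avg
  rw [Finset.prod_div_distrib, Finset.prod_const, Finset.card_univ, Fintype.card_fin]
  congr 1
  · rw [Finset.prod_univ_sum]
    have : Fintype.piFinset (fun _ : Fin (nn k) => (Finset.univ : Finset (M k))) = Finset.univ := by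
      ext f
      simp
    rw [this]
    rfl
  · have : Fintype.card (M (k + 1)) = Fintype.card (M k) ^ (nn k) := by
      have h1 : Fintype.card (M (k + 1)) = Fintype.card (Fin (nn k) → M k) := by
        apply Fintype.card_congr
        exact Equiv.refl _
      rw [h1, Fintype.card_fun, Fintype.card_fin]
    rw [this]
    push_cast
    rfl

lemma avg_comp (k : ℕ) (g : M k → ℝ) (i : Fin (nn k)) :
    avg (k + 1) (fun m => g (comp m i)) = avg k g := by
  classical
  have h := avg_prod k (fun j => if j = i then g else fun _ => 1)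
  have h1 : ∀ m : M (k + 1), ∏ j, (if j = i then g else fun _ => 1) (comp m j) = g (comp m i) := by
    intro m
    rw [Finset.prod_eq_single i]
    · simp
    · intro j _ hj
      simp [hj]
    · simp
  have h2 : ∏ j, avg k (if j = i then g else fun _ => 1) = avg k g := by
    rw [Finset.prod_eq_single i]
    · simp
    · intro j _ hj
      simp only [if_neg hj]
      exact avg_const k 1
    · simp
  simp only [h1, h2] at h
  exact h

lemma avg_comp2 (k : ℕ) (g : M k → ℝ) (hg : avg k g = 0) {i j : Fin (nn k)} (hij : i ≠ j) :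
    avg (k + 1) (fun m => g (comp m i) * g (comp m j)) = 0 := by
  classical
  have h := avg_prod k (fun l => if l = i ∨ l = j then g else fun _ => 1)
  have h1 : ∀ m : M (k + 1), ∏ l, (if l = i ∨ l = j then g else fun _ => 1) (comp m l) =
      g (comp m i) * g (comp m j) := by
    intro m
    rw [← Finset.mul_prod_erase _ _ (Finset.mem_univ i),
      ← Finset.mul_prod_erase _ _ (Finset.mem_erase.mpr ⟨hij.symm, Finset.mem_univ j⟩)]
    rw [if_pos (Or.inl rfl), if_pos (Or.inr rfl), Finset.prod_eq_one, mul_one]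
    intro l hl
    rw [Finset.mem_erase, Finset.mem_erase] at hl
    rw [if_neg (by tauto)]
  have h2 : ∏ l, avg k (if l = i ∨ l = j then g else fun _ => 1) = 0 := by
    apply Finset.prod_eq_zero (Finset.mem_univ i)
    rw [if_pos (Or.inl rfl)]
    exact hg
  simp only [h1, h2] at h
  exact h

/-- second moment of a sum of independent centred variables -/
lemma avg_sq (k : ℕ) (g : M k → ℝ) (hg : avg k g = 0) (hg1 : ∀ m, |g m| ≤ 1) :
    avg (k + 1) (fun m => (∑ i, g (comp m i)) ^ 2) ≤ nn k := by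
  have h1 : (fun m : M (k + 1) => (∑ i, g (comp m i)) ^ 2) = fun m =>
      ∑ i, ∑ j, g (comp m i) * g (comp m j) := by
    funext m
    rw [sq, Finset.sum_mul_sum]
  rw [h1, avg_sum]
  simp only [avg_sum]
  have h2 : ∀ i : Fin (nn k), ∑ j, avg (k + 1) (fun m => g (comp m i) * g (comp m j)) ≤ 1 := by
    intro i
    rw [Finset.sum_eq_single i]
    · have h3 : avg (k + 1) (fun m => g (comp m i) * g (comp m i)) ≤
          avg (k + 1) (fun _ => (1 : ℝ)) := by
        apply avg_mono
        intro m
        have := hg1 (comp m i)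
        rw [← sq, sq_le_one_iff_abs_le_one]
        exact this
      rwa [avg_const] at h3
    · intro j _ hj
      exact avg_comp2 k g hg hj.symm
    · simp
  calc _ ≤ ∑ i : Fin (nn k), (1 : ℝ) := Finset.sum_le_sum (fun i _ => h2 i)
    _ = nn k := by simp

/-- the frequency of `w` in a random code word of level `k` -/
noncomputable def pk (w : List ℕ) (k : ℕ) : ℝ :=
  avg k (fun m => (occ (encf k m) w (LL k) : ℝ) / LL k)

lemma occ_div_mem (f : ℕ → ℕ) (w : List ℕ) {L : ℕ} (hL : 0 < L) :
    0 ≤ (occ f w L : ℝ) / L ∧ (occ f w L : ℝ) / L ≤ 1 := by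
  have hLr : (0 : ℝ) < L := by exact_mod_cast hL
  constructor
  · positivity
  · rw [div_le_one hLr]
    exact_mod_cast occ_le f w L

lemma pk_nonneg (w : List ℕ) (k : ℕ) : 0 ≤ pk w k := by
  have := avg_mono (k := k) (g := fun _ => 0)
    (g' := fun m => (occ (encf k m) w (LL k) : ℝ) / LL k)
    (fun m => (occ_div_mem _ w (LL_pos k)).1)
  rwa [avg_const] at this

lemma pk_le_one (w : List ℕ) (k : ℕ) : pk w k ≤ 1 := by
  have := avg_mono (k := k) (g' := fun _ => 1)
    (g := fun m => (occ (encf k m) w (LL k) : ℝ) / LL k)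
    (fun m => (occ_div_mem _ w (LL_pos k)).2)
  rwa [avg_const] at this

/-- error term -/
noncomputable def er (ℓ k : ℕ) : ℝ := 4 / nn k + ℓ / LL k

lemma freq_aux {o S X p L n LL1 ℓ : ℝ} (hL : 0 < L) (hn : 0 < n) (hLL : LL1 = (n + 2) * L)
    (h1 : |o - S| ≤ n * ℓ + 2 * L) (hXS : S = L * X + n * L * p) (hp0 : 0 ≤ p) (hp1 : p ≤ 1)
    (hℓ : 0 ≤ ℓ) : |o / LL1 - p| ≤ |X| / n + (4 / n + ℓ / L) := by
  have hLL1 : 0 < LL1 := by rw [hLL]; positivity
  have h2 : |o - p * LL1| ≤ n * ℓ + 4 * L + L * |X| := by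
    have h3 : o - p * LL1 = (o - S) + L * X + (- (2 * L * p)) := by
      rw [hXS, hLL]
      ring
    rw [h3]
    refine (abs_add_three _ _ _).trans ?_
    rw [abs_neg, abs_mul, abs_of_pos hL, abs_of_nonneg (by positivity : 0 ≤ 2 * L * p)]
    have : 2 * L * p ≤ 2 * L := by nlinarith
    linarith
  have h4 : o / LL1 - p = (o - p * LL1) / LL1 := by
    field_simp
  rw [h4, abs_div, abs_of_pos hLL1]
  have h5 : n * L ≤ LL1 := by rw [hLL]; nlinarith
  calc |o - p * LL1| / LL1
      ≤ (n * ℓ + 4 * L + L * |X|) / LL1 := div_le_div_of_nonneg_right h2 hLL1.le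
    _ ≤ (n * ℓ + 4 * L + L * |X|) / (n * L) := by
        apply div_le_div_of_nonneg_left _ (by positivity) h5
        have := abs_nonneg X
        positivity
    _ = _ := by
        field_simp
        ring

lemma freq_diff (k : ℕ) (m : M (k + 1)) (w : List ℕ) (p : ℝ) (hp0 : 0 ≤ p) (hp1 : p ≤ 1) :
    |(occ (encf (k + 1) m) w (LL (k + 1)) : ℝ) / LL (k + 1) - p| ≤
      |∑ i : Fin (nn k), ((occ (encf k (comp m i)) w (LL k) : ℝ) / LL k - p)| / nn k +
        er w.length k := by
  have hL : (0 : ℝ) < LL k := by exact_mod_cast LL_pos k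
  have hn : (0 : ℝ) < nn k := by exact_mod_cast nn_pos k
  have hLL : (LL (k + 1) : ℝ) = (nn k + 2) * LL k := by rw [LL_succ]; push_cast; ring
  refine freq_aux hL hn hLL (occ_encf k m w) ?_ hp0 hp1 (Nat.cast_nonneg _)
  rw [Finset.sum_sub_distrib, ← Finset.sum_div, Finset.sum_const, Finset.card_univ,
      Fintype.card_fin, nsmul_eq_mul]
  field_simp
  ring

lemma pk_diff (w : List ℕ) (k : ℕ) : |pk w (k + 1) - pk w k| ≤ er w.length k := by
  have hL : (0 : ℝ) < LL k := by exact_mod_cast LL_pos k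
  have hn : (0 : ℝ) < nn k := by exact_mod_cast nn_pos k
  have hLL : (LL (k + 1) : ℝ) = (nn k + 2) * LL k := by rw [LL_succ]; push_cast; ring
  have hLL1 : (0 : ℝ) < LL (k + 1) := by exact_mod_cast LL_pos _
  -- average of the deviation of the sums
  have h1 : avg (k + 1) (fun m => (∑ i : Fin (nn k), (occ (encf k (comp m i)) w (LL k) : ℝ))) =
      nn k * (LL k * pk w k) := by
    rw [avg_sum]
    have : ∀ i : Fin (nn k), avg (k + 1) (fun m => (occ (encf k (comp m i)) w (LL k) : ℝ)) =
        LL k * pk w k := by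
      intro i
      rw [avg_comp k (fun m => (occ (encf k m) w (LL k) : ℝ)) i]
      unfold pk
      rw [← avg_mul]
      congr 1
      funext m
      field_simp
    simp only [this]
    rw [Finset.sum_const, Finset.card_univ, Fintype.card_fin, nsmul_eq_mul]
  have h2 : pk w (k + 1) * LL (k + 1) =
      avg (k + 1) (fun m => (occ (encf (k + 1) m) w (LL (k + 1)) : ℝ)) := by
    unfold pk
    rw [mul_comm, ← avg_mul]
    congr 1
    funext m
    field_simp
  have h3 : |pk w (k + 1) * LL (k + 1) - nn k * (LL k * pk w k)| ≤ nn k * w.length + 2 * LL k := by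
    rw [h2, ← h1, ← avg_sub, abs_le]
    constructor
    · have := avg_mono (k := k + 1) (g := fun _ => -((nn k : ℝ) * w.length + 2 * LL k))
        (g' := fun m => (occ (encf (k + 1) m) w (LL (k + 1)) : ℝ) -
          ∑ i : Fin (nn k), (occ (encf k (comp m i)) w (LL k) : ℝ))
        (fun m => (abs_le.mp (occ_encf k m w)).1)
      rwa [avg_const] at this
    · have := avg_mono (k := k + 1) (g' := fun _ => ((nn k : ℝ) * w.length + 2 * LL k))
        (g := fun m => (occ (encf (k + 1) m) w (LL (k + 1)) : ℝ) -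
          ∑ i : Fin (nn k), (occ (encf k (comp m i)) w (LL k) : ℝ))
        (fun m => (abs_le.mp (occ_encf k m w)).2)
      rwa [avg_const] at this
  have hp0 := pk_nonneg w k
  have hp1 := pk_le_one w k
  have h4 : |(pk w (k + 1) - pk w k) * LL (k + 1)| ≤ nn k * w.length + 4 * LL k := by
    have h5 : (pk w (k + 1) - pk w k) * LL (k + 1) =
        (pk w (k + 1) * LL (k + 1) - nn k * (LL k * pk w k)) - 2 * LL k * pk w k := by
      rw [hLL]; ring
    rw [h5]
    refine (abs_sub _ _).trans ?_
    rw [abs_of_nonneg (by positivity : 0 ≤ 2 * (LL k : ℝ) * pk w k)]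
    have : 2 * (LL k : ℝ) * pk w k ≤ 2 * LL k := by nlinarith
    linarith
  rw [abs_mul, abs_of_pos hLL1] at h4
  have h5 : (nn k : ℝ) * LL k ≤ LL (k + 1) := by rw [hLL]; nlinarith
  have h6 : |pk w (k + 1) - pk w k| * (nn k * LL k) ≤ nn k * w.length + 4 * LL k :=
    (mul_le_mul_of_nonneg_left h5 (abs_nonneg _)).trans h4
  unfold er
  rw [← le_div_iff₀ (by positivity)] at h6
  refine h6.trans (le_of_eq ?_)
  field_simp
  ring

lemma er_le (ℓ k : ℕ) : er ℓ k ≤ (1 + ℓ) / 2 / 2 ^ k := by
  unfold er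
  have h1 := one_div_nn_le k
  have h2 : (2 : ℝ) ^ (k + 1) ≤ LL k := by
    have : 2 ^ (k + 1) ≤ LL k := by
      induction k with
      | zero => simp [LL]
      | succ k ih =>
        have := two_mul_LL_le k
        rw [pow_succ]
        have ih' := ih (one_div_nn_le k)
        omega
    exact_mod_cast this
  have h3 : (ℓ : ℝ) / LL k ≤ ℓ / 2 ^ (k + 1) :=
    div_le_div_of_nonneg_left (Nat.cast_nonneg _) (by positivity) h2
  have h4 : (4 : ℝ) / nn k = 4 * (1 / nn k) := by ring
  rw [h4]
  have h5 : (1 : ℝ) / 2 ^ (k + 6) = 1 / 64 / 2 ^ k := by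
    rw [pow_add]; norm_num; ring
  have h6 : (ℓ : ℝ) / 2 ^ (k + 1) = ℓ / 2 / 2 ^ k := by
    rw [pow_succ]; field_simp
  rw [h5] at h1
  rw [h6] at h3
  have h7 : (0 : ℝ) < 1 / 2 ^ k := by positivity
  have h8 : (1 : ℝ) / 64 / 2 ^ k = 1 / 64 * (1 / 2 ^ k) := by ring
  have h9 : (1 + (ℓ : ℝ)) / 2 / 2 ^ k = 1 / 2 * (1 / 2 ^ k) + ℓ / 2 / 2 ^ k := by ring
  rw [h8] at h1
  rw [h9]
  linarith

lemma er_tendsto (ℓ : ℕ) : Tendsto (er ℓ) atTop (𝓝 0) := by
  have h1 : Tendsto (fun k : ℕ => (1 + (ℓ : ℝ)) / 2 / 2 ^ k) atTop (𝓝 0) := by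
    have := (tendsto_pow_atTop_nhds_zero_of_lt_one (r := (1 / 2 : ℝ)) (by norm_num)
      (by norm_num)).const_mul ((1 + (ℓ : ℝ)) / 2)
    rw [mul_zero] at this
    refine this.congr (fun k => ?_)
    rw [one_div_pow]
    ring
  exact squeeze_zero (fun k => by unfold er; positivity) (er_le ℓ) h1

/-- the limit frequency of `w` -/
lemma exists_pp (w : List ℕ) : ∃ p : ℝ, Tendsto (pk w) atTop (𝓝 p) := by
  have h : CauchySeq (pk w) := by
    apply cauchySeq_of_le_geometric_two (C := 1 + (w.length : ℝ))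
    intro k
    rw [dist_comm, Real.dist_eq]
    exact (pk_diff w k).trans (er_le _ _)
  exact cauchySeq_tendsto_of_complete h

/-- the limit frequency of `w` -/
noncomputable def pp (w : List ℕ) : ℝ := (exists_pp w).choose

lemma pp_tendsto (w : List ℕ) : Tendsto (pk w) atTop (𝓝 (pp w)) := (exists_pp w).choose_spec

lemma pp_nonneg (w : List ℕ) : 0 ≤ pp w := ge_of_tendsto' (pp_tendsto w) (pk_nonneg w)

lemma pp_le_one (w : List ℕ) : pp w ≤ 1 := le_of_tendsto' (pp_tendsto w) (pk_le_one w)

/-- there are messages with almost uniform statistics -/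
lemma exists_uniform (k : ℕ) : ∃ u : M (k + 1), ∀ w : List ℕ, Encodable.encode w < k →
    |(occ (encf (k + 1) u) w (LL (k + 1)) : ℝ) / LL (k + 1) - pk w k| ≤
      √(k / nn k) + er w.length k := by
  classical
  -- the finite set of words
  set S : Finset (List ℕ) := (range k).biUnion (fun n => (Encodable.decode (α := List ℕ) n).toFinset)
    with hS
  have hSmem : ∀ w : List ℕ, Encodable.encode w < k → w ∈ S := by
    intro w hw
    rw [hS, Finset.mem_biUnion]
    refine ⟨Encodable.encode w, Finset.mem_range.mpr hw, ?_⟩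
    rw [Encodable.encodek]
    simp
  have hScard : (S.card : ℝ) ≤ k := by
    have : S.card ≤ k := by
      refine Finset.card_biUnion_le.trans ?_
      calc ∑ n ∈ range k, ((Encodable.decode (α := List ℕ) n).toFinset).card
          ≤ ∑ n ∈ range k, 1 := by
            apply Finset.sum_le_sum
            intro n _
            cases Encodable.decode (α := List ℕ) n <;> simp
        _ = k := by simp
    exact_mod_cast this
  set g : List ℕ → M k → ℝ := fun w m => (occ (encf k m) w (LL k) : ℝ) / LL k - pk w k with hg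
  have hg0 : ∀ w, avg k (g w) = 0 := by
    intro w
    rw [hg, avg_sub, avg_const]
    unfold pk
    ring
  have hg1 : ∀ w m, |g w m| ≤ 1 := by
    intro w m
    have h1 := occ_div_mem (encf k m) w (LL_pos k)
    have h2 := pk_nonneg w k
    have h3 := pk_le_one w k
    rw [hg, abs_le]
    constructor <;> simp only <;> linarith [h1.1, h1.2]
  obtain ⟨u, hu⟩ := exists_le_avg (k + 1) (fun m => ∑ w ∈ S, (∑ i, g w (comp m i)) ^ 2)
  have h1 : ∑ w ∈ S, (∑ i, g w (comp u i)) ^ 2 ≤ k * nn k := by
    refine hu.trans ?_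
    rw [avg_sum]
    calc ∑ w ∈ S, avg (k + 1) (fun m => (∑ i, g w (comp m i)) ^ 2)
        ≤ ∑ w ∈ S, (nn k : ℝ) := Finset.sum_le_sum (fun w _ => avg_sq k (g w) (hg0 w) (hg1 w))
      _ = S.card * nn k := by rw [Finset.sum_const, nsmul_eq_mul]
      _ ≤ k * nn k := mul_le_mul_of_nonneg_right hScard (Nat.cast_nonneg _)
  refine ⟨u, fun w hw => ?_⟩
  have h2 : (∑ i, g w (comp u i)) ^ 2 ≤ k * nn k :=
    (Finset.single_le_sum (f := fun w => (∑ i, g w (comp u i)) ^ 2)
      (fun w _ => sq_nonneg _) (hSmem w hw)).trans h1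
  have h3 := freq_diff k u w (pk w k) (pk_nonneg w k) (pk_le_one w k)
  refine h3.trans (add_le_add ?_ le_rfl)
  have hn : (0 : ℝ) < nn k := by exact_mod_cast nn_pos k
  apply Real.le_sqrt_of_sq_le
  rw [div_pow, sq_abs, div_le_div_iff₀ (by positivity) hn]
  calc (∑ i, ((occ (encf k (comp u i)) w (LL k) : ℝ) / LL k - pk w k)) ^ 2 * nn k
      ≤ (k * nn k) * nn k := mul_le_mul_of_nonneg_right h2 hn.le
    _ = k * (nn k : ℝ) ^ 2 := by ring

end Pool.Agent.NH66.Cantor
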