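import Pool.Agent.NH66.Cantor.Meas
import Pool.Agent.NH66.Cantor.Dyn

/-! The dynamical system. -/

set_option autoImplicit false

open Finset Filter Topology MeasureTheory

namespace Pool.Agent.NH66.Cantor

/-- the support -/
def SS : Set Om := (mu : Measure Om).support

lemma isClosed_SS : IsClosed SS := Measure.isClosed_support

lemma measurableSet_SS : MeasurableSet SS := isClosed_SS.measurableSet

lemma mu_compl_SS : (mu : Measure Om) SSᶜ = 0 := Measure.measure_compl_support

lemma mem_SS_iff (x : Om) : x ∈ SS ↔ ∀ U, x ∈ U → IsOpen U → 0 < (mu : Measure Om) U := by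
  unfold SS
  rw [Measure.support_eq_forall_isOpen]
  rfl

lemma shf_mem_SS {x : Om} (hx : x ∈ SS) : shf x ∈ SS := by
  rw [mem_SS_iff] at hx ⊢
  intro U hU hUo
  rw [← map_shf, Measure.map_apply continuous_shf.measurable hUo.measurableSet]
  exact hx _ hU (hUo.preimage continuous_shf)

/-- an open set containing `x` contains a cylinder around `x` -/
lemma exists_cyl {U : Set Om} (hU : IsOpen U) {x : Om} (hx : x ∈ U) :
    ∃ n : ℕ, cyl (fun j : Fin n => x j) ⊆ U := by
  obtain ⟨I, u, hu, hI⟩ := isOpen_pi_iff.mp hU x hx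
  obtain ⟨n, hn⟩ : ∃ n, ∀ i ∈ I, i < n := by
    refine ⟨I.sup id + 1, fun i hi => ?_⟩
    have : id i ≤ I.sup id := Finset.le_sup hi
    simp only [id_eq] at this
    omega
  refine ⟨n, fun y hy => hI ?_⟩
  intro i hi
  have h1 := hy ⟨i, hn i hi⟩
  simp only at h1
  rw [h1]
  exact (hu i hi).2

lemma qq_mem_SS : qq ∈ SS := by
  rw [mem_SS_iff]
  intro U hU hUo
  obtain ⟨n, hn⟩ := exists_cyl hUo hU
  refine lt_of_lt_of_le ?_ (measure_mono hn)
  have h1 : 0 < (mu : Measure Om).real (cyl (fun j : Fin n => qq j)) := by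
    rw [mu_cyl]
    have h2 : wl (fun j : Fin n => qq j) = win Q 0 n := by
      symm
      rw [win_eq_wl Q_letters]
      funext j
      rw [zero_add]
      rfl
    rw [h2]
    exact pp_pos n
  unfold Measure.real at h1
  exact (ENNReal.toReal_pos_iff.mp h1).1

/-- the space -/
abbrev XX : Type := {x : Om // x ∈ SS}

/-- the map -/
def TT (x : XX) : XX := ⟨shf x.1, shf_mem_SS x.2⟩

/-- the letter function -/
def ff (x : XX) : ℕ := lett (x.1 0)

/-- the point -/
noncomputable def xx : XX := ⟨qq, qq_mem_SS⟩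

/-- the measure -/
noncomputable def mm : Measure XX := (mu : Measure Om).comap Subtype.val

instance : CompactSpace XX := isCompact_iff_compactSpace.mp isClosed_SS.isCompact

instance : PolishSpace Om := by
  have h : Continuous (fun (x : Om) (n : ℕ) => (x n : ℕ)) :=
    continuous_pi (fun n => continuous_of_discreteTopology.comp (continuous_apply n))
  refine (h.isClosedEmbedding ?_).polishSpace
  intro x y hxy
  funext n
  exact Fin.ext (congrFun hxy n)

instance : PolishSpace XX := isClosed_SS.polishSpace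

lemma TT_iterate (x : XX) (i : ℕ) : (TT^[i] x).1 = shf^[i] x.1 := by
  induction i generalizing x with
  | zero => rfl
  | succ i ih => rw [Function.iterate_succ_apply, Function.iterate_succ_apply, ih]; rfl

lemma mm_preimage (t : Set Om) : mm (Subtype.val ⁻¹' t) = (mu : Measure Om) t := by
  unfold mm
  rw [(MeasurableEmbedding.subtype_coe measurableSet_SS).comap_preimage, Subtype.range_coe]
  exact measure_inter_conull mu_compl_SS

lemma mm_real_preimage (t : Set Om) : mm.real (Subtype.val ⁻¹' t) = (mu : Measure Om).real t := by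
  unfold Measure.real
  rw [mm_preimage]

instance : IsProbabilityMeasure mm := ⟨by
  rw [← Set.preimage_univ (f := (Subtype.val : XX → Om)), mm_preimage]
  exact measure_univ⟩

lemma continuous_TT : Continuous TT := by
  unfold TT
  exact (continuous_shf.comp continuous_subtype_val).subtype_mk _

lemma preserving_TT : MeasurePreserving TT mm mm := by
  refine ⟨continuous_TT.measurable, ?_⟩
  ext s hs
  rw [Measure.map_apply continuous_TT.measurable hs]
  obtain ⟨t, ht, rfl⟩ := hs
  have h1 : TT ⁻¹' (Subtype.val ⁻¹' t) = Subtype.val ⁻¹' (shf ⁻¹' t) := rfl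
  rw [h1, mm_preimage, mm_preimage, ← Measure.map_apply continuous_shf.measurable ht, map_shf]

lemma positive_mm (U : Set XX) (hU : IsOpen U) (hne : U.Nonempty) : 0 < mm U := by
  obtain ⟨V, hV, rfl⟩ := isOpen_induced_iff.mp hU
  obtain ⟨x, hx⟩ := hne
  rw [mm_preimage]
  exact (mem_SS_iff x.1).mp x.2 V hx hV

lemma continuous_ff : Continuous ff := by
  have h : Continuous (fun x : XX => x.1 0) :=
    (continuous_apply (A := fun _ : ℕ => Fin 3) 0).comp continuous_subtype_val
  exact (continuous_of_discreteTopology (f := lett)).comp h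

lemma two_le_ff (x : XX) : 2 ≤ ff x := by
  unfold ff lett
  split_ifs <;> norm_num [la, lb, lc]

lemma ff_iterate (x : XX) (n : ℕ) : ff (TT^[n] x) = lett (x.1 n) := by
  unfold ff
  rw [TT_iterate, shf_iterate, add_zero]

lemma Q_eq (n : ℕ) : Q n = ff (TT^[n] xx) := by
  rw [ff_iterate]
  exact (lett_dec (Q_letters n)).symm

lemma smallest_XX (τ : TopologicalSpace XX) (h1 : ∀ U, IsOpen[τ] U → IsOpen[τ] (TT ⁻¹' U))
    (h2 : ∀ A : Set ℕ, IsOpen[τ] (ff ⁻¹' A)) (U : Set XX)
    (hU : IsOpen[instTopologicalSpaceSubtype] U) : IsOpen[τ] U := by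
  -- the coordinates are continuous
  have h3 : ∀ (n : ℕ) (A : Set ℕ), IsOpen[τ] {x : XX | ff (TT^[n] x) ∈ A} := by
    intro n
    induction n with
    | zero => exact h2
    | succ n ih =>
      intro A
      exact h1 _ (ih A)
  have h4 : ∀ (n : ℕ) (w : Fin n → Fin 3), IsOpen[τ] {x : XX | x.1 ∈ cyl w} := by
    intro n w
    have h5 : {x : XX | x.1 ∈ cyl w} = ⋂ j : Fin n, {x : XX | ff (TT^[j] x) ∈ ({lett (w j)} : Set ℕ)} := by
      ext x
      rw [Set.mem_iInter]
      constructor
      · intro hx j
        show ff (TT^[j] x) = lett (w j)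
        rw [ff_iterate]
        exact congrArg lett (hx j)
      · intro hx j
        have h6 : ff (TT^[j] x) = lett (w j) := hx j
        rw [ff_iterate] at h6
        rw [← dec_lett (x.1 j), h6, dec_lett]
    rw [h5]
    exact @isOpen_iInter_of_finite _ _ τ _ _ (fun j => h3 j _)
  obtain ⟨V, hV, rfl⟩ := isOpen_induced_iff.mp hU
  have h5 : (Subtype.val ⁻¹' V : Set XX) =
      ⋃ p : {p : (n : ℕ) × (Fin n → Fin 3) // cyl p.2 ⊆ V}, {x : XX | x.1 ∈ cyl p.1.2} := by
    ext x
    rw [Set.mem_iUnion]
    constructor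
    · intro hx
      obtain ⟨n, hn⟩ := exists_cyl hV hx
      exact ⟨⟨⟨n, fun j : Fin n => x.1 j⟩, hn⟩, fun j => rfl⟩
    · rintro ⟨p, hp⟩
      exact p.2 hp
  rw [h5]
  exact @isOpen_iUnion _ _ τ _ (fun p => h4 _ _)

lemma generic_XX (g : XX → ℝ) (hg : Continuous g) :
    Tendsto (fun n : ℕ => (∑ i ∈ range n, g (TT^[i] xx)) / n) atTop (𝓝 (∫ y, g y ∂mm)) := by
  obtain ⟨G, hG⟩ := ContinuousMap.exists_restrict_eq isClosed_SS (⟨g, hg⟩ : C(SS, ℝ))
  have h1 : ∀ x : XX, g x = G x.1 := by
    intro x
    have := congrArg (fun F : C(SS, ℝ) => F x) hG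
    exact this.symm
  have h2 : ∫ y, g y ∂mm = ∫ y, G y ∂(mu : Measure Om) := by
    have h3 : ∫ y, g y ∂mm = ∫ y : XX, G y.1 ∂mm := by
      congr 1
      funext y
      exact h1 y
    rw [h3]
    unfold mm
    have h4 := integral_subtype_comap (μ := (mu : Measure Om)) measurableSet_SS (fun y => G y)
    refine h4.trans ?_
    rw [Measure.restrict_eq_self_of_ae_mem]
    rw [ae_iff]
    exact mu_compl_SS
  rw [h2]
  refine (birkhoff G G.continuous).congr (fun n => ?_)
  congr 1
  apply Finset.sum_congr rfl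
  intro i _
  rw [h1, TT_iterate]
  rfl

theorem generated : GeneratedBy Q XX mm TT ff xx where
  prob := inferInstance
  positive := positive_mm
  continuous_T := continuous_TT
  preserving := preserving_TT
  continuous_f := continuous_ff
  two_le := two_le_ff
  smallest := smallest_XX
  generic := fun g hg _ => generic_XX g hg
  eq := fun n _ => Q_eq n

/-- the partition by the first letter -/
def PP (x : XX) : Fin 3 := x.1 0

lemma continuous_PP : Continuous PP :=
  (continuous_apply (A := fun _ : ℕ => Fin 3) 0).comp continuous_subtype_val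

lemma entropy_PP (n : ℕ) : Pool.Agent.Helper179.KS.shannonEntropy mm
    (Pool.Agent.Helper179.KS.itinerary TT PP n) =
    ∑ w : Fin n → Fin 3, Real.negMulLog (pp (wl w)) := by
  unfold Pool.Agent.Helper179.KS.shannonEntropy
  apply Finset.sum_congr rfl
  intro w _
  congr 1
  rw [← mu_cyl, ← mm_real_preimage]
  congr 1
  ext x
  rw [Set.mem_preimage, Set.mem_singleton_iff, Set.mem_preimage]
  have h1 : Pool.Agent.Helper179.KS.itinerary TT PP n x = fun j : Fin n => x.1 j := by
    funext j
    unfold Pool.Agent.Helper179.KS.itinerary PP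
    rw [TT_iterate, shf_iterate, add_zero]
  rw [h1]
  constructor
  · intro h j
    exact congrFun h j
  · intro h
    funext j
    exact h j

theorem entropy_pos : 0 < Pool.Agent.Helper179.KS.ksEntropy mm TT := by
  have h1 : ((1 / 50 : ℝ) : EReal) ≤ Pool.Agent.Helper179.KS.partitionEntropy mm TT PP := by
    unfold Pool.Agent.Helper179.KS.partitionEntropy
    apply le_limsup_of_frequently_le'
    · rw [Filter.frequently_atTop]
      intro N
      refine ⟨2 * LL (N + 1), ?_, ?_⟩
      · have := lt_LL (N + 1)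
        omega
      · have h2 := entropy_word (N + 1) (by omega)
        rw [entropy_PP]
        have h3 : (0 : ℝ) < ((2 * LL (N + 1) : ℕ) : ℝ) := by
          have := LL_pos (N + 1)
          exact_mod_cast (by omega : 0 < 2 * LL (N + 1))
        have h4 : (1 / 50 : ℝ) ≤ (∑ w : Fin (2 * LL (N + 1)) → Fin 3,
            Real.negMulLog (pp (wl w))) / ((2 * LL (N + 1) : ℕ) : ℝ) := by
          rw [le_div_iff₀ h3]
          exact h2
        exact_mod_cast h4
  have h2 : Pool.Agent.Helper179.KS.partitionEntropy mm TT PP ≤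
      Pool.Agent.Helper179.KS.ksEntropy mm TT := by
    unfold Pool.Agent.Helper179.KS.ksEntropy
    exact le_iSup_of_le 3 (le_iSup_of_le PP (le_iSup_of_le continuous_PP.measurable le_rfl))
  refine lt_of_lt_of_le ?_ (h1.trans h2)
  exact_mod_cast (by norm_num : (0 : ℝ) < 1 / 50)

theorem nonDeterministic_Q : NonDeterministic Q :=
  ⟨XX, inferInstance, inferInstance, inferInstance, inferInstance, mm, TT, ff, xx, generated,
    entropy_pos⟩

end Pool.Agent.NH66.Cantor
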