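import Pool.Agent.NH66.Cantor.Defs

/-! Tails of Cantor series expansions. -/

set_option autoImplicit false

open Finset Filter Topology

namespace Pool.Agent.NH66.Cantor

lemma qprod_zero (q : ℕ → ℕ) : qprod q 0 = 1 := by simp [qprod]

lemma qprod_succ (q : ℕ → ℕ) (n : ℕ) : qprod q (n + 1) = qprod q n * q (n + 1) := by
  unfold qprod
  rw [Finset.prod_Icc_succ_top (by omega)]

/-- the rank of the cylinder of the digit word in the list of all cylinders -/
def rk : List ℕ → List ℕ → ℕ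
  | _ :: V, d :: E => d * V.prod + rk V E
  | _, _ => 0

/-- the cylinder of the digit word is contained in `[α, β)` -/
def CylIn (α β : ℝ) (V E : List ℕ) : Prop :=
  α ≤ (rk V E : ℝ) / V.prod ∧ ((rk V E : ℝ) + 1) / V.prod ≤ β

lemma sum_range_mul_aux (g : ℕ → ℝ) (v P : ℕ) :
    ∑ d ∈ range v, ∑ r ∈ range P, g (d * P + r) = ∑ r ∈ range (v * P), g r := by
  induction v with
  | zero => simp
  | succ v ih =>
    rw [Finset.sum_range_succ, ih, Nat.succ_mul, Finset.sum_range_add]

lemma Ex_rk (V : List ℕ) (g : ℕ → ℝ) :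
    Ex V (fun E => g (rk V E)) = (∑ r ∈ range V.prod, g r) / V.prod := by
  induction V generalizing g with
  | nil => simp [Ex_nil, rk]
  | cons v V ih =>
    rw [Ex_cons]
    have h1 : ∀ d ∈ range v, Ex V (fun E => g (rk (v :: V) (d :: E))) =
        (∑ r ∈ range V.prod, g (d * V.prod + r)) / V.prod := by
      intro d _
      exact ih (fun r => g (d * V.prod + r))
    rw [Finset.sum_congr rfl h1, ← Finset.sum_div, sum_range_mul_aux, List.prod_cons,
      Nat.cast_mul, div_div, mul_comm (V.prod : ℝ)]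

lemma card_range_ge (P : ℕ) (α β : ℝ) (hα : 0 ≤ α) (hβ : β ≤ 1) (hP : 0 < P) :
    (β - α) * P - 2 ≤ (((range P).filter (fun r : ℕ => α ≤ (r : ℝ) / P ∧
      ((r : ℝ) + 1) / P ≤ β)).card : ℝ) := by
  classical
  have hPr : (0 : ℝ) < P := by exact_mod_cast hP
  by_cases hsmall : (β - α) * P - 2 ≤ 0
  · exact hsmall.trans (Nat.cast_nonneg _)
  push Not at hsmall
  have hβ0 : 0 ≤ β := by
    by_contra h
    push Not at h
    nlinarith
  set A := ⌈α * P⌉₊ with hA
  set B := ⌊β * P⌋₊ with hB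
  have hsub : Ico A B ⊆ (range P).filter (fun r : ℕ => α ≤ (r : ℝ) / P ∧
      ((r : ℝ) + 1) / P ≤ β) := by
    intro r hr
    rw [Finset.mem_Ico] at hr
    have h1 : α * P ≤ r := (Nat.le_ceil _).trans (by exact_mod_cast hr.1)
    have h2 : (r : ℝ) + 1 ≤ β * P := by
      have : ((r + 1 : ℕ) : ℝ) ≤ B := by exact_mod_cast hr.2
      push_cast at this
      exact this.trans (Nat.floor_le (by positivity))
    rw [Finset.mem_filter, Finset.mem_range]
    refine ⟨?_, ?_, ?_⟩
    · have h3 : (r : ℝ) + 1 ≤ P := h2.trans (by nlinarith)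
      have : ((r + 1 : ℕ) : ℝ) ≤ (P : ℕ) := by push_cast; exact h3
      exact_mod_cast this
    · rw [le_div_iff₀ hPr]; exact h1
    · rw [div_le_iff₀ hPr]; exact h2
  have h1 := Finset.card_le_card hsub
  rw [Nat.card_Ico] at h1
  have h2 : (A : ℝ) ≤ α * P + 1 := (Nat.ceil_lt_add_one (by positivity)).le
  have h3 : β * P - 1 ≤ B := (Nat.sub_one_lt_floor _).le
  have h4 : ((B : ℝ) - A) ≤ ((B - A : ℕ) : ℝ) := by
    rw [sub_le_iff_le_add]
    have : B ≤ (B - A) + A := by omega
    exact_mod_cast this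
  have h5 : ((B - A : ℕ) : ℝ) ≤ (((range P).filter (fun r : ℕ => α ≤ (r : ℝ) / P ∧
      ((r : ℝ) + 1) / P ≤ β)).card : ℝ) := by exact_mod_cast h1
  calc (β - α) * P - 2 ≤ (B : ℝ) - A := by linarith
    _ ≤ _ := h4.trans h5

lemma Pr_cyl_ge (V : List ℕ) (hV : ∀ v ∈ V, 0 < v) (α β : ℝ) (hα : 0 ≤ α) (hβ : β ≤ 1) :
    β - α - 2 / V.prod ≤ Pr V {E | CylIn α β V E} := by
  classical
  have hP : 0 < V.prod := List.prod_pos hV
  have hPr : (0 : ℝ) < V.prod := by exact_mod_cast hP
  have h1 : Pr V {E | CylIn α β V E} = Ex V (fun E => (fun r : ℕ =>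
      if (α ≤ (r : ℝ) / V.prod ∧ ((r : ℝ) + 1) / V.prod ≤ β) then (1 : ℝ) else 0) (rk V E)) := by
    unfold Pr
    apply Ex_congr
    intro E _
    by_cases h : CylIn α β V E
    · rw [ind_mem (show E ∈ {E | CylIn α β V E} from h)]
      exact (if_pos h).symm
    · rw [ind_notMem (show E ∉ {E | CylIn α β V E} from h)]
      exact (if_neg h).symm
  rw [h1, Ex_rk V (fun r : ℕ =>
      if (α ≤ (r : ℝ) / V.prod ∧ ((r : ℝ) + 1) / V.prod ≤ β) then (1 : ℝ) else 0)]
  rw [Finset.sum_ite, Finset.sum_const_zero, add_zero, Finset.sum_const, nsmul_eq_mul, mul_one,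
    le_div_iff₀ hPr]
  have h2 := card_range_ge V.prod α β hα hβ hP
  calc (β - α - 2 / V.prod) * V.prod = (β - α) * V.prod - 2 := by field_simp
    _ ≤ _ := h2

section expansion

variable {q : ℕ → ℕ} {x : ℝ} {d : ℕ → ℕ}

/-- the tail `q₁ ⋯ qₙ (x - ∑_{m ≤ n} d_m / (q₁ ⋯ q_m))` -/
noncomputable def tail (q : ℕ → ℕ) (x : ℝ) (d : ℕ → ℕ) (n : ℕ) : ℝ :=
  qprod q n * (x - ∑ m ∈ range n, (d (m + 1) : ℝ) / qprod q (m + 1))

lemma qprod_pos (hq : ∀ n, 1 ≤ n → 2 ≤ q n) (n : ℕ) : 0 < qprod q n := by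
  unfold qprod
  apply Finset.prod_pos
  intro i hi
  have := hq i (Finset.mem_Icc.mp hi).1
  omega

lemma tail_nonneg (_hq : ∀ n, 1 ≤ n → 2 ≤ q n) (h : IsExpansion q x d) (n : ℕ) :
    0 ≤ tail q x d n := by
  apply mul_nonneg (Nat.cast_nonneg _)
  rw [sub_nonneg]
  exact sum_le_hasSum _ (fun i _ => by positivity) h.2.2

lemma tail_le_one (hq : ∀ n, 1 ≤ n → 2 ≤ q n) (h : IsExpansion q x d) (n : ℕ) :
    tail q x d n ≤ 1 := by
  have hP : ∀ m, (0 : ℝ) < qprod q m := fun m => by exact_mod_cast qprod_pos hq m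
  have h1 : ∀ k, ∑ m ∈ range (n + k), (d (m + 1) : ℝ) / qprod q (m + 1) ≤
      ∑ m ∈ range n, (d (m + 1) : ℝ) / qprod q (m + 1) + 1 / qprod q n - 1 / qprod q (n + k) := by
    intro k
    induction k with
    | zero => simp
    | succ k ih =>
      rw [← add_assoc, Finset.sum_range_succ]
      have h2 : (d (n + k + 1) : ℝ) + 1 ≤ q (n + k + 1) := by
        exact_mod_cast h.1 (n + k + 1) (by omega)
      have h3 : (d (n + k + 1) : ℝ) / qprod q (n + k + 1) ≤
          1 / qprod q (n + k) - 1 / qprod q (n + k + 1) := by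
        have h4 : (qprod q (n + k + 1) : ℝ) = qprod q (n + k) * q (n + k + 1) := by
          rw [qprod_succ]; push_cast; ring
        have h5 := hP (n + k)
        have h6 := hP (n + k + 1)
        have h7 : (1 : ℝ) / qprod q (n + k) = q (n + k + 1) / qprod q (n + k + 1) := by
          rw [h4]
          have : (q (n + k + 1) : ℝ) ≠ 0 := by
            intro h0
            rw [h0] at h2
            have := Nat.cast_nonneg (α := ℝ) (d (n + k + 1))
            linarith
          field_simp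
        rw [h7, ← sub_div]
        apply div_le_div_of_nonneg_right _ h6.le
        linarith
      linarith
  have h2 : x ≤ ∑ m ∈ range n, (d (m + 1) : ℝ) / qprod q (m + 1) + 1 / qprod q n := by
    apply le_of_tendsto h.2.2.tendsto_sum_nat
    filter_upwards [eventually_ge_atTop n] with M hM
    obtain ⟨k, rfl⟩ := Nat.exists_eq_add_of_le hM
    have := h1 k
    have h3 : (0 : ℝ) ≤ 1 / qprod q (n + k) := by positivity
    linarith
  unfold tail
  have h3 := hP n
  calc (qprod q n : ℝ) * (x - ∑ m ∈ range n, (d (m + 1) : ℝ) / qprod q (m + 1))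
      ≤ qprod q n * (1 / qprod q n) := by
        apply mul_le_mul_of_nonneg_left _ h3.le
        linarith
    _ = 1 := by field_simp

lemma tail_rec (hq : ∀ n, 1 ≤ n → 2 ≤ q n) (n : ℕ) :
    tail q x d n = (d (n + 1) + tail q x d (n + 1)) / q (n + 1) := by
  have hP : ∀ m, (0 : ℝ) < qprod q m := fun m => by exact_mod_cast qprod_pos hq m
  have hqn : (0 : ℝ) < q (n + 1) := by
    have := hq (n + 1) (by omega)
    exact_mod_cast (by omega : 0 < q (n + 1))
  unfold tail
  rw [Finset.sum_range_succ, qprod_succ]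
  have h1 := hP n
  push_cast
  field_simp
  ring

lemma tail_lt_one (hq : ∀ n, 1 ≤ n → 2 ≤ q n) (h : IsExpansion q x d) (n : ℕ) :
    tail q x d n < 1 := by
  rcases (tail_le_one hq h n).lt_or_eq with h1 | h1
  · exact h1
  exfalso
  have h2 : ∀ k, tail q x d (n + k) = 1 := by
    intro k
    induction k with
    | zero => exact h1
    | succ k ih =>
      have h3 := tail_rec (x := x) (d := d) hq (n + k)
      rw [ih] at h3
      have hqn : (0 : ℝ) < q (n + k + 1) := by
        have := hq (n + k + 1) (by omega)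
        exact_mod_cast (by omega : 0 < q (n + k + 1))
      rw [eq_div_iff hqn.ne', one_mul] at h3
      have h4 : (d (n + k + 1) : ℝ) + 1 ≤ q (n + k + 1) := by
        exact_mod_cast h.1 (n + k + 1) (by omega)
      have h5 := tail_le_one hq h (n + k + 1)
      rw [← add_assoc]
      linarith
  have h3 : ∀ k, d (n + k + 1) = q (n + k + 1) - 1 := by
    intro k
    have h3 := tail_rec (x := x) (d := d) hq (n + k)
    have h4 := h2 (k + 1)
    rw [h2 k] at h3
    rw [← add_assoc] at h4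
    rw [h4] at h3
    have hqn : (0 : ℝ) < q (n + k + 1) := by
      have := hq (n + k + 1) (by omega)
      exact_mod_cast (by omega : 0 < q (n + k + 1))
    rw [eq_div_iff hqn.ne', one_mul] at h3
    have h5 : q (n + k + 1) = d (n + k + 1) + 1 := by exact_mod_cast h3
    omega
  obtain ⟨m, hm, hm2⟩ := (frequently_atTop.mp h.2.1) (n + 1)
  obtain ⟨k, rfl⟩ := Nat.exists_eq_add_of_le hm
  apply hm2
  have := h3 k
  rwa [show n + 1 + k = n + k + 1 by ring]

lemma fract_eq (hq : ∀ n, 1 ≤ n → 2 ≤ q n) (h : IsExpansion q x d) (n : ℕ) :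
    Int.fract ((qprod q n : ℝ) * x) = tail q x d n := by
  have hP : ∀ m, (0 : ℝ) < qprod q m := fun m => by exact_mod_cast qprod_pos hq m
  have h1 : ∀ n, ∃ z : ℤ, (qprod q n : ℝ) * ∑ m ∈ range n, (d (m + 1) : ℝ) / qprod q (m + 1) =
      z := by
    intro n
    induction n with
    | zero => exact ⟨0, by simp⟩
    | succ n ih =>
      obtain ⟨z, hz⟩ := ih
      refine ⟨z * q (n + 1) + d (n + 1), ?_⟩
      rw [Finset.sum_range_succ, mul_add]
      have h3 : (qprod q (n + 1) : ℝ) * ((d (n + 1) : ℝ) / qprod q (n + 1)) = d (n + 1) := by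
        have := hP (n + 1)
        field_simp
      rw [h3, qprod_succ]
      push_cast
      rw [← hz]
      ring
  obtain ⟨z, hz⟩ := h1 n
  have h2 : (qprod q n : ℝ) * x = tail q x d n + z := by
    unfold tail
    rw [mul_sub, hz]
    ring
  rw [h2, Int.fract_add_intCast, Int.fract_eq_self]
  exact ⟨tail_nonneg hq h n, tail_lt_one hq h n⟩

lemma tail_eq (hq : ∀ n, 1 ≤ n → 2 ≤ q n) (n ℓ : ℕ) :
    tail q x d n = (rk (win q (n + 1) ℓ) (win d (n + 1) ℓ) + tail q x d (n + ℓ)) /
      (win q (n + 1) ℓ).prod := by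
  induction ℓ generalizing n with
  | zero => simp [rk]
  | succ ℓ ih =>
    rw [win_succ, win_succ, List.prod_cons, tail_rec hq n, ih (n + 1)]
    have hqn : (0 : ℝ) < q (n + 1) := by
      have := hq (n + 1) (by omega)
      exact_mod_cast (by omega : 0 < q (n + 1))
    have hp : (0 : ℝ) < (win q (n + 1 + 1) ℓ).prod := by
      have : 0 < (win q (n + 1 + 1) ℓ).prod := by
        apply List.prod_pos
        intro v hv
        obtain ⟨i, _, rfl⟩ := mem_win hv
        have := hq (n + 1 + 1 + i) (by omega)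
        omega
      exact_mod_cast this
    rw [show n + 1 + ℓ = n + (ℓ + 1) by ring]
    simp only [rk]
    rw [Nat.cast_mul, Nat.cast_add, Nat.cast_mul]
    generalize ((win q (n + 1 + 1) ℓ).prod : ℝ) = p at hp
    field_simp
    ring

lemma tail_mem_of_cylIn (hq : ∀ n, 1 ≤ n → 2 ≤ q n) (h : IsExpansion q x d) {α β : ℝ} (n ℓ : ℕ)
    (hc : CylIn α β (win q (n + 1) ℓ) (win d (n + 1) ℓ)) :
    tail q x d n ∈ Set.Ico α β := by
  have hp : (0 : ℝ) < (win q (n + 1) ℓ).prod := by
    have : 0 < (win q (n + 1) ℓ).prod := by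
      apply List.prod_pos
      intro v hv
      obtain ⟨i, _, rfl⟩ := mem_win hv
      have := hq (n + 1 + i) (by omega)
      omega
    exact_mod_cast this
  have h0 := tail_nonneg hq h (n + ℓ)
  have h1 := tail_lt_one hq h (n + ℓ)
  rw [tail_eq hq n ℓ]
  obtain ⟨hc1, hc2⟩ := hc
  constructor
  · apply hc1.trans
    apply div_le_div_of_nonneg_right _ hp.le
    linarith
  · refine lt_of_lt_of_le ?_ hc2
    apply div_lt_div_of_pos_right _ hp
    linarith

end expansion

end Pool.Agent.NH66.Cantor
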